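import Pool.Agent.Helper84.FJ.M

/-!
# Nilpotent-by-abelian groups of dimension one
-/

set_option autoImplicit false

namespace Pool.Agent.Helper84.FJ

open Pool.Agent.Y462.SS Pool.Agent.Q152.WP Pool.Agent.Q91.FJ

theorem ft_of_gen {H : Type} [Group H] [hfg : Group.FG H] (N : Subgroup H) [hN : N.Normal]
    {R A : Type} [CommRing R] [AddCommGroup A] [Module R A]
    (e : N ≃* Multiplicative A) (π : H → R)
    (hconj : ∀ (g : H) (x y : N), (y : H) = g * x * g⁻¹ →
      (e y).toAdd = π g • (e x).toAdd)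
    (hgen : Subring.closure (Set.range π) = ⊤)
    (hfaith : ∀ r : R, (∀ a : A, r • a = 0) → r = 0) : Algebra.FiniteType ℤ R := by
  classical
  obtain ⟨s, hs, hsf⟩ := Group.fg_iff.1 hfg
  have hsurj : ∀ a : A, ∃ x : N, (e x).toAdd = a := fun a =>
    ⟨e.symm (Multiplicative.ofAdd a), by rw [MulEquiv.apply_symm_apply]; rfl⟩
  have hcn : ∀ (g : H) (x : N), g * (x : H) * g⁻¹ ∈ N := fun g x => hN.conj_mem x x.2 g
  have hmul : ∀ g h, π (g * h) = π g * π h := by
    intro g h
    rw [← sub_eq_zero]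
    apply hfaith
    intro a
    obtain ⟨x, rfl⟩ := hsurj a
    rw [sub_smul, mul_smul, ← hconj h x ⟨_, hcn h x⟩ rfl, ← hconj g _ ⟨_, hcn g ⟨_, hcn h x⟩⟩ rfl,
      ← hconj (g * h) x ⟨_, hcn g ⟨_, hcn h x⟩⟩ (by simp only; group), sub_self]
  have hone : π 1 = 1 := by
    rw [← sub_eq_zero]
    apply hfaith
    intro a
    obtain ⟨x, rfl⟩ := hsurj a
    rw [sub_smul, one_smul, ← hconj 1 x x (by group), sub_self]
  let T : Set R := π '' s ∪ (fun g => π g⁻¹) '' s
  have hT : T.Finite := (hsf.image _).union (hsf.image _)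
  let Y : Subgroup H :=
    { carrier := {g | π g ∈ Subring.closure T ∧ π g⁻¹ ∈ Subring.closure T}
      mul_mem' := by
        rintro g h ⟨hg1, hg2⟩ ⟨hh1, hh2⟩
        refine ⟨?_, ?_⟩
        · rw [hmul]
          exact mul_mem hg1 hh1
        · rw [mul_inv_rev, hmul]
          exact mul_mem hh2 hg2
      one_mem' := by
        refine ⟨?_, ?_⟩
        · rw [hone]
          exact one_mem _
        · rw [inv_one, hone]
          exact one_mem _
      inv_mem' := by
        rintro g ⟨hg1, hg2⟩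
        refine ⟨hg2, ?_⟩
        rw [inv_inv]
        exact hg1 }
  have hY : Y = ⊤ := by
    rw [eq_top_iff, ← hs, Subgroup.closure_le]
    intro g hg
    exact ⟨Subring.subset_closure (Or.inl ⟨g, hg, rfl⟩),
      Subring.subset_closure (Or.inr ⟨g, hg, rfl⟩)⟩
  refine ⟨⟨hT.toFinset, ?_⟩⟩
  rw [Set.Finite.coe_toFinset, Algebra.adjoin_int, eq_top_iff]
  rintro r -
  have hr : r ∈ Subring.closure (Set.range π) := by
    rw [hgen]
    trivial
  have h1 : Subring.closure (Set.range π) ≤ Subring.closure T := by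
    rw [Subring.closure_le]
    rintro _ ⟨g, rfl⟩
    have hg : g ∈ Y := by
      rw [hY]
      trivial
    exact hg.1
  exact h1 hr

theorem ft_of_surj {R D : Type} [CommRing R] [CommRing D] [Algebra.FiniteType ℤ R] (f : R →+* D)
    (hf : Function.Surjective f) : Algebra.FiniteType ℤ D :=
  Algebra.FiniteType.of_surjective f.toIntAlgHom hf

/-- domains of dimension at most one -/
theorem dim_one_domain (D : Type) [CommRing D] [IsDomain D] [Algebra.FiniteType ℤ D]
    (hD : ringKrullDim D ≤ 1) : GlobalField (FractionRing D) ∧ Finite (D ≃+* D) := by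
  have h1 : Ring.KrullDimLE 1 D := Ring.krullDimLE_iff.2 (by exact_mod_cast hD)
  have h2 := global_of_dim_le_one D (Ring.krullDimLE_one_iff_of_noZeroDivisors.1 h1)
  exact ⟨h2, finite_ringEquiv_domain D (finite_ringEquiv_of_global _ h2)⟩

variable {C : ∀ (G : Type) [Group G], Prop}

/-- **finitely generated nilpotent-by-abelian groups of dimension at most one** -/
theorem vsl_dim_one (hC : Closed C) (hQ : ∀ n : ℕ, C (Matrix.GeneralLinearGroup (Fin n) ℚ))
    (hF : ∀ (p : ℕ) [Fact p.Prime] (n : ℕ),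
      C (Matrix.GeneralLinearGroup (Fin n) (RatFunc (ZMod p))))
    {G : Type} [Group G] [hfg : Group.FG G] (hnil : Group.IsNilpotent (commutator G))
    {R A : Type} [CommRing R] [AddCommGroup A] [Module R A]
    (e : commutator (G ⧸ ⁅commutator G, commutator G⁆) ≃* Multiplicative A)
    (π : G ⧸ ⁅commutator G, commutator G⁆ → R)
    (hconj : ∀ (g : G ⧸ ⁅commutator G, commutator G⁆)
      (x y : commutator (G ⧸ ⁅commutator G, commutator G⁆)),
      (y : G ⧸ ⁅commutator G, commutator G⁆) = g * x * g⁻¹ → (e y).toAdd = π g • (e x).toAdd)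
    (hgen : Subring.closure (Set.range π) = ⊤)
    (hfaith : ∀ r : R, (∀ a : A, r • a = 0) → r = 0) (hdim : ringKrullDim R ≤ 1) :
    VSL (fun K _ => ∀ n : ℕ, C (Matrix.GeneralLinearGroup (Fin n) K)) (MulAut G) := by
  have h1 : Group.FG (G ⧸ ⁅commutator G, commutator G⁆) := QuotientGroup.fg _
  have h2 := ft_of_gen (commutator (G ⧸ ⁅commutator G, commutator G⁆)) e π hconj hgen hfaith
  refine vsl_nilp_ab (P := fun K _ => ∀ n : ℕ, C (Matrix.GeneralLinearGroup (Fin n) K)) hQ hnil
    e π hconj hgen hfaith ?_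
  intro P' _ _
  have h3 := ft_of_surj (Ideal.Quotient.mk P') Ideal.Quotient.mk_surjective
  obtain ⟨h4, h5⟩ := @dim_one_domain (R ⧸ P') _ _ h3 ((ringKrullDim_quotient_le P').trans hdim)
  exact ⟨fun n => global_mem hC hQ hF _ h4 n, h5⟩

end Pool.Agent.Helper84.FJ
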