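import Mathlib

/-!
# Solvable normal subgroups of groups of invertible elements of finite-dimensional algebras

`D S n`: the `n`-th derived subgroup of the subgroup `S`.  `SM S T`: some derived subgroup of `S` is
contained in `T`.  Main lemma (`quot`): if `ρ : G →* Eˣ` is a homomorphism to the units of a
finite-dimensional algebra and `S` is normal in `G` and solvable modulo the kernel, then there is
another such homomorphism `ρ'` whose kernel contains `S` and is solvable modulo the kernel of `ρ`.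
-/

set_option autoImplicit false

open scoped commutatorElement

namespace Pool.Agent.Helper84.FJ

section derived

variable {G : Type} [Group G]

/-- the derived subgroups of a subgroup -/
def D (S : Subgroup G) : ℕ → Subgroup G
  | 0 => S
  | n + 1 => ⁅D S n, D S n⁆

theorem D_zero (S : Subgroup G) : D S 0 = S := rfl

theorem D_succ (S : Subgroup G) (n : ℕ) : D S (n + 1) = ⁅D S n, D S n⁆ := rfl

theorem D_mono {S T : Subgroup G} (h : S ≤ T) (n : ℕ) : D S n ≤ D T n := by
  induction n with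
  | zero => exact h
  | succ n ih => exact Subgroup.commutator_mono ih ih

theorem comm_le_self (S : Subgroup G) : ⁅S, S⁆ ≤ S := by
  rw [Subgroup.commutator_le]
  intro a ha b hb
  exact mul_mem (mul_mem (mul_mem ha hb) (inv_mem ha)) (inv_mem hb)

theorem D_le (S : Subgroup G) (n : ℕ) : D S n ≤ S := by
  induction n with
  | zero => exact le_rfl
  | succ n ih => exact (comm_le_self _).trans ih

theorem D_add (S : Subgroup G) (m n : ℕ) : D S (m + n) = D (D S m) n := by
  induction n with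
  | zero => rfl
  | succ n ih =>
    rw [← Nat.add_assoc, D_succ, D_succ, ih]

instance D_normal (S : Subgroup G) [hS : S.Normal] (n : ℕ) : (D S n).Normal := by
  induction n with
  | zero => exact hS
  | succ n ih =>
    rw [D_succ]
    infer_instance

theorem D_map {H : Type} [Group H] (f : G →* H) (S : Subgroup G) (n : ℕ) :
    (D S n).map f = D (S.map f) n := by
  induction n with
  | zero => rfl
  | succ n ih => rw [D_succ, D_succ, Subgroup.map_commutator, ih]

theorem derivedSeries_eq (n : ℕ) : derivedSeries G n = D (⊤ : Subgroup G) n := by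
  induction n with
  | zero => rfl
  | succ n ih => rw [derivedSeries_succ, D_succ, ih]

/-- `S` is solvable modulo `T` -/
def SM (S T : Subgroup G) : Prop := ∃ n, D S n ≤ T

theorem SM.trans {S T U : Subgroup G} (h : SM S T) (h' : SM T U) : SM S U := by
  obtain ⟨m, hm⟩ := h
  obtain ⟨n, hn⟩ := h'
  refine ⟨m + n, ?_⟩
  rw [D_add]
  exact (D_mono hm n).trans hn

theorem SM.of_le {S T : Subgroup G} (h : S ≤ T) : SM S T := ⟨0, h⟩

theorem SM.mono {S S' T T' : Subgroup G} (h : SM S T) (h1 : S' ≤ S) (h2 : T ≤ T') : SM S' T' := by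
  obtain ⟨n, hn⟩ := h
  exact ⟨n, ((D_mono h1 n).trans hn).trans h2⟩

theorem SM.inf {S T S' T' : Subgroup G} (h : SM S T) (h' : SM S' T') : SM (S ⊓ S') (T ⊓ T') := by
  obtain ⟨m, hm⟩ := h
  obtain ⟨n, hn⟩ := h'
  refine ⟨m + n, le_inf ?_ ?_⟩
  · rw [D_add]
    exact (D_le _ _).trans ((D_mono inf_le_left m).trans hm)
  · rw [Nat.add_comm, D_add]
    exact (D_le _ _).trans ((D_mono inf_le_right n).trans hn)

theorem SM.of_comm {S T : Subgroup G} (h : ⁅S, S⁆ ≤ T) : SM S T := ⟨1, h⟩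

theorem SM.map {H : Type} [Group H] {S T : Subgroup G} (h : SM S T) (f : G →* H) :
    SM (S.map f) (T.map f) := by
  obtain ⟨n, hn⟩ := h
  refine ⟨n, ?_⟩
  rw [← D_map]
  exact Subgroup.map_mono hn

theorem SM.comap {H : Type} [Group H] {S T : Subgroup H} (h : SM S T) (f : G →* H) :
    SM (S.comap f) (T.comap f) := by
  obtain ⟨n, hn⟩ := h
  refine ⟨n, ?_⟩
  rw [← Subgroup.map_le_iff_le_comap, D_map]
  exact (D_mono (Subgroup.map_comap_le _ _) n).trans hn

theorem solvable_iff (S : Subgroup G) : Group.IsSolvable S ↔ SM S ⊥ := by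
  have h1 : ∀ n, (derivedSeries S n).map S.subtype = D S n := by
    intro n
    rw [derivedSeries_eq, D_map, ← MonoidHom.range_eq_map, Subgroup.range_subtype]
  constructor
  · intro h
    obtain ⟨n, hn⟩ := h.solvable
    exact ⟨n, by rw [← h1, hn, Subgroup.map_bot]⟩
  · rintro ⟨n, hn⟩
    refine ⟨⟨n, ?_⟩⟩
    have h2 := h1 n
    rw [le_bot_iff.1 hn] at h2
    exact (Subgroup.map_eq_bot_iff_of_injective _ S.subtype_injective).1 h2

end derived

section conj

variable {G K E : Type} [Group G] [Field K] [Ring E] [Algebra K E]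

/-- the centralizer of the image of a subgroup -/
def cen (K : Type) [Field K] [Algebra K E] (ρ : G →* Eˣ) (A : Subgroup G) : Subalgebra K E :=
  Subalgebra.centralizer K {x : E | ∃ a ∈ A, (ρ a : E) = x}

theorem mem_cen (ρ : G →* Eˣ) (A : Subgroup G) (b : E) :
    b ∈ cen K ρ A ↔ ∀ a ∈ A, (ρ a : E) * b = b * ρ a := by
  rw [cen, Subalgebra.mem_centralizer_iff]
  constructor
  · intro h a ha
    exact h _ ⟨a, ha, rfl⟩
  · rintro h _ ⟨a, ha, rfl⟩
    exact h a ha

theorem conj_mem_cen (ρ : G →* Eˣ) (A : Subgroup G) [hA : A.Normal] (g : G) {b : E}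
    (hb : b ∈ cen K ρ A) : (ρ g : E) * b * (ρ g⁻¹ : Eˣ) ∈ cen K ρ A := by
  rw [mem_cen] at hb ⊢
  intro a ha
  have h1 := hb _ (hA.conj_mem a ha g⁻¹)
  have h2 : a * g = g * (g⁻¹ * a * g⁻¹⁻¹) := by group
  have h3 : (g⁻¹ * a * g⁻¹⁻¹) * g⁻¹ = g⁻¹ * a := by group
  calc (ρ a : E) * ((ρ g : E) * b * (ρ g⁻¹ : Eˣ))
      = ((ρ a * ρ g : Eˣ) : E) * b * (ρ g⁻¹ : Eˣ) := by
        rw [Units.val_mul]
        simp only [mul_assoc]
    _ = ((ρ g * ρ (g⁻¹ * a * g⁻¹⁻¹) : Eˣ) : E) * b * (ρ g⁻¹ : Eˣ) := by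
        rw [← map_mul, ← map_mul, h2]
    _ = (ρ g : E) * ((ρ (g⁻¹ * a * g⁻¹⁻¹) : E) * b) * (ρ g⁻¹ : Eˣ) := by
        rw [Units.val_mul]
        simp only [mul_assoc]
    _ = (ρ g : E) * b * ((ρ (g⁻¹ * a * g⁻¹⁻¹) * ρ g⁻¹ : Eˣ) : E) := by
        rw [h1, Units.val_mul]
        simp only [mul_assoc]
    _ = (ρ g : E) * b * ((ρ g⁻¹ * ρ a : Eˣ) : E) := by
        rw [← map_mul, ← map_mul, h3]
    _ = (ρ g : E) * b * (ρ g⁻¹ : Eˣ) * ρ a := by
        rw [Units.val_mul]
        simp only [mul_assoc]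

/-- conjugation on the centralizer -/
def cenRep (K : Type) [Field K] [Algebra K E] (ρ : G →* Eˣ) (A : Subgroup G) [A.Normal] :
    G →* (Module.End K (cen K ρ A))ˣ :=
  MonoidHom.toHomUnits
    { toFun := fun g =>
        { toFun := fun b => ⟨(ρ g : E) * b * (ρ g⁻¹ : Eˣ), conj_mem_cen ρ A g b.2⟩
          map_add' := fun a b => Subtype.ext (by simp [mul_add, add_mul])
          map_smul' := fun c b => Subtype.ext (by simp) }
      map_one' := by
        ext b
        simp
      map_mul' := fun g h => by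
        ext b
        simp [mul_assoc] }

theorem cenRep_apply (ρ : G →* Eˣ) (A : Subgroup G) [A.Normal] (g : G) (b : cen K ρ A) :
    (((cenRep K ρ A g : (Module.End K (cen K ρ A))ˣ) : Module.End K (cen K ρ A)) b : E) =
      (ρ g : E) * b * (ρ g⁻¹ : Eˣ) := rfl

theorem mem_ker_cenRep (ρ : G →* Eˣ) (A : Subgroup G) [A.Normal] (g : G) :
    g ∈ (cenRep K ρ A).ker ↔ ∀ b ∈ cen K ρ A, (ρ g : E) * b = b * ρ g := by
  rw [MonoidHom.mem_ker]
  have h0 : ((ρ g⁻¹ : Eˣ) : E) * ρ g = 1 := by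
    rw [← Units.val_mul, ← map_mul, inv_mul_cancel, map_one, Units.val_one]
  have h0' : ((ρ g : Eˣ) : E) * ρ g⁻¹ = 1 := by
    rw [← Units.val_mul, ← map_mul, mul_inv_cancel, map_one, Units.val_one]
  constructor
  · intro h b hb
    have h1 := cenRep_apply (K := K) ρ A g ⟨b, hb⟩
    rw [h] at h1
    have h2 : b = (ρ g : E) * b * (ρ g⁻¹ : Eˣ) := h1
    calc (ρ g : E) * b = ((ρ g : E) * b * (ρ g⁻¹ : Eˣ)) * ρ g := by
          rw [mul_assoc ((ρ g : E) * b), h0, mul_one]
      _ = b * ρ g := by rw [← h2]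
  · intro h
    apply Units.ext
    ext b
    rw [cenRep_apply, h _ b.2, mul_assoc, h0', mul_one]
    rfl

/-- one step -/
theorem cen_step (ρ : G →* Eˣ) (A : Subgroup G) [A.Normal] (hA : ⁅A, A⁆ ≤ ρ.ker) :
    A ≤ (cenRep K ρ A).ker ∧ ⁅(cenRep K ρ A).ker, (cenRep K ρ A).ker⁆ ≤ ρ.ker := by
  have hcomm : ∀ a b : G, ⁅a, b⁆ ∈ ρ.ker ↔ (ρ a : E) * ρ b = ρ b * ρ a := by
    intro a b
    rw [MonoidHom.mem_ker, map_commutatorElement, commutatorElement_eq_one_iff_mul_comm,
      ← Units.val_inj, Units.val_mul, Units.val_mul]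
  constructor
  · intro a ha
    rw [mem_ker_cenRep]
    intro b hb
    exact (mem_cen ρ A b).1 hb a ha
  · rw [Subgroup.commutator_le]
    intro g hg h hh
    rw [hcomm]
    rw [mem_ker_cenRep] at hg hh
    have h1 : ∀ a ∈ A, (ρ a : E) ∈ cen K ρ A := by
      intro a ha
      rw [mem_cen]
      intro a' ha'
      exact (hcomm _ _).1 (hA (Subgroup.commutator_mem_commutator ha' ha))
    have h2 : (ρ g : E) ∈ cen K ρ A := by
      rw [mem_cen]
      intro a ha
      exact (hg _ (h1 a ha)).symm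
    exact (hh _ h2).symm

end conj

/-- **solvable normal subgroups** -/
theorem quot {G : Type} [Group G] {K : Type} [Field K] (S : Subgroup G) [S.Normal] (d : ℕ) :
    ∀ (E : Type) [Ring E] [Algebra K E] [Module.Finite K E] (ρ : G →* Eˣ), D S d ≤ ρ.ker →
    ∃ (E' : Type) (_ : Ring E') (_ : Algebra K E') (_ : Module.Finite K E') (ρ' : G →* E'ˣ),
      S ≤ ρ'.ker ∧ SM ρ'.ker ρ.ker := by
  induction d with
  | zero =>
    intro E _ _ _ ρ h
    exact ⟨E, inferInstance, inferInstance, inferInstance, ρ, h, SM.of_le le_rfl⟩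
  | succ d ih =>
    intro E _ _ _ ρ h
    obtain ⟨h1, h2⟩ := cen_step (K := K) ρ (D S d) h
    obtain ⟨E', i1, i2, i3, ρ', h3, h4⟩ := ih (Module.End K (cen K ρ (D S d)))
      (cenRep K ρ (D S d)) h1
    exact ⟨E', i1, i2, i3, ρ', h3, h4.trans (SM.of_comm h2)⟩

end Pool.Agent.Helper84.FJ
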