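import Pool.Agent.Helper84.FJ.A

/-!
# Virtually solvable-by-linear groups
-/

set_option autoImplicit false

open scoped commutatorElement

namespace Pool.Agent.Helper84.FJ

section LK

/-- kernels of homomorphisms to finite products of groups of units of finite-dimensional algebras over
fields with the property `P` -/
inductive LK (P : ∀ (K : Type) [Field K], Prop) {G : Type} [Group G] : Subgroup G → Prop
  | top : LK P ⊤
  | rep (K : Type) [Field K] (hK : P K) (E : Type) [Ring E] [Algebra K E] [Module.Finite K E]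
      (ρ : G →* Eˣ) : LK P ρ.ker
  | inf (N M : Subgroup G) : LK P N → LK P M → LK P (N ⊓ M)

variable {P : ∀ (K : Type) [Field K], Prop} {G H : Type} [Group G] [Group H]

theorem LK.normal {N : Subgroup G} (h : LK P N) : N.Normal := by
  induction h with
  | top => infer_instance
  | rep K hK E ρ => infer_instance
  | inf N M _ _ ih1 ih2 => infer_instance

theorem LK.comap {N : Subgroup H} (h : LK P N) (f : G →* H) : LK P (N.comap f) := by
  induction h with
  | top => exact LK.top
  | rep K hK E ρ => exact LK.rep K hK E (ρ.comp f)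
  | inf N M _ _ ih1 ih2 => exact LK.inf _ _ ih1 ih2

theorem LK.quot {N : Subgroup G} (h : LK P N) (S : Subgroup G) [S.Normal] (hS : SM S N) :
    ∃ N', LK P N' ∧ S ≤ N' ∧ SM N' N := by
  induction h with
  | top => exact ⟨⊤, LK.top, le_top, SM.of_le le_rfl⟩
  | rep K hK E ρ =>
    obtain ⟨d, hd⟩ := hS
    obtain ⟨E', i1, i2, i3, ρ', h1, h2⟩ := FJ.quot (K := K) S d E ρ hd
    exact ⟨ρ'.ker, LK.rep K hK E' ρ', h1, h2⟩
  | inf N M _ _ ih1 ih2 =>
    obtain ⟨N', h1, h2, h3⟩ := ih1 (hS.mono le_rfl inf_le_left)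
    obtain ⟨M', h4, h5, h6⟩ := ih2 (hS.mono le_rfl inf_le_right)
    exact ⟨N' ⊓ M', LK.inf _ _ h1 h4, le_inf h2 h5, h3.inf h6⟩

theorem LK.descend {N : Subgroup G} (h : LK P N) (f : G →* H) (hf : Function.Surjective f)
    (hN : f.ker ≤ N) : LK P (N.map f) := by
  induction h with
  | top =>
    rw [← MonoidHom.range_eq_map, MonoidHom.range_eq_top.2 hf]
    exact LK.top
  | rep K hK E ρ =>
    let ρ' : H →* Eˣ := f.liftOfSurjective hf ⟨ρ, hN⟩
    have h1 : ∀ x, ρ' (f x) = ρ x := fun x => by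
      exact MonoidHom.liftOfRightInverse_comp_apply f _ _ ⟨ρ, hN⟩ x
    have h2 : ρ.ker.map f = ρ'.ker := by
      ext y
      obtain ⟨x, rfl⟩ := hf y
      rw [MonoidHom.mem_ker, h1]
      constructor
      · rintro ⟨z, hz, hzx⟩
        rw [← h1, ← hzx, h1]
        exact hz
      · intro hx
        exact ⟨x, hx, rfl⟩
    rw [h2]
    exact LK.rep K hK E ρ'
  | inf N M _ _ ih1 ih2 =>
    have h1 := ih1 (hN.trans inf_le_left)
    have h2 := ih2 (hN.trans inf_le_right)
    have h3 : (N ⊓ M).map f = N.map f ⊓ M.map f := by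
      apply le_antisymm (Subgroup.map_inf_le _ _ _)
      rintro _ ⟨⟨x, hx, rfl⟩, ⟨y, hy, hxy⟩⟩
      refine ⟨x, ⟨hx, ?_⟩, rfl⟩
      have h4 : x * y⁻¹ ∈ f.ker := by
        rw [MonoidHom.mem_ker, map_mul, map_inv, hxy, mul_inv_cancel]
      have h5 : x = (x * y⁻¹) * y := by group
      rw [h5]
      exact mul_mem ((hN.trans inf_le_right) h4) hy
    rw [h3]
    exact LK.inf _ _ h1 h2

end LK

section VS

variable {G H : Type} [Group G] [Group H]

theorem fi_comap (T : Subgroup H) (hT : T.FiniteIndex) (f : G →* H) : (T.comap f).FiniteIndex := by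
  refine ⟨?_⟩
  rw [Subgroup.index_comap]
  exact (Subgroup.instFiniteIndex_subgroupOf T f.range).index_ne_zero

/-- `S` has a solvable subgroup of finite index -/
def VS (S : Type) [Group S] : Prop := ∃ T : Subgroup S, T.FiniteIndex ∧ SM T ⊥

theorem SM.sup {U : Subgroup G} (h : SM U ⊥) (V : Subgroup G) [V.Normal] : SM (U ⊔ V) V := by
  have h1 := (h.map (QuotientGroup.mk' V)).comap (QuotientGroup.mk' V)
  refine h1.mono ?_ ?_
  · refine sup_le (Subgroup.le_comap_map _ _) ?_
    intro x hx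
    rw [Subgroup.mem_comap]
    have h2 : (QuotientGroup.mk' V) x = 1 := (QuotientGroup.eq_one_iff x).2 hx
    rw [h2]
    exact one_mem _
  · intro x hx
    rw [Subgroup.map_bot, Subgroup.mem_comap, Subgroup.mem_bot] at hx
    exact (QuotientGroup.eq_one_iff x).1 hx

theorem VS.exists_char (h : VS G) :
    ∃ R : Subgroup G, R.Characteristic ∧ R.FiniteIndex ∧ SM R ⊥ := by
  classical
  obtain ⟨T, hT1, hT2⟩ := h
  have hex : ∃ n : ℕ, ∃ R : Subgroup G, R.Normal ∧ R.FiniteIndex ∧ SM R ⊥ ∧ R.index = n :=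
    ⟨_, T.normalCore, inferInstance, inferInstance, hT2.mono T.normalCore_le le_rfl, rfl⟩
  obtain ⟨R, h1, h2, h3, h4⟩ := Nat.find_spec hex
  refine ⟨R, ?_, h2, h3⟩
  rw [Subgroup.characteristic_iff_comap_le]
  intro φ
  have h5 : (R.comap φ.toMonoidHom).Normal := inferInstance
  have h6 : SM (R.comap φ.toMonoidHom) ⊥ := by
    refine (h3.comap φ.toMonoidHom).mono le_rfl ?_
    intro x hx
    rw [Subgroup.mem_comap, Subgroup.mem_bot] at hx
    rw [Subgroup.mem_bot]
    exact (map_eq_one_iff φ φ.injective).1 hx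
  have h7 : (R ⊔ R.comap φ.toMonoidHom).FiniteIndex := Subgroup.finiteIndex_of_le le_sup_left
  have h8 : SM (R ⊔ R.comap φ.toMonoidHom) ⊥ := (h3.sup _).trans h6
  have h9 : R.index ≤ (R ⊔ R.comap φ.toMonoidHom).index := by
    have h9' : (R ⊔ R.comap φ.toMonoidHom).Normal := Subgroup.sup_normal _ _
    exact h4.le.trans (Nat.find_min' hex ⟨R ⊔ R.comap φ.toMonoidHom, h9', h7, h8, rfl⟩)
  by_contra hne
  have h10 : R < R ⊔ R.comap φ.toMonoidHom := by
    refine lt_of_le_of_ne le_sup_left (fun h => hne ?_)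
    exact le_trans (le_sup_right (a := R)) h.ge
  have h11 := Subgroup.index_strictAnti h10
  omega

/-- a normal virtually solvable subgroup has a solvable subgroup of finite index which is normal in
the whole group -/
theorem exists_core (S : Subgroup G) [S.Normal] (h : VS S) :
    ∃ R : Subgroup G, R.Normal ∧ R ≤ S ∧ R.relIndex S ≠ 0 ∧ SM R ⊥ := by
  obtain ⟨R, h1, h2, h3⟩ := h.exists_char
  refine ⟨R.map S.subtype, inferInstance, ?_, ?_, ?_⟩
  · rintro _ ⟨x, -, rfl⟩
    exact x.2
  · rw [Subgroup.relIndex, Subgroup.subgroupOf, Subgroup.comap_map_eq_self_of_injective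
      S.subtype_injective]
    exact h2.index_ne_zero
  · have := h3.map S.subtype
    rwa [Subgroup.map_bot] at this

/-- a subgroup of finite index which meets the virtually solvable normal subgroup `S` in a solvable
subgroup -/
theorem exists_fin (S : Subgroup G) [S.Normal] (h : VS S) :
    ∃ Z : Subgroup G, Z.Normal ∧ Z.FiniteIndex ∧ SM (Z ⊓ S) ⊥ := by
  obtain ⟨R, h1, h2, h3, h4⟩ := exists_core S h
  let q := QuotientGroup.mk' R
  have hSn : (S.map q).Normal := Subgroup.Normal.map inferInstance _ (QuotientGroup.mk'_surjective R)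
  have hfin : Finite (S.map q) := by
    have h5 : (R.subgroupOf S).FiniteIndex := ⟨h3⟩
    have h6 : Finite (S ⧸ R.subgroupOf S) := Subgroup.finite_quotient_of_finiteIndex
    refine Finite.of_surjective (QuotientGroup.lift (R.subgroupOf S) (q.subgroupMap S) ?_) ?_
    · intro x hx
      rw [MonoidHom.mem_ker]
      apply Subtype.ext
      exact (QuotientGroup.eq_one_iff (x : G)).2 hx
    · intro y
      obtain ⟨x, hx⟩ := q.subgroupMap_surjective S y
      exact ⟨QuotientGroup.mk x, hx⟩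
  let θ : (G ⧸ R) →* MulAut (S.map q) := MulAut.conjNormal
  have hθ : θ.ker.FiniteIndex := by
    have : Finite (MulAut (S.map q)) := by
      exact Finite.of_injective (fun f : MulAut (S.map q) => (f : S.map q → S.map q))
        (fun a b h => DFunLike.coe_injective h)
    exact Subgroup.finiteIndex_ker θ
  refine ⟨θ.ker.comap q, inferInstance, ?_, ?_⟩
  · exact fi_comap _ hθ q
  · refine SM.trans (T := R) (SM.of_comm ?_) h4
    rw [Subgroup.commutator_le]
    rintro a ⟨ha, -⟩ b ⟨-, hb⟩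
    have h5 : θ (q a) = 1 := ha
    have h6 : ((θ (q a) ⟨q b, b, hb, rfl⟩ : S.map q) : G ⧸ R) = q a * q b * (q a)⁻¹ :=
      MulAut.conjNormal_apply _ _
    rw [h5] at h6
    have h7 : q b = q a * q b * (q a)⁻¹ := h6
    have h8 : q ⁅a, b⁆ = 1 := by
      rw [map_commutatorElement, commutatorElement_def]
      rw [← h7, mul_inv_cancel]
    exact (QuotientGroup.eq_one_iff _).1 h8

theorem VS.of_injective (f : G →* H) (hf : Function.Injective f) (h : VS H) : VS G := by
  obtain ⟨T, h1, h2⟩ := h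
  refine ⟨T.comap f, fi_comap T h1 f, (h2.comap f).mono le_rfl ?_⟩
  intro x hx
  rw [Subgroup.mem_comap, Subgroup.mem_bot] at hx
  rw [Subgroup.mem_bot]
  exact (map_eq_one_iff f hf).1 hx

theorem VS.of_surjective (f : G →* H) (hf : Function.Surjective f) (h : VS G) : VS H := by
  obtain ⟨T, h1, h2⟩ := h
  refine ⟨T.map f, ?_, ?_⟩
  · exact ⟨fun h3 => h1.index_ne_zero (Nat.eq_zero_of_zero_dvd (h3 ▸ Subgroup.index_map_dvd T hf))⟩
  · have := h2.map f
    rwa [Subgroup.map_bot] at this

end VS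

section SL

variable {P : ∀ (K : Type) [Field K], Prop} {G H : Type} [Group G] [Group H]

/-- solvable-by-linear groups -/
def SL (P : ∀ (K : Type) [Field K], Prop) (G : Type) [Group G] : Prop :=
  ∃ N : Subgroup G, LK P N ∧ SM N ⊥

/-- virtually solvable-by-linear groups -/
def VSL (P : ∀ (K : Type) [Field K], Prop) (G : Type) [Group G] : Prop :=
  ∃ A : Subgroup G, A.FiniteIndex ∧ SL P A

theorem SL.vsl (h : SL P G) : VSL P G := by
  refine ⟨⊤, inferInstance, ?_⟩
  obtain ⟨N, h1, h2⟩ := h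
  refine ⟨N.comap (⊤ : Subgroup G).subtype, h1.comap _, (h2.comap _).mono le_rfl ?_⟩
  intro x hx
  rw [Subgroup.mem_comap, Subgroup.mem_bot] at hx
  exact Subtype.ext hx

/-- solvable kernels -/
theorem SL.ext (f : G →* H) (hf : SM f.ker ⊥) (h : SL P H) : SL P G := by
  obtain ⟨N, h1, h2⟩ := h
  refine ⟨N.comap f, h1.comap f, SM.trans (h2.comap f) ?_⟩
  rw [← MonoidHom.comap_bot] at hf
  exact hf

theorem SL.quot (f : G →* H) (hf : Function.Surjective f) (hk : SM f.ker ⊥) (h : SL P G) :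
    SL P H := by
  obtain ⟨N, h1, h2⟩ := h
  obtain ⟨N', h3, h4, h5⟩ := h1.quot f.ker (hk.mono le_rfl bot_le)
  refine ⟨N'.map f, h3.descend f hf h4, ?_⟩
  have := (h5.trans h2).map f
  rwa [Subgroup.map_bot] at this

theorem VSL.of_finiteIndex (A : Subgroup G) (hA : A.FiniteIndex) (h : VSL P A) : VSL P G := by
  obtain ⟨B, h1, h2⟩ := h
  refine ⟨B.map A.subtype, ?_, ?_⟩
  · refine ⟨?_⟩
    have h3 : (B.map A.subtype).relIndex A * A.index = (B.map A.subtype).index :=
      Subgroup.relIndex_mul_index (by rintro _ ⟨x, -, rfl⟩; exact x.2)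
    rw [← h3, Subgroup.relIndex, Subgroup.subgroupOf, Subgroup.comap_map_eq_self_of_injective
      A.subtype_injective]
    exact mul_ne_zero h1.index_ne_zero hA.index_ne_zero
  · have e : B ≃* B.map A.subtype := B.equivMapOfInjective A.subtype A.subtype_injective
    refine SL.ext e.symm.toMonoidHom ?_ h2
    rw [(MonoidHom.ker_eq_bot_iff _).2 e.symm.injective]
    exact SM.of_le le_rfl

/-- virtually solvable kernels -/
theorem VSL.ext (f : G →* H) (hf : VS f.ker) (h : VSL P H) : VSL P G := by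
  obtain ⟨B, h1, h2⟩ := h
  obtain ⟨Z, h3, h4, h5⟩ := exists_fin f.ker hf
  have h1' := fi_comap B h1 f
  refine ⟨Z ⊓ B.comap f, inferInstance, ?_⟩
  let g : (Z ⊓ B.comap f : Subgroup G) →* B :=
    (f.comp (Subgroup.subtype _)).codRestrict B (fun x => x.2.2)
  refine SL.ext g ?_ h2
  have h6 : g.ker ≤ (Z ⊓ f.ker).comap (Subgroup.subtype _) := by
    intro x hx
    exact ⟨x.2.1, congrArg Subtype.val hx⟩
  refine (h5.comap (Subgroup.subtype _)).mono h6 ?_
  intro x hx
  rw [Subgroup.mem_comap, Subgroup.mem_bot] at hx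
  exact Subtype.ext hx

/-- quotients by virtually solvable normal subgroups -/
theorem VSL.quot (f : G →* H) (hf : Function.Surjective f) (hk : VS f.ker) (h : VSL P G) :
    VSL P H := by
  obtain ⟨A, h1, h2⟩ := h
  obtain ⟨Z, h3, h4, h5⟩ := exists_fin f.ker hk
  refine ⟨(Z ⊓ A).map f, ?_, ?_⟩
  · have h6 : (Z ⊓ A).FiniteIndex := inferInstance
    exact ⟨fun h7 => h6.index_ne_zero
      (Nat.eq_zero_of_zero_dvd (h7 ▸ Subgroup.index_map_dvd (Z ⊓ A) hf))⟩
  · have h6 : SL P (Z ⊓ A : Subgroup G) := by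
      refine SL.ext (Subgroup.inclusion (inf_le_right : Z ⊓ A ≤ A)) ?_ h2
      rw [(MonoidHom.ker_eq_bot_iff _).2 (Subgroup.inclusion_injective _)]
      exact SM.of_le le_rfl
    refine SL.quot (f.subgroupMap (Z ⊓ A)) (f.subgroupMap_surjective _) ?_ h6
    refine (h5.comap (Subgroup.subtype _)).mono (T := (⊥ : Subgroup G).comap _) ?_ ?_
    · intro x hx
      exact ⟨x.2.1, congrArg Subtype.val hx⟩
    · intro x hx
      rw [Subgroup.mem_comap, Subgroup.mem_bot] at hx
      exact Subtype.ext hx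

theorem VS.of_subsingleton (S : Type) [Group S] [Subsingleton S] : VS S :=
  ⟨⊤, inferInstance, SM.of_le (fun x _ => Subsingleton.elim x 1)⟩

theorem VS.ker_of_injective (f : G →* H) (hf : Function.Injective f) : VS f.ker := by
  have : Subsingleton f.ker := by
    rw [(MonoidHom.ker_eq_bot_iff _).2 hf]
    infer_instance
  exact VS.of_subsingleton _

theorem VSL.of_injective (f : G →* H) (hf : Function.Injective f) (h : VSL P H) : VSL P G :=
  VSL.ext f (VS.ker_of_injective f hf) h

theorem VSL.prod (hG : VSL P G) (hH : VSL P H) : VSL P (G × H) := by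
  obtain ⟨A, h1, N, h2, h3⟩ := hG
  obtain ⟨B, h4, M, h5, h6⟩ := hH
  refine ⟨A.prod B, ?_, ?_⟩
  · have h7 := fi_comap A h1 (MonoidHom.fst G H)
    have h8 := fi_comap B h4 (MonoidHom.snd G H)
    have h9 : A.prod B = A.comap (MonoidHom.fst G H) ⊓ B.comap (MonoidHom.snd G H) := rfl
    rw [h9]
    infer_instance
  · let f : A.prod B →* A := ((MonoidHom.fst G H).comp (Subgroup.subtype _)).codRestrict A
      (fun x => x.2.1)
    let g : A.prod B →* B := ((MonoidHom.snd G H).comp (Subgroup.subtype _)).codRestrict B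
      (fun x => x.2.2)
    refine ⟨N.comap f ⊓ M.comap g, LK.inf _ _ (h2.comap f) (h5.comap g), ?_⟩
    refine ((h3.comap f).inf (h6.comap g)).mono le_rfl ?_
    intro x hx
    rw [Subgroup.mem_inf, Subgroup.mem_comap, Subgroup.mem_comap, Subgroup.mem_bot,
      Subgroup.mem_bot] at hx
    obtain ⟨hx1, hx2⟩ := hx
    rw [Subgroup.mem_bot]
    apply Subtype.ext
    apply Prod.ext
    · exact congrArg Subtype.val hx1
    · exact congrArg Subtype.val hx2

theorem SL.units (K : Type) [Field K] (hK : P K) (E : Type) [Ring E] [Algebra K E]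
    [Module.Finite K E] : SL P Eˣ := by
  refine ⟨(MonoidHom.id Eˣ).ker, LK.rep K hK E _, SM.of_le ?_⟩
  rw [(MonoidHom.ker_eq_bot_iff _).2 Function.injective_id]

theorem VSL.of_vs (h : VS G) : VSL P G := by
  obtain ⟨T, h1, h2⟩ := h
  exact ⟨T, h1, ⊤, LK.top, by
    refine (h2.comap T.subtype).mono (T := (⊥ : Subgroup G).comap T.subtype) ?_ ?_
    · intro x _
      exact x.2
    · intro x hx
      rw [Subgroup.mem_comap, Subgroup.mem_bot] at hx
      exact Subtype.ext hx⟩

/-- two kernels -/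
theorem VSL.inf (M N : Subgroup G) [M.Normal] [N.Normal] (hM : VSL P (G ⧸ M))
    (hN : VSL P (G ⧸ N)) (h : SM (M ⊓ N) ⊥) : VSL P G := by
  refine VSL.ext ((QuotientGroup.mk' M).prod (QuotientGroup.mk' N)) ?_ (hM.prod hN)
  refine ⟨⊤, inferInstance, ?_⟩
  refine (h.comap (Subgroup.subtype _)).mono (T := (⊥ : Subgroup G).comap _) ?_ ?_
  · intro x _
    rw [Subgroup.mem_comap]
    have h1 := x.2
    rw [MonoidHom.mem_ker, MonoidHom.prod_apply, Prod.mk_eq_one] at h1
    exact ⟨(QuotientGroup.eq_one_iff _).1 h1.1, (QuotientGroup.eq_one_iff _).1 h1.2⟩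
  · intro x hx
    rw [Subgroup.mem_comap, Subgroup.mem_bot] at hx
    exact Subtype.ext hx

end SL

end Pool.Agent.Helper84.FJ
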