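import Pool.Agent.Helper84.FJ.B
import Pool.Graph.R_pool_sql_team_seeded_2aa45f1a.Q91.FJ.Laws

/-!
# Virtually solvable-by-linear groups are in the class
-/

set_option autoImplicit false

open scoped commutatorElement

namespace Pool.Agent.Helper84.FJ

open Pool.Agent.Y462.SS Pool.Agent.Q152.WP Pool.Agent.Q91.FJ

/-- all linear groups over fields with the property `P` are in the class -/
def HasLinear (P : ∀ (K : Type) [Field K], Prop) (C : ∀ (G : Type) [Group G], Prop) : Prop :=
  ∀ (K : Type) [Field K], P K → ∀ n : ℕ, C (Matrix.GeneralLinearGroup (Fin n) K)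

variable {C : ∀ (G : Type) [Group G], Prop} {P : ∀ (K : Type) [Field K], Prop}

theorem units_mem (hC : Closed C) (hGL : HasLinear P C) (K : Type) [Field K] (hK : P K) (E : Type)
    [Ring E] [Algebra K E] [Module.Finite K E] : C Eˣ := by
  let b : Module.Basis (Fin (Module.finrank K E)) K E := Module.finBasis K E
  let f : E →* Matrix (Fin (Module.finrank K E)) (Fin (Module.finrank K E)) K :=
    ((LinearMap.toMatrixAlgEquiv b).toAlgHom.comp (Algebra.lmul K E) :
      E →ₐ[K] Matrix (Fin (Module.finrank K E)) (Fin (Module.finrank K E)) K)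
  have hf : Function.Injective f := by
    intro x y hxy
    have h1 : Algebra.lmul K E x = Algebra.lmul K E y :=
      (LinearMap.toMatrixAlgEquiv b).injective hxy
    have h2 := LinearMap.congr_fun h1 1
    simpa using h2
  exact hC.of_injective _ _ (Units.map f) (Units.map_injective hf) (hGL K hK _)

theorem LK.mem (hC : Closed C) (hGL : HasLinear P C) {G : Type} [Group G] {N : Subgroup G}
    (h : LK P N) : ∀ [N.Normal], C (G ⧸ N) := by
  induction h with
  | top =>
    intro _
    have : Subsingleton (G ⧸ (⊤ : Subgroup G)) := QuotientGroup.subsingleton_quotient_top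
    exact Pool.Agent.Y812.SS.C_subsingleton hC _
  | rep K hK E ρ =>
    intro _
    exact quot_ker hC ρ (units_mem hC hGL K hK E)
  | inf N M h1 h2 ih1 ih2 =>
    intro _
    have := h1.normal
    have := h2.normal
    exact quot_inf hC N M ih1 ih2

theorem VSL.mem (hC : Closed C) (hE : ExtClosed C) (hS : HasSolvable C) (hGL : HasLinear P C)
    {G : Type} [Group G] (h : VSL P G) : C G := by
  obtain ⟨A, h1, N, h2, h3⟩ := h
  refine hC.finiteIndex G A h1 ?_
  have := h2.normal
  refine solvable_kernel hE hS (QuotientGroup.mk' N) (QuotientGroup.mk'_surjective N)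
    (h2.mem hC hGL) ?_
  rw [QuotientGroup.ker_mk', solvable_iff]
  exact h3

/-- all finitely generated subgroups are virtually solvable-by-linear -/
def LV (P : ∀ (K : Type) [Field K], Prop) (G : Type) [Group G] : Prop :=
  ∀ L : Subgroup G, L.FG → VSL P L

theorem LV.mem (hC : Closed C) (hE : ExtClosed C) (hS : HasSolvable C) (hGL : HasLinear P C)
    {G : Type} [Group G] (h : LV P G) : C G := by
  classical
  refine Pool.Agent.Y430.SS.of_directed hC G (Finset G) (fun i j => ?_)
    (fun s => Subgroup.closure (s : Set G))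
    (fun s t h => Subgroup.closure_mono (by exact_mod_cast h))
    (fun g => ⟨{g}, Subgroup.subset_closure (by simp)⟩)
    (fun s => (h _ ⟨s, rfl⟩).mem hC hE hS hGL)
  exact ⟨i ∪ j, Finset.subset_union_left, Finset.subset_union_right⟩

variable {G H : Type} [Group G] [Group H]

theorem fg_map (f : G →* H) {L : Subgroup G} (h : L.FG) : (L.map f).FG := by
  classical
  obtain ⟨s, rfl⟩ := h
  exact ⟨s.image f, by rw [MonoidHom.map_closure, Finset.coe_image]⟩

theorem LV.of_vsl (h : VSL P G) : LV P G := fun L _ =>
  VSL.of_injective L.subtype L.subtype_injective h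

theorem LV.of_injective (f : G →* H) (hf : Function.Injective f) (h : LV P H) : LV P G := by
  intro L hL
  have h1 := h (L.map f) (fg_map f hL)
  exact VSL.of_injective (L.equivMapOfInjective f hf).toMonoidHom
    (L.equivMapOfInjective f hf).injective h1

theorem LV.ext (f : G →* H) (hf : ∀ L : Subgroup G, L.FG → VS (f.ker ⊓ L : Subgroup G))
    (h : LV P H) : LV P G := by
  intro L hL
  have h1 := h (L.map f) (fg_map f hL)
  refine VSL.ext (f.subgroupMap L) ?_ h1
  have h2 := hf L hL
  refine VS.of_injective (G := (f.subgroupMap L).ker) (H := (f.ker ⊓ L : Subgroup G))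
    ((L.subtype.comp (Subgroup.subtype _)).codRestrict _ (fun x => ?_)) ?_ h2
  · refine ⟨?_, x.1.2⟩
    have h3 := x.2
    rw [MonoidHom.mem_ker] at h3
    exact congrArg Subtype.val h3
  · intro x y hxy
    have h3 := congrArg Subtype.val hxy
    exact Subtype.ext (Subtype.ext h3)

theorem LV.quot (f : G →* H) (hf : Function.Surjective f)
    (hk : ∀ L : Subgroup G, L.FG → VS (f.ker ⊓ L : Subgroup G)) (h : LV P G) : LV P H := by
  classical
  intro L hL
  obtain ⟨s, rfl⟩ := hL
  obtain ⟨t, ht⟩ : ∃ t : Finset G, t.image f = s := by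
    refine ⟨s.image (Function.surjInv hf), ?_⟩
    rw [Finset.image_image]
    have h0 : (f : G → H) ∘ Function.surjInv hf = id := funext (Function.surjInv_eq hf)
    rw [h0, Finset.image_id]
  have h1 : (Subgroup.closure (t : Set G)).map f = Subgroup.closure (s : Set H) := by
    rw [MonoidHom.map_closure, ← ht, Finset.coe_image]
  have h2 : (Subgroup.closure (t : Set G)).FG := ⟨t, rfl⟩
  rw [← h1]
  refine VSL.quot (f.subgroupMap _) (f.subgroupMap_surjective _) ?_ (h _ h2)
  refine VS.of_injective (G := (f.subgroupMap (Subgroup.closure (t : Set G))).ker)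
    (H := (f.ker ⊓ Subgroup.closure (t : Set G) : Subgroup G))
    (((Subgroup.subtype _).comp (Subgroup.subtype _)).codRestrict _ (fun x => ?_)) ?_ (hk _ h2)
  · refine ⟨?_, x.1.2⟩
    have h3 := x.2
    rw [MonoidHom.mem_ker] at h3
    exact congrArg Subtype.val h3
  · intro x y hxy
    have h3 := congrArg Subtype.val hxy
    exact Subtype.ext (Subtype.ext h3)

end Pool.Agent.Helper84.FJ
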