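import Pool.Agent.Helper84.FJ.C

/-!
# The class of the groups all of whose subgroups have their quotients by virtually solvable normal
subgroups in `C`
-/

set_option autoImplicit false

open scoped commutatorElement

namespace Pool.Agent.Helper84.FJ

open Pool.Agent.Y462.SS Pool.Agent.Q152.WP Pool.Agent.Q91.FJ

section VSmore

variable {G H : Type} [Group G] [Group H]

theorem vs_iff : VS G ↔ VSolv G := by
  constructor
  · intro h
    obtain ⟨R, h1, h2, h3⟩ := h.exists_char
    exact ⟨R, inferInstance, h2, (solvable_iff R).2 h3⟩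
  · rintro ⟨S, h1, h2, h3⟩
    exact ⟨S, h2, (solvable_iff S).1 h3⟩

/-- extensions of virtually solvable groups -/
theorem VS.ext (f : G →* H) (hf : VS f.ker) (h : VS H) : VS G := by
  obtain ⟨Z, h1, h2, h3⟩ := exists_fin f.ker hf
  obtain ⟨T, h4, h5⟩ := h
  have h6 := fi_comap T h4 f
  refine ⟨Z ⊓ T.comap f, inferInstance, ?_⟩
  have h7 : SM (T.comap f) f.ker := by
    rw [← MonoidHom.comap_bot]
    exact h5.comap f
  obtain ⟨n, hn⟩ := h7
  refine SM.trans (T := Z ⊓ f.ker) ⟨n, le_inf ((D_le _ n).trans inf_le_left)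
    ((D_mono inf_le_right n).trans hn)⟩ h3

theorem VS.prod (hG : VS G) (hH : VS H) : VS (G × H) := by
  refine VS.ext (MonoidHom.snd G H) ?_ hH
  refine VS.of_injective ((MonoidHom.fst G H).comp (Subgroup.subtype _)) ?_ hG
  rintro ⟨⟨a, b⟩, hx⟩ ⟨⟨c, d⟩, hy⟩ hab
  have h1 : b = 1 := hx
  have h2 : d = 1 := hy
  have h3 : a = c := hab
  subst h1 h2 h3
  rfl

theorem VS.of_solvable (h : Group.IsSolvable G) : VS G :=
  ⟨⊤, inferInstance, (solvable_iff _).1 inferInstance⟩

end VSmore

variable {C : ∀ (G : Type) [Group G], Prop}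

/-- virtually solvable kernels -/
theorem vs_kernel (hC : Closed C) (hE : ExtClosed C) (hS : HasSolvable C) {G Q : Type} [Group G]
    [Group Q] (f : G →* Q) (hQ : C Q) (hK : VS f.ker) : C G := by
  have h1 : f.rangeRestrict.ker = f.ker := f.ker_rangeRestrict
  refine laws_kernel hC hE hS f.rangeRestrict f.rangeRestrict_surjective
    (of_sub hC _ hQ) (A := f.ker) (vs_iff.1 hK) ?_
  rw [h1]
  exact fun w hw => hw

/-- all quotients of subgroups of `G` by virtually solvable normal subgroups are in `C` -/
def QC (C : ∀ (G : Type) [Group G], Prop) (G : Type) [Group G] : Prop :=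
  ∀ (H T : Type) [Group H] [Group T] (i : H →* G) (f : H →* T), Function.Injective i →
    Function.Surjective f → VS f.ker → C T

theorem QC.mem {G : Type} [Group G] (h : QC C G) : C G :=
  h G G (MonoidHom.id G) (MonoidHom.id G) Function.injective_id Function.surjective_id
    (VS.ker_of_injective _ Function.injective_id)

/-- it is enough to consider subgroups and their quotients -/
theorem QC.of_sub (hC : Closed C) {G : Type} [Group G]
    (h : ∀ (H : Subgroup G) (S : Subgroup H) [S.Normal], VSolv S → C (H ⧸ S)) : QC C G := by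
  intro H T _ _ i f hi hf hk
  let e : H ≃* i.range := MonoidHom.ofInjective hi
  let g : i.range →* T := f.comp e.symm.toMonoidHom
  have hg : Function.Surjective g := hf.comp e.symm.surjective
  have h1 : VS g.ker := by
    refine VS.of_injective (G := g.ker) (H := f.ker)
      ((e.symm.toMonoidHom.comp (Subgroup.subtype _)).codRestrict _ (fun x => x.2)) ?_ hk
    intro x y hxy
    exact Subtype.ext (e.symm.injective (congrArg Subtype.val hxy))
  have h2 := h i.range g.ker (vs_iff.1 h1)
  exact Pool.Agent.Y812.SS.C_equiv hC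
    (QuotientGroup.quotientKerEquivOfSurjective g hg).symm h2

variable {G Q : Type} [Group G] [Group Q]

/-- restriction of a map with virtually solvable kernel -/
theorem vs_restrict {H T H' : Type} [Group H] [Group T] [Group H'] (f : H →* T) (hf : VS f.ker)
    (j : H' →* H) (hj : Function.Injective j) (g : H' →* T) (hg : ∀ x, g x = f (j x)) : VS g.ker := by
  refine VS.of_injective (G := g.ker) (H := f.ker)
    ((j.comp (Subgroup.subtype _)).codRestrict _ (fun x => ?_)) ?_ hf
  · have h1 : g x = 1 := x.2
    rw [hg] at h1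
    exact h1
  · intro x y hxy
    exact Subtype.ext (hj (congrArg Subtype.val hxy))

/-- the image of a subgroup in a quotient by a virtually solvable subgroup -/
theorem QC.image (h : QC C G) {H T : Type} [Group H] [Group T] (f : H →* T) (hk : VS f.ker)
    (A : Subgroup H) (j : A →* G) (hj : Function.Injective j) : C (A.map f) := by
  refine h A (A.map f) j (f.subgroupMap A) hj (f.subgroupMap_surjective A) ?_
  refine VS.of_injective (G := (f.subgroupMap A).ker) (H := f.ker)
    (((Subgroup.subtype _).comp (Subgroup.subtype _)).codRestrict _ (fun x => ?_)) ?_ hk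
  · exact congrArg Subtype.val x.2
  · intro x y hxy
    have hxy' := congrArg Subtype.val hxy
    exact Subtype.ext (Subtype.ext hxy')

theorem QC.of_injective (j : G →* Q) (hj : Function.Injective j) (h : QC C Q) : QC C G :=
  fun H T _ _ i f hi hf hk => h H T (j.comp i) f (hj.comp hi) hf hk

theorem QC.of_vsl {P : ∀ (K : Type) [Field K], Prop} (hC : Closed C) (hE : ExtClosed C)
    (hS : HasSolvable C) (hGL : HasLinear P C) (h : VSL P G) : QC C G := by
  intro H T _ _ i f hi hf hk
  exact (VSL.quot f hf hk (VSL.of_injective i hi h)).mem hC hE hS hGL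

theorem QC.of_solvable (hS : HasSolvable C) (h : Group.IsSolvable G) : QC C G := by
  intro H T _ _ i f hi hf _
  have h1 : Group.IsSolvable H := Group.isSolvable_of_isSolvable_injective hi
  exact hS T (Group.isSolvable_of_surjective hf)

theorem QC.finiteIndex (hC : Closed C) (K : Subgroup G) (hK : K.FiniteIndex) (h : QC C K) :
    QC C G := by
  intro H T _ _ i f hi hf hk
  have h1 := fi_comap K hK i
  have h2 : ((K.comap i).map f).FiniteIndex :=
    ⟨fun h3 => h1.index_ne_zero (Nat.eq_zero_of_zero_dvd (h3 ▸ Subgroup.index_map_dvd _ hf))⟩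
  refine hC.finiteIndex T _ h2 ?_
  refine h.image f hk (K.comap i) ((i.comp (Subgroup.subtype _)).codRestrict K (fun x => x.2)) ?_
  intro x y hxy
  exact Subtype.ext (hi (congrArg Subtype.val hxy))

theorem QC.union (hC : Closed C) (I : Type) [Preorder I] [Nonempty I]
    (hI : ∀ i j : I, ∃ k, i ≤ k ∧ j ≤ k) (K : I → Subgroup G) (hK : Monotone K)
    (hg : ∀ g, ∃ i, g ∈ K i) (h : ∀ i, QC C (K i)) : QC C G := by
  intro H T _ _ i f hi hf hk
  refine Pool.Agent.Y430.SS.of_directed hC T I hI (fun a => ((K a).comap i).map f) ?_ ?_ ?_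
  · intro a b hab
    exact Subgroup.map_mono (Subgroup.comap_mono (hK hab))
  · intro t
    obtain ⟨x, rfl⟩ := hf t
    obtain ⟨a, ha⟩ := hg (i x)
    exact ⟨a, Subgroup.mem_map_of_mem f ha⟩
  · intro a
    refine (h a).image f hk ((K a).comap i)
      ((i.comp (Subgroup.subtype _)).codRestrict (K a) (fun x => x.2)) ?_
    intro x y hxy
    exact Subtype.ext (hi (congrArg Subtype.val hxy))

theorem QC.quot (p : G →* Q) (hp : Function.Surjective p) (hk : VS p.ker) (h : QC C G) :
    QC C Q := by
  intro H T _ _ i f hi hf hkf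
  -- the preimage of `H` in `G`
  let A : Subgroup G := i.range.comap p
  let e : H ≃* i.range := MonoidHom.ofInjective hi
  let q : A →* H := e.symm.toMonoidHom.comp
    ((p.comp A.subtype).codRestrict i.range (fun x => x.2))
  have hiq : ∀ x : A, i (q x) = p x := by
    intro x
    have h1 : (e (q x) : Q) = i (q x) := rfl
    rw [← h1]
    change ((e (e.symm _) : i.range) : Q) = _
    rw [MulEquiv.apply_symm_apply]
    rfl
  have hq : Function.Surjective q := by
    intro y
    obtain ⟨x, hx⟩ := hp (i y)
    refine ⟨⟨x, ⟨y, hx.symm⟩⟩, hi ?_⟩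
    rw [hiq]
    exact hx
  refine h A T A.subtype (f.comp q) A.subtype_injective (hf.comp hq) ?_
  -- the kernel
  have h2 : VS q.ker := by
    refine VS.of_injective (G := q.ker) (H := p.ker)
      ((A.subtype.comp (Subgroup.subtype _)).codRestrict _ (fun x => ?_)) ?_ hk
    · have h3 : q x.1 = 1 := x.2
      have h4 := hiq x.1
      rw [h3, map_one] at h4
      exact h4.symm
    · intro x y hxy
      have hxy' := congrArg Subtype.val hxy
      exact Subtype.ext (Subtype.ext hxy')
  let r : (f.comp q).ker →* f.ker := (q.comp (Subgroup.subtype _)).codRestrict _ (fun x => x.2)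
  refine VS.ext r ?_ hkf
  refine VS.of_injective (G := r.ker) (H := q.ker)
    (((Subgroup.subtype _).comp (Subgroup.subtype _)).codRestrict _ (fun x => ?_)) ?_ h2
  · exact congrArg Subtype.val x.2
  · intro x y hxy
    have hxy' := congrArg Subtype.val hxy
    exact Subtype.ext (Subtype.ext hxy')

/-- the part of `T` outside the kernel of a map to `Q` -/
theorem QC.part (hQ : QC C Q) {H T : Type} [Group H] [Group T] (j : H →* Q) (f : H →* T)
    (hf : Function.Surjective f) (hk : VS f.ker) [(j.ker.map f).Normal] :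
    C (T ⧸ j.ker.map f) := by
  let g : H →* T ⧸ j.ker.map f := (QuotientGroup.mk' (j.ker.map f)).comp f
  have hg : Function.Surjective g := (QuotientGroup.mk'_surjective _).comp hf
  have ψ : j.rangeRestrict.ker ≤ g.ker := by
    rw [MonoidHom.ker_rangeRestrict]
    intro x hx
    exact (QuotientGroup.eq_one_iff _).2 (Subgroup.mem_map_of_mem f hx)
  let g' : j.range →* T ⧸ j.ker.map f :=
    j.rangeRestrict.liftOfSurjective j.rangeRestrict_surjective ⟨g, ψ⟩
  have hg' : ∀ x, g' (j.rangeRestrict x) = g x := fun x =>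
    MonoidHom.liftOfRightInverse_comp_apply _ _ _ ⟨g, ψ⟩ x
  refine hQ _ _ j.range.subtype g' (Subgroup.subtype_injective _) ?_ ?_
  · intro y
    obtain ⟨x, rfl⟩ := hg y
    exact ⟨_, hg' x⟩
  · -- the kernel is the image of the kernel of `f`
    have h1 : g'.ker = f.ker.map j.rangeRestrict := by
      ext y
      obtain ⟨x, rfl⟩ := j.rangeRestrict_surjective y
      rw [MonoidHom.mem_ker, hg']
      constructor
      · intro h2
        obtain ⟨n, hn, hnx⟩ := (QuotientGroup.eq_one_iff (f x)).1 h2
        refine ⟨x * n⁻¹, ?_, ?_⟩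
        · rw [SetLike.mem_coe, MonoidHom.mem_ker, map_mul, map_inv, hnx, mul_inv_cancel]
        · rw [map_mul, map_inv]
          have h3 : j.rangeRestrict n = 1 := Subtype.ext hn
          rw [h3, inv_one, mul_one]
      · rintro ⟨z, hz, hzx⟩
        rw [← hg', ← hzx, hg']
        have h3 : f z = 1 := hz
        change QuotientGroup.mk' _ (f z) = 1
        rw [h3, map_one]
    rw [h1]
    exact VS.of_surjective _ (j.rangeRestrict.subgroupMap_surjective f.ker) hk

/-- the extension property -/
theorem QC.ext (hE : ExtClosed C) (p : G →* Q) (hQ : QC C Q)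
    (hK : QC C p.ker) (hZ : ∀ q : Q, ¬ IsOfFinOrder q → QC C ((Subgroup.zpowers q).comap p)) :
    QC C G := by
  intro H T _ _ i f hi hf hk
  let N : Subgroup H := (p.comp i).ker
  have hM : (N.map f).Normal := Subgroup.Normal.map inferInstance f hf
  refine hE T (T ⧸ N.map f) (QuotientGroup.mk' _) (QuotientGroup.mk'_surjective _) ?_ ?_ ?_
  · exact hQ.part (p.comp i) f hf hk
  · -- the kernel
    rw [QuotientGroup.ker_mk']
    refine hK.image f hk N ((i.comp (Subgroup.subtype _)).codRestrict p.ker (fun x => x.2)) ?_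
    intro x y hxy
    exact Subtype.ext (hi (congrArg Subtype.val hxy))
  · intro t ht
    obtain ⟨t, rfl⟩ := QuotientGroup.mk'_surjective (N.map f) t
    obtain ⟨x, rfl⟩ := hf t
    have hx : ¬ IsOfFinOrder (p (i x)) := by
      intro hfin
      apply ht
      obtain ⟨n, hn, h1⟩ := isOfFinOrder_iff_pow_eq_one.1 hfin
      refine isOfFinOrder_iff_pow_eq_one.2 ⟨n, hn, ?_⟩
      rw [← map_pow, ← map_pow]
      refine (QuotientGroup.eq_one_iff _).2 (Subgroup.mem_map_of_mem f ?_)
      change p (i (x ^ n)) = 1
      rw [map_pow, map_pow, h1]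
    have h1 : (Subgroup.zpowers (QuotientGroup.mk' (N.map f) (f x))).comap
        (QuotientGroup.mk' (N.map f)) =
        (((Subgroup.zpowers (p (i x))).comap p).comap i).map f := by
      ext y
      constructor
      · rintro ⟨n, hn⟩
        have h2 : QuotientGroup.mk' (N.map f) (f (x ^ n)) = QuotientGroup.mk' (N.map f) y := by
          rw [map_zpow, map_zpow]
          exact hn
        have h3 : (f (x ^ n))⁻¹ * y ∈ N.map f := QuotientGroup.eq.1 h2
        obtain ⟨z, hz, hzy⟩ := h3
        refine ⟨x ^ n * z, ⟨n, ?_⟩, ?_⟩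
        · have h4 : p (i z) = 1 := hz
          change (p (i x)) ^ n = p (i (x ^ n * z))
          rw [map_mul, map_mul, h4, mul_one, map_zpow, map_zpow]
        · rw [map_mul, hzy, mul_inv_cancel_left]
      · rintro ⟨z, ⟨n, hn⟩, rfl⟩
        refine ⟨n, ?_⟩
        have hn' : p (i x) ^ n = p (i z) := hn
        have h2 : (x ^ n)⁻¹ * z ∈ N := by
          change p (i ((x ^ n)⁻¹ * z)) = 1
          rw [map_mul, map_mul, map_inv, map_inv, map_zpow, map_zpow, hn', inv_mul_cancel]
        have h3 : QuotientGroup.mk' (N.map f) (f (x ^ n)) = QuotientGroup.mk' (N.map f) (f z) := by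
          refine QuotientGroup.eq.2 ?_
          rw [← map_inv, ← map_mul]
          exact Subgroup.mem_map_of_mem f h2
        change (QuotientGroup.mk' (N.map f) (f x)) ^ n = _
        rw [← h3, map_zpow, map_zpow]
    rw [h1]
    refine (hZ _ hx).image f hk _
      ((i.comp (Subgroup.subtype _)).codRestrict _ (fun x => x.2)) ?_
    intro x y hxy
    exact Subtype.ext (hi (congrArg Subtype.val hxy))

/-- virtually solvable kernels -/
theorem QC.ext_vs (hC : Closed C) (hE : ExtClosed C) (hS : HasSolvable C) (p : G →* Q)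
    (hK : VS p.ker) (hQ : QC C Q) : QC C G := by
  have hvs : ∀ (L : Type) [Group L], VS L → QC C L := by
    intro L _ hL H T _ _ i f hi hf _
    have h1 : VS T := VS.of_surjective f hf (VS.of_injective i hi hL)
    have h2 : C PUnit := Pool.Agent.Y812.SS.C_subsingleton hC _
    refine vs_kernel hC hE hS (1 : T →* PUnit) h2 ?_
    exact VS.of_injective (Subgroup.subtype _) (Subgroup.subtype_injective _) h1
  refine QC.ext hE p hQ (hvs _ hK) (fun q _ => hvs _ ?_)
  let g : (Subgroup.zpowers q).comap p →* Subgroup.zpowers q :=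
    (p.comp (Subgroup.subtype _)).codRestrict _ (fun x => x.2)
  refine VS.ext g ?_ (VS.of_solvable (Group.isSolvable_of_comm (by
    rintro ⟨_, m, rfl⟩ ⟨_, n, rfl⟩
    exact Subtype.ext (zpow_mul_comm q m n))))
  refine VS.of_injective (G := g.ker) (H := p.ker)
    (((Subgroup.subtype _).comp (Subgroup.subtype _)).codRestrict _ (fun x => ?_)) ?_ hK
  · exact congrArg Subtype.val x.2
  · intro x y hxy
    have hxy' := congrArg Subtype.val hxy
    exact Subtype.ext (Subtype.ext hxy')

/-- products -/
theorem QC.prod (hC : Closed C) (hE : ExtClosed C) (hS : HasSolvable C) {G₁ G₂ : Type} [Group G₁]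
    [Group G₂] (h1 : QC C G₁) (h2 : QC C G₂) : QC C (G₁ × G₂) := by
  intro H T _ _ i f hi hf hk
  let j₁ : H →* G₁ := (MonoidHom.fst G₁ G₂).comp i
  let j₂ : H →* G₂ := (MonoidHom.snd G₁ G₂).comp i
  have n1 : (j₁.ker.map f).Normal := Subgroup.Normal.map inferInstance f hf
  have n2 : (j₂.ker.map f).Normal := Subgroup.Normal.map inferInstance f hf
  refine vs_kernel hC hE hS ((QuotientGroup.mk' (j₁.ker.map f)).prod
    (QuotientGroup.mk' (j₂.ker.map f))) (hC.prod _ _ (h1.part j₁ f hf hk) (h2.part j₂ f hf hk)) ?_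
  -- the kernel
  let W : Subgroup H := j₁.ker ⊓ (f.ker.map j₂).comap j₂
  have hW : VS W := by
    have h3 : VS (f.ker.map j₂) := VS.of_surjective _ (j₂.subgroupMap_surjective f.ker) hk
    refine VS.of_injective (G := W) (H := f.ker.map j₂)
      ((j₂.comp W.subtype).codRestrict _ (fun x => x.2.2)) ?_ h3
    intro x y hxy
    have h4 : j₂ x = j₂ y := congrArg Subtype.val hxy
    have h5 : j₁ x = j₁ y := by
      rw [show j₁ x = 1 from x.2.1, show j₁ y = 1 from y.2.1]
    exact Subtype.ext (hi (Prod.ext h5 h4))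
  have hfW : VS (W.map f) := VS.of_surjective _ (f.subgroupMap_surjective W) hW
  refine VS.of_injective (Subgroup.inclusion ?_) (Subgroup.inclusion_injective _) hfW
  intro t ht
  rw [MonoidHom.mem_ker, MonoidHom.prod_apply, Prod.mk_eq_one] at ht
  obtain ⟨a, ha, hat⟩ := (QuotientGroup.eq_one_iff _).1 ht.1
  obtain ⟨b, hb, hbt⟩ := (QuotientGroup.eq_one_iff _).1 ht.2
  refine ⟨a, ⟨ha, b⁻¹ * a, ?_, ?_⟩, hat⟩
  · rw [SetLike.mem_coe, MonoidHom.mem_ker, map_mul, map_inv, hat, hbt, inv_mul_cancel]
  · rw [map_mul, map_inv, show j₂ b = 1 from hb, inv_one, one_mul]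

end Pool.Agent.Helper84.FJ
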