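import Pool.Agent.Helper84.FJ.D
import Pool.Graph.R_seed8.Helper270.Tree
import Pool.Graph.R_pool_sql_team_seeded_3997aac3.Q182.CylDefs

/-!
# Acylindrical actions on trees and virtually solvable normal subgroups
-/

set_option autoImplicit false

open scoped commutatorElement

namespace Pool.Agent.Helper84.FJ

open Pool.Agent.Y462.SS Pool.Agent.Q152.WP Pool.Agent.Q91.FJ Pool.Agent.Helper270.Tree
open SimpleGraph

section groups

variable {F : Type} [Group F]

/-- virtually cyclic subgroups -/
def VC (W : Subgroup F) : Prop := ∃ c ∈ W, (Subgroup.zpowers c).relIndex W ≠ 0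

theorem exists_term (S : Subgroup F) [S.Normal] (hS : VS S) (hinf : Infinite S) :
    ∃ B : Subgroup F, B.Normal ∧ B ≤ S ∧ Infinite B ∧ Finite (⁅B, B⁆ : Subgroup F) := by
  classical
  obtain ⟨R, h1, h2, h3, n, hn⟩ := exists_core S hS
  have hRinf : Infinite R := by
    by_contra hfin
    rw [not_infinite_iff_finite] at hfin
    have h4 : (R.subgroupOf S).FiniteIndex := ⟨h3⟩
    have h5 : Finite (R.subgroupOf S) :=
      Finite.of_injective (fun x : R.subgroupOf S => (⟨(x : S), x.2⟩ : R)) (by
        intro x y hxy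
        have hxy' := congrArg Subtype.val hxy
        exact Subtype.ext (Subtype.ext hxy'))
    have h6 : Finite S := (Subgroup.finite_iff_finite_and_finiteIndex (R.subgroupOf S)).2 ⟨h5, h4⟩
    exact not_finite S
  have hex : ∃ j, Finite (D R j) := ⟨n, by
    rw [le_bot_iff.1 hn]
    infer_instance⟩
  have h4 := Nat.find_spec hex
  obtain ⟨j, hj⟩ : ∃ j, Nat.find hex = j + 1 := by
    refine Nat.exists_eq_succ_of_ne_zero (fun h0 => ?_)
    rw [h0] at h4
    have h5 : Finite R := h4
    exact not_finite R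
  rw [hj] at h4
  have h5 : ¬ Finite (D R j) := Nat.find_min hex (by omega)
  rw [not_finite_iff_infinite] at h5
  exact ⟨D R j, inferInstance, (D_le R j).trans h2, h5, h4⟩

theorem exists_comm_pow (B : Subgroup F) (hB : Finite (⁅B, B⁆ : Subgroup F)) {b y : F} (hb : b ∈ B)
    (hy : y ∈ B) : ∃ m : ℕ, 0 < m ∧ y * b ^ m = b ^ m * y := by
  let φ : ℕ → (⁅B, B⁆ : Subgroup F) := fun n =>
    ⟨⁅y, b ^ n⁆, Subgroup.commutator_mem_commutator hy (pow_mem hb n)⟩
  obtain ⟨n, n', hne, h⟩ := Finite.exists_ne_map_eq_of_infinite φ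
  wlog hlt : n < n' generalizing n n' with H
  · exact H n' n hne.symm h.symm (lt_of_le_of_ne (not_lt.1 hlt) hne.symm)
  obtain ⟨m, rfl⟩ := Nat.exists_eq_add_of_lt hlt
  refine ⟨m + 1, Nat.succ_pos _, ?_⟩
  have h1 : ⁅y, b ^ n⁆ = ⁅y, b ^ (n + m + 1)⁆ := congrArg Subtype.val h
  rw [commutatorElement_def, commutatorElement_def, show n + m + 1 = n + (m + 1) from rfl,
    pow_add] at h1
  have h2 : b ^ n * y⁻¹ * (b ^ n)⁻¹ = b ^ n * b ^ (m + 1) * y⁻¹ * (b ^ n * b ^ (m + 1))⁻¹ := by
    have h3 := congrArg (fun z => y⁻¹ * z) h1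
    simpa [mul_assoc] using h3
  have h3 : y⁻¹ = b ^ (m + 1) * y⁻¹ * (b ^ (m + 1))⁻¹ := by
    have h4 := congrArg (fun z => (b ^ n)⁻¹ * z * b ^ n) h2
    simpa [mul_assoc] using h4
  have h4 : y = b ^ (m + 1) * y * (b ^ (m + 1))⁻¹ := by
    have h5 := congrArg (fun z => z⁻¹) h3
    simpa [mul_assoc] using h5
  calc y * b ^ (m + 1) = b ^ (m + 1) * y * (b ^ (m + 1))⁻¹ * b ^ (m + 1) := by rw [← h4]
    _ = b ^ (m + 1) * y := by rw [inv_mul_cancel_right]

theorem vc_comap (N : Subgroup F) [N.Normal] (hN : Finite N) (W : Subgroup (F ⧸ N)) (hW : VC W) :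
    VC (W.comap (QuotientGroup.mk' N)) := by
  obtain ⟨c, hc, h⟩ := hW
  obtain ⟨c, rfl⟩ := QuotientGroup.mk'_surjective N c
  refine ⟨c, hc, ?_⟩
  obtain ⟨K, hK⟩ : ∃ K, K = (Subgroup.zpowers (QuotientGroup.mk' N c)).comap (QuotientGroup.mk' N) :=
    ⟨_, rfl⟩
  have h1 : K.relIndex (W.comap (QuotientGroup.mk' N)) ≠ 0 := by
    rw [hK]
    exact Subgroup.relIndex_comap_ne_zero _ h
  have h2 : (Subgroup.zpowers c).relIndex K ≠ 0 := by
    have hmem : ∀ x : K, ∃ n : N, ∃ z : ℤ, (x : F) = n * c ^ z := by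
      rintro ⟨x, hx⟩
      rw [hK] at hx
      obtain ⟨z, hz⟩ := hx
      have h3 : QuotientGroup.mk' N (c ^ z) = QuotientGroup.mk' N x := by
        rw [map_zpow]
        exact hz
      have h4 : (c ^ z)⁻¹ * x ∈ N := QuotientGroup.eq.1 h3
      refine ⟨⟨x * (c ^ z)⁻¹, ?_⟩, z, by simp⟩
      have h5 := (inferInstance : N.Normal).conj_mem _ h4 (c ^ z)
      have h6 : c ^ z * ((c ^ z)⁻¹ * x) * (c ^ z)⁻¹ = x * (c ^ z)⁻¹ := by group
      rw [h6] at h5
      exact h5
    have hNK : ∀ n : N, (n : F) ∈ K := by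
      intro n
      rw [hK, Subgroup.mem_comap, (show QuotientGroup.mk' N (n : F) = 1 from
        (QuotientGroup.eq_one_iff _).2 n.2)]
      exact one_mem _
    have h3 : Finite (K ⧸ (Subgroup.zpowers c).subgroupOf K) := by
      refine Finite.of_surjective (fun n : N => (QuotientGroup.mk (⟨n, hNK n⟩ : K) :
        K ⧸ (Subgroup.zpowers c).subgroupOf K)) ?_
      intro y
      obtain ⟨x, rfl⟩ := QuotientGroup.mk_surjective y
      obtain ⟨n, z, hx⟩ := hmem x
      refine ⟨n, QuotientGroup.eq.2 ?_⟩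
      rw [Subgroup.mem_subgroupOf]
      refine ⟨z, ?_⟩
      change c ^ z = (n : F)⁻¹ * x
      rw [hx, inv_mul_cancel_left]
    exact (Subgroup.finiteIndex_of_finite_quotient (H := (Subgroup.zpowers c).subgroupOf K)).index_ne_zero
  exact Subgroup.relIndex_ne_zero_trans h2 h1

end groups

section tree

variable {F V : Type} [Group F] [MulAction F V] {T : SimpleGraph V}

/-- the pointwise stabilizers of pairs of vertices at distance at least `k` are finite -/
def Acyl (F : Type) {V : Type} [Group F] [MulAction F V] (T : SimpleGraph V) (k : ℕ) : Prop :=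
  ∀ v w : V, k ≤ T.dist v w → {f : F | f • v = v ∧ f • w = w}.Finite

/-- a group which preserves the axis of a hyperbolic element is virtually cyclic -/
theorem line_vc (hT : TreeAct F T) {k : ℕ} (hk : Acyl F T k) {b : F} {L : ℤ → V} {l : ℕ}
    (hax : IsAxis T b L l)
    (hL : ∀ x : F, (∃ c, ∀ i, x • L i = L (c + i)) ∨ (∃ c, ∀ i, x • L i = L (c - i))) :
    (Subgroup.zpowers b).FiniteIndex := by
  classical
  have hpos : (0 : ℤ) < l := by exact_mod_cast hax.pos
  -- the sets of the elements with given images of two vertices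
  have hfin : ∀ c c' : ℤ, {x : F | x • L 0 = L c ∧ x • L k = L c'}.Finite := by
    intro c c'
    by_cases hne : ({x : F | x • L 0 = L c ∧ x • L k = L c'}).Nonempty
    · obtain ⟨x₀, h0, h0'⟩ := hne
      have h1 := hk (L 0) (L k) (by
        rw [hax.line.dist hT.isTree]
        simp)
      refine (h1.image (fun y => x₀ * y)).subset ?_
      rintro x ⟨hx, hx'⟩
      refine ⟨x₀⁻¹ * x, ⟨?_, ?_⟩, by simp⟩
      · rw [mul_smul, hx, inv_smul_eq_iff, h0]
      · rw [mul_smul, hx', inv_smul_eq_iff, h0']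
    · rw [Set.not_nonempty_iff_eq_empty.1 hne]
      exact Set.finite_empty
  let E : Set F := ⋃ c ∈ Finset.range l, ⋃ s : Bool,
    {x : F | x • L 0 = L (c : ℕ) ∧ x • L k = L (if s then (c : ℤ) + k else (c : ℤ) - k)}
  have hE : E.Finite := by
    refine Set.Finite.biUnion (Finset.finite_toSet _) (fun c _ => ?_)
    exact Set.finite_iUnion (fun s => hfin _ _)
  have hdec : ∀ x : F, ∃ e ∈ E, ∃ n : ℤ, x = b ^ n * e := by
    intro x
    obtain ⟨c, s, hc, hc'⟩ : ∃ c : ℤ, ∃ s : Bool, x • L 0 = L c ∧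
        x • L k = L (if s then c + k else c - k) := by
      rcases hL x with ⟨c, hc⟩ | ⟨c, hc⟩
      · exact ⟨c, true, by rw [hc, add_zero], by rw [hc]; rfl⟩
      · exact ⟨c, false, by rw [hc, sub_zero], by rw [hc]; rfl⟩
    have h1 : 0 ≤ c % l := Int.emod_nonneg _ hpos.ne'
    have h2 : c % l < l := Int.emod_lt_of_pos _ hpos
    have h3 : c = c % l + (c / l) * l := (Int.emod_add_ediv_mul c l).symm
    refine ⟨b ^ (-(c / l)) * x, ?_, c / l, by group⟩
    refine Set.mem_iUnion₂.2 ⟨(c % l).toNat, ?_, Set.mem_iUnion.2 ⟨s, ?_, ?_⟩⟩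
    · rw [Finset.mem_range]
      omega
    · rw [mul_smul, hc, hax.smul_zpow]
      congr 1
      rw [Int.toNat_of_nonneg h1]
      linarith
    · rw [mul_smul, hc', hax.smul_zpow]
      congr 1
      rw [Int.toNat_of_nonneg h1]
      cases s
      · simp only [Bool.false_eq_true, if_false]
        linarith
      · simp only [if_true]
        linarith
  have h4 : Finite (F ⧸ Subgroup.zpowers b) := by
    have : Finite E := hE
    refine Finite.of_surjective (fun e : E => (QuotientGroup.mk (e : F)⁻¹ :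
      F ⧸ Subgroup.zpowers b)) ?_
    intro y
    obtain ⟨x, rfl⟩ := QuotientGroup.mk_surjective y
    obtain ⟨e, he, n, hx⟩ := hdec x⁻¹
    refine ⟨⟨e, he⟩, QuotientGroup.eq.2 ⟨-n, ?_⟩⟩
    have h5 : x = e⁻¹ * (b ^ n)⁻¹ := by
      rw [← mul_inv_rev, ← hx, inv_inv]
    change b ^ (-n) = (e⁻¹)⁻¹ * x
    rw [h5, inv_inv, mul_inv_cancel_left, zpow_neg]
  exact Subgroup.finiteIndex_of_finite_quotient

/-- an elliptic normal subgroup whose elements fix half-lines of an axis is finite -/
theorem up_finite (hT : TreeAct F T) {k : ℕ} (hk : Acyl F T k) {g : F} {L : ℤ → V} {l : ℕ}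
    (hax : IsAxis T g L l) (B : Subgroup F) [hB : B.Normal]
    (hfix : ∀ m ∈ B, ∃ i, m • L i = L i)
    (hup : ∀ m ∈ B, ∀ i, m • L i = L i → m • L (i + 1) = L (i + 1)) : Finite B := by
  classical
  have hup' : ∀ m ∈ B, ∀ i, m • L i = L i → ∀ n : ℕ, m • L (i + n) = L (i + n) := by
    intro m hm i hi n
    induction n with
    | zero => simpa using hi
    | succ n ih =>
      have := hup m hm _ ih
      rw [show i + ((n + 1 : ℕ) : ℤ) = i + n + 1 from by push_cast; ring]
      exact this
  obtain ⟨A, hA⟩ : ∃ A : ℤ → Set F, ∀ i, A i = {m | m ∈ B ∧ m • L i = L i} := ⟨_, fun _ => rfl⟩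
  have hfin : ∀ i, (A i).Finite := by
    intro i
    have h1 := hk (L i) (L (i + k)) (by
      rw [hax.line.dist hT.isTree]
      simp)
    refine h1.subset ?_
    rw [hA]
    rintro m ⟨hm, hmi⟩
    exact ⟨hmi, hup' m hm i hmi k⟩
  have hmono : ∀ (i : ℤ) (n : ℕ), A i ⊆ A (i + n) := by
    intro i n m hm
    rw [hA] at hm ⊢
    exact ⟨hm.1, hup' m hm.1 i hm.2 n⟩
  have heq : ∀ n : ℕ, A 0 = A (0 + (n * l : ℕ)) := by
    intro n
    refine Set.eq_of_subset_of_ncard_le (hmono 0 (n * l)) ?_ (hfin _)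
    have h1 : A (0 + (n * l : ℕ)) ⊆ (fun m => g ^ n * m * (g ^ n)⁻¹) '' A 0 := by
      intro m hm
      rw [hA] at hm
      refine ⟨(g ^ n)⁻¹ * m * g ^ n, ?_, by group⟩
      rw [hA]
      refine ⟨?_, ?_⟩
      · have := hB.conj_mem m hm.1 (g ^ n)⁻¹
        rwa [inv_inv] at this
      · have h2 : g ^ n • L 0 = L (0 + (n * l : ℕ)) := by
          have := hax.smul_zpow n 0
          rw [zpow_natCast] at this
          rw [this]
          push_cast
          rfl
        rw [mul_smul, mul_smul, h2, hm.2, inv_smul_eq_iff, h2]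
    exact (Set.ncard_le_ncard h1 ((hfin 0).image _)).trans (Set.ncard_image_le (hfin 0))
  have hall : (B : Set F) ⊆ A 0 := by
    intro m hm
    obtain ⟨i, hi⟩ := hfix m hm
    have hl : (1 : ℤ) ≤ l := by exact_mod_cast hax.pos
    rw [heq (i.toNat), hA]
    refine ⟨hm, ?_⟩
    have h1 : i ≤ 0 + ((i.toNat * l : ℕ) : ℤ) := by
      push_cast
      have h2 : i ≤ (i.toNat : ℤ) := Int.self_le_toNat i
      have h3 : (0 : ℤ) ≤ (i.toNat : ℤ) := by positivity
      nlinarith
    obtain ⟨n, hn⟩ := Int.le.dest h1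
    rw [← hn]
    exact hup' m hm i hi n
  exact ((hfin 0).subset hall).to_subtype

/-- **infinite virtually solvable normal subgroups** -/
theorem main_inf (hT : TreeAct F T) (hfg : Group.FG F) {k : ℕ} (hk : Acyl F T k) (S : Subgroup F)
    [S.Normal] (hS : VS S) (hinf : Infinite S) :
    (∃ v : V, ∀ f : F, f • v = v) ∨ ∃ c : F, (Subgroup.zpowers c).FiniteIndex := by
  by_cases hfix : ∃ v : V, ∀ f : F, f • v = v
  · exact Or.inl hfix
  right
  push Not at hfix
  obtain ⟨B, hB1, hB2, hB3, hB4⟩ := exists_term S hS hinf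
  by_cases hhyp : ∃ b ∈ B, ∀ v : V, b • v ≠ v
  · obtain ⟨b, hb, hbv⟩ := hhyp
    obtain ⟨L, l, hax⟩ := hT.exists_axis hbv
    refine ⟨b, line_vc hT hk hax (fun x => ?_)⟩
    have hy : x⁻¹ * b * x ∈ B := by
      have := hB1.conj_mem b hb x⁻¹
      rwa [inv_inv] at this
    obtain ⟨m, hm, hcomm⟩ := exists_comm_pow B hB4 hb hy
    -- the axis of the power
    have hax' : IsAxis T (b ^ m) L (m * l) := by
      refine ⟨hax.line, Nat.mul_pos hm hax.pos, fun i => ?_⟩
      have := hax.smul_zpow m i
      rw [zpow_natCast] at this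
      rw [this]
      push_cast
      rfl
    have hpow : x⁻¹ * b ^ m * x = (x⁻¹ * b * x) ^ m := by
      have := conj_pow (a := x⁻¹) (b := b) (i := m)
      rw [inv_inv] at this
      exact this.symm
    refine hT.normal_axis hax' ?_
    rw [hpow]
    exact (Commute.pow_left (show Commute (x⁻¹ * b * x) (b ^ m) from hcomm) m).eq
  · exfalso
    push Not at hhyp
    obtain ⟨g, hg⟩ := hT.exists_hyperbolic hfg hfix
    obtain ⟨L, l, hax⟩ := hT.exists_axis hg
    have hfx : ∀ m ∈ B, ∃ i, m • L i = L i := fun m hm => hT.fix_axis hB1 hhyp hax hm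
    rcases hT.one_sided hB1 hhyp hax with hup | hdown
    · have := up_finite hT hk hax B hfx hup
      exact not_finite B
    · have := up_finite hT hk hax.reverse B (fun m hm => by
        obtain ⟨i, hi⟩ := hfx m hm
        exact ⟨-i, by simpa using hi⟩) (fun m hm i hi => by
        have := hdown m hm (-i) hi
        rwa [show -i - 1 = -(i + 1) from by ring] at this)
      exact not_finite B

/-- a finite group acting on a tree without inversions fixes a vertex -/
theorem finite_fix (hT : TreeAct F T) (hF : Finite F) : ∃ v : V, ∀ f : F, f • v = v := by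
  classical
  have hell : ∀ g : F, ∃ v : V, g • v = v := by
    intro g
    by_contra hcon
    push Not at hcon
    obtain ⟨L, l, hax⟩ := hT.exists_axis hcon
    obtain ⟨n, hn, h1⟩ := isOfFinOrder_iff_pow_eq_one.1 (isOfFinOrder_of_finite g)
    have h2 := hax.smul_zpow n 0
    rw [zpow_natCast, h1, one_smul] at h2
    have h3 := hax.line.injective hT.isTree h2
    have h4 : (0 : ℤ) < n * l := by
      have := hax.pos
      positivity
    omega
  have := Fintype.ofFinite F
  obtain ⟨v, hv⟩ := hT.serre hell Finset.univ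
  exact ⟨v, fun f => hv f (Finset.mem_univ f)⟩

theorem treeAct_sub (hT : TreeAct F T) (K : Subgroup F) : TreeAct K T where
  isTree := hT.isTree
  adj g v w h := hT.adj (g : F) v w h
  noInv g v w h := hT.noInv (g : F) v w h

/-- the vertices fixed by the subgroup -/
def Fix (V : Type) [MulAction F V] (S : Subgroup F) : Set V := {v | ∀ s ∈ S, s • v = v}

theorem geod_fix (hT : TreeAct F T) (S : Subgroup F) {v w : V} (hv : v ∈ Fix V S)
    (hw : w ∈ Fix V S) : ∃ q : ℕ → V, ∃ hq : ∀ i ≤ T.dist v w, q i ∈ Fix V S, q 0 = v ∧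
      q (T.dist v w) = w ∧ ∀ i < T.dist v w, T.Adj (q i) (q (i + 1)) := by
  obtain ⟨q, h0, hn, hadj, hd, _⟩ := exists_geod hT.isTree v w
  refine ⟨q, fun i hi s hs => ?_, h0, hn, hadj⟩
  refine hT.convex (hv s hs) (hw s hs) ?_
  have := hd i hi
  omega

theorem fix_walk (hT : TreeAct F T) (S : Subgroup F) (v w : Fix V S) :
    ∃ p : (T.induce (Fix V S)).Walk v w, p.length = T.dist (v : V) w := by
  obtain ⟨q, hq, h0, hn, hadj⟩ := geod_fix hT S v.2 w.2
  have key : ∀ i (hi : i ≤ T.dist (v : V) w),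
      ∃ p : (T.induce (Fix V S)).Walk v ⟨q i, hq i hi⟩, p.length = i := by
    intro i
    induction i with
    | zero =>
      intro hi
      have h1 : v = ⟨q 0, hq 0 hi⟩ := Subtype.ext h0.symm
      exact ⟨(Walk.nil : (T.induce (Fix V S)).Walk v v).copy rfl h1, by simp⟩
    | succ i ih =>
      intro hi
      obtain ⟨p, hp⟩ := ih (by omega)
      have h1 : (T.induce (Fix V S)).Adj ⟨q i, hq i (by omega)⟩ ⟨q (i + 1), hq (i + 1) hi⟩ :=
        hadj i (by omega)
      exact ⟨p.concat h1, by rw [Walk.length_concat, hp]⟩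
  obtain ⟨p, hp⟩ := key _ le_rfl
  have h2 : (⟨q (T.dist (v : V) w), hq _ le_rfl⟩ : Fix V S) = w := Subtype.ext hn
  exact ⟨p.copy rfl h2, by rw [Walk.length_copy, hp]⟩

theorem isTree_fix (hT : TreeAct F T) (S : Subgroup F) (hne : (Fix V S).Nonempty) :
    (T.induce (Fix V S)).IsTree := by
  constructor
  · rw [SimpleGraph.connected_iff]
    refine ⟨fun v w => ?_, ?_⟩
    · obtain ⟨p, -⟩ := fix_walk hT S v w
      exact ⟨p⟩
    · obtain ⟨v, hv⟩ := hne
      exact ⟨⟨v, hv⟩⟩
  · exact hT.isTree.isAcyclic.induce _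

theorem dist_fix (hT : TreeAct F T) (S : Subgroup F) (v w : Fix V S) :
    (T.induce (Fix V S)).dist v w ≤ T.dist (v : V) w := by
  obtain ⟨p, hp⟩ := fix_walk hT S v w
  rw [← hp]
  exact SimpleGraph.dist_le p

/-- the action on the fixed vertices -/
def fixHom (V : Type) [MulAction F V] (S : Subgroup F) [hS : S.Normal] :
    F →* Equiv.Perm (Fix V S) where
  toFun f :=
    { toFun := fun v => ⟨f • (v : V), fun s hs => by
        have h1 := v.2 _ (hS.conj_mem s hs f⁻¹)
        rw [inv_inv, mul_smul, mul_smul, inv_smul_eq_iff] at h1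
        exact h1⟩
      invFun := fun v => ⟨f⁻¹ • (v : V), fun s hs => by
        have h1 := v.2 _ (hS.conj_mem s hs f)
        rw [mul_smul, mul_smul] at h1
        exact (eq_inv_smul_iff.2 h1)⟩
      left_inv := fun v => Subtype.ext (by simp)
      right_inv := fun v => Subtype.ext (by simp) }
  map_one' := by
    ext v
    simp
  map_mul' := fun f g => by
    ext v
    simp [mul_smul]

theorem fixHom_apply (S : Subgroup F) [S.Normal] (f : F) (v : Fix V S) :
    ((fixHom V S f v : Fix V S) : V) = f • (v : V) := rfl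

theorem le_ker_fixHom (S : Subgroup F) [S.Normal] : S ≤ (fixHom V S).ker := by
  intro s hs
  rw [MonoidHom.mem_ker]
  ext v
  rw [fixHom_apply]
  exact v.2 s hs

end tree

section main

variable {C : ∀ (G : Type) [Group G], Prop}

/-- quotients by finite normal subgroups -/
theorem acyl_finite (hC : Q182.Cyl.ClosedA C) {H X F V : Type} [Group H] [Group X] [Group F]
    [MulAction F V] {T : SimpleGraph V} (hT : TreeAct F T) {k : ℕ} (hk : Acyl F T k)
    (p : H →* F) (hp : Function.Surjective p) (f : H →* X) (hf : Function.Surjective f)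
    (hS : Finite (f.ker.map p)) (hst : ∀ v : V, C (((MulAction.stabilizer F v).comap p).map f))
    (hvc : ∀ W : Subgroup F, VC W → C ((W.comap p).map f)) : C X := by
  classical
  have hn : (f.ker.map p).Normal := Subgroup.Normal.map inferInstance p hp
  let S : Subgroup F := f.ker.map p
  obtain ⟨v₀, hv₀⟩ := finite_fix (treeAct_sub hT S) hS
  have hne : (Fix V S).Nonempty := ⟨v₀, fun s hs => hv₀ ⟨s, hs⟩⟩
  let q : F →* F ⧸ S := QuotientGroup.mk' S
  have hfq : f.ker ≤ (q.comp p).ker := by
    intro x hx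
    exact (QuotientGroup.eq_one_iff _).2 (Subgroup.mem_map_of_mem p hx)
  let π : X →* F ⧸ S := f.liftOfSurjective hf ⟨q.comp p, hfq⟩
  have hπ : ∀ h : H, π (f h) = q (p h) := fun h =>
    MonoidHom.liftOfRightInverse_comp_apply f _ _ ⟨q.comp p, hfq⟩ h
  let act : MulAction (F ⧸ S) (Fix V S) :=
    MulAction.compHom (Fix V S) (QuotientGroup.lift S (fixHom V S) (le_ker_fixHom S))
  have hact : ∀ (g : F) (v : Fix V S), (((q g) • v : Fix V S) : V) = g • (v : V) :=
    fun _ _ => rfl
  refine hC.acyl X (F ⧸ S) (Fix V S) π (T.induce (Fix V S)) k ?_ (isTree_fix hT S hne) ?_ ?_ ?_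
    ?_ ?_
  · intro y
    obtain ⟨g, rfl⟩ := QuotientGroup.mk'_surjective S y
    obtain ⟨h, rfl⟩ := hp g
    exact ⟨f h, hπ h⟩
  · intro y v w hvw
    obtain ⟨g, rfl⟩ := QuotientGroup.mk'_surjective S y
    exact hT.adj g v w hvw
  · intro y v w hvw hinv
    obtain ⟨g, rfl⟩ := QuotientGroup.mk'_surjective S y
    exact hT.noInv g v w hvw ⟨congrArg Subtype.val hinv.1, congrArg Subtype.val hinv.2⟩
  · intro v w hvw
    have h1 := hk v w (hvw.trans (dist_fix hT S v w))
    refine (h1.image q).subset ?_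
    rintro y ⟨hy1, hy2⟩
    obtain ⟨g, rfl⟩ := QuotientGroup.mk'_surjective S y
    exact ⟨g, ⟨congrArg Subtype.val hy1, congrArg Subtype.val hy2⟩, rfl⟩
  · intro v
    have h1 : (MulAction.stabilizer (F ⧸ S) v).comap π =
        ((MulAction.stabilizer F (v : V)).comap p).map f := by
      ext x
      obtain ⟨h, rfl⟩ := hf x
      rw [Subgroup.mem_comap, hπ, MulAction.mem_stabilizer_iff]
      constructor
      · intro h2
        have h3 := congrArg Subtype.val h2
        rw [hact] at h3
        exact ⟨h, h3, rfl⟩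
      · rintro ⟨h', h2, h3⟩
        rw [← hπ, ← h3, hπ]
        exact Subtype.ext h2
    rw [h1]
    exact hst v
  · intro W hW
    have h1 : W.comap π = ((W.comap q).comap p).map f := by
      ext x
      obtain ⟨h, rfl⟩ := hf x
      rw [Subgroup.mem_comap, hπ]
      constructor
      · intro h2
        exact ⟨h, h2, rfl⟩
      · rintro ⟨h', h2, h3⟩
        rw [← hπ, ← h3, hπ]
        exact h2
    rw [h1]
    exact hvc _ (vc_comap S hS W hW)

theorem closedA_ext (hC : Q182.Cyl.ClosedA C) : ExtClosed C := by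
  intro G Q _ _ f hf hQ hK hZ
  refine hC.base.ext G Q f hf hQ ?_
  rintro W ⟨c, hc, h⟩
  -- the preimage of the cyclic subgroup has finite index
  have h1 : (((Subgroup.zpowers c).comap f).subgroupOf (W.comap f)).FiniteIndex :=
    ⟨Subgroup.relIndex_comap_ne_zero f h⟩
  refine hC.base.base.finiteIndex _ _ h1 ?_
  have h2 : C ((Subgroup.zpowers c).comap f) := by
    by_cases hfin : IsOfFinOrder c
    · have h3 : Finite (Subgroup.zpowers c) := Set.Finite.to_subtype (finite_zpowers.2 hfin)
      let g : (Subgroup.zpowers c).comap f →* Subgroup.zpowers c :=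
        (f.comp (Subgroup.subtype _)).codRestrict _ (fun x => x.2)
      have h4 : g.ker.FiniteIndex := Subgroup.finiteIndex_ker g
      refine hC.base.base.finiteIndex _ _ h4 ?_
      refine hC.base.base.of_injective _ f.ker
        (((Subgroup.subtype _).comp (Subgroup.subtype _)).codRestrict _ (fun x => ?_)) ?_ hK
      · exact congrArg Subtype.val x.2
      · intro x y hxy
        have hxy' := congrArg Subtype.val hxy
        exact Subtype.ext (Subtype.ext hxy')
    · exact hZ c hfin
  refine hC.base.base.of_injective _ _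
    (((Subgroup.subtype _).comp (Subgroup.subtype _)).codRestrict _ (fun x => x.2)) ?_ h2
  intro x y hxy
  have hxy' := congrArg Subtype.val hxy
  exact Subtype.ext (Subtype.ext hxy')

/-- **acylindrical actions on trees** -/
theorem QC.acyl (hC : Q182.Cyl.ClosedA C) {G F V : Type} [Group G] [Group F]
    [MulAction F V] {T : SimpleGraph V} (hT : TreeAct F T) {k : ℕ} (hk : Acyl F T k)
    (π : G →* F) (hst : ∀ v : V, QC C ((MulAction.stabilizer F v).comap π))
    (hvc : ∀ W : Subgroup F, VC W → QC C (W.comap π)) : QC C G := by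
  classical
  intro H X _ _ i f hi hf hkf
  -- reduction to finitely generated groups
  refine Pool.Agent.Y430.SS.of_directed hC.base.base X (Finset H) (fun s t => ?_)
    (fun s => (Subgroup.closure (s : Set H)).map f)
    (fun s t h => Subgroup.map_mono (Subgroup.closure_mono (by exact_mod_cast h))) (fun x => ?_)
    (fun s => ?_)
  · exact ⟨s ∪ t, Finset.subset_union_left, Finset.subset_union_right⟩
  · obtain ⟨h, rfl⟩ := hf x
    exact ⟨{h}, Subgroup.mem_map_of_mem f (Subgroup.subset_closure (by simp))⟩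
  obtain ⟨H₀, hH₀⟩ : ∃ H₀ : Subgroup H, H₀ = Subgroup.closure (s : Set H) := ⟨_, rfl⟩
  rw [← hH₀]
  have hfg : Group.FG H₀ := (Group.fg_iff_subgroup_fg H₀).2 ⟨s, hH₀.symm⟩
  let p : H₀ →* F := π.comp (i.comp H₀.subtype)
  let p' : H₀ →* p.range := p.rangeRestrict
  let f₀ : H₀ →* H₀.map f := f.subgroupMap H₀
  have hf₀ : Function.Surjective f₀ := f.subgroupMap_surjective H₀
  have hk₀ : VS f₀.ker := by
    refine VS.of_injective (G := f₀.ker) (H := f.ker)
      (((Subgroup.subtype _).comp (Subgroup.subtype _)).codRestrict _ (fun x => ?_)) ?_ hkf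
    · exact congrArg Subtype.val x.2
    · intro x y hxy
      have hxy' := congrArg Subtype.val hxy
      exact Subtype.ext (Subtype.ext hxy')
  have hT' : TreeAct p.range T := treeAct_sub hT p.range
  have hk' : Acyl p.range T k := by
    intro v w hvw
    refine Set.Finite.of_finite_image ((hk v w hvw).subset ?_)
      (f := ((↑) : p.range → F)) (Subtype.val_injective.injOn)
    rintro _ ⟨x, ⟨h1, h2⟩, rfl⟩
    exact ⟨h1, h2⟩
  have hmem : ∀ (A : Subgroup H₀) (D : Subgroup G), QC C D → (∀ x ∈ A, i (x : H) ∈ D) →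
      C (A.map f₀) := by
    intro A D hD hA
    refine hD.image f₀ hk₀ A (((i.comp H₀.subtype).comp A.subtype).codRestrict D
      (fun x => hA x.1 x.2)) ?_
    intro x y hxy
    have hxy' := hi (congrArg Subtype.val hxy)
    exact Subtype.ext (Subtype.ext hxy')
  have htop : ∀ D : Subgroup G, QC C D → (∀ x : H₀, i (x : H) ∈ D) → C (H₀.map f) := by
    intro D hD hA
    have h1 := hmem ⊤ D hD (fun x _ => hA x)
    have h2 : (⊤ : Subgroup H₀).map f₀ = ⊤ := by
      rw [← MonoidHom.range_eq_map]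
      exact MonoidHom.range_eq_top.2 hf₀
    rw [h2] at h1
    exact Pool.Agent.Y812.SS.C_equiv hC.base.base Subgroup.topEquiv.symm h1
  by_cases hfin : Finite (f₀.ker.map p')
  · refine acyl_finite hC hT' hk' p' p.rangeRestrict_surjective f₀ hf₀ hfin (fun v => ?_)
      (fun W hW => ?_)
    · exact hmem _ _ (hst v) (fun x hx => hx)
    · have h1 : VC (W.map p.range.subtype) := by
        obtain ⟨c, hc, h⟩ := hW
        refine ⟨c, Subgroup.mem_map_of_mem _ hc, ?_⟩
        have h2 : Subgroup.zpowers (c : F) = (Subgroup.zpowers c).map p.range.subtype := by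
          rw [MonoidHom.map_zpowers]
          rfl
        rw [h2, Subgroup.relIndex_map_map_of_injective _ _ p.range.subtype_injective]
        exact h
      exact hmem _ _ (hvc _ h1) (fun x hx => ⟨p' x, hx, rfl⟩)
  · rw [not_finite_iff_infinite] at hfin
    have hn : (f₀.ker.map p').Normal :=
      Subgroup.Normal.map inferInstance p' p.rangeRestrict_surjective
    have hvs : VS (f₀.ker.map p') := VS.of_surjective _ (p'.subgroupMap_surjective f₀.ker) hk₀
    rcases main_inf hT' inferInstance hk' (f₀.ker.map p') hvs hfin with ⟨v, hv⟩ | ⟨c, hc⟩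
    · exact htop _ (hst v) (fun x => hv (p' x))
    · have h1 : VC p.range := by
        refine ⟨c, c.2, ?_⟩
        have h2 : (Subgroup.zpowers (c : F)).subgroupOf p.range = Subgroup.zpowers c := by
          ext x
          rw [Subgroup.mem_subgroupOf]
          constructor
          · rintro ⟨n, hn⟩
            exact ⟨n, Subtype.ext hn⟩
          · rintro ⟨n, hn⟩
            exact ⟨n, congrArg Subtype.val hn⟩
        rw [Subgroup.relIndex, h2]
        exact hc.index_ne_zero
      exact htop _ (hvc _ h1) (fun x => ⟨x, rfl⟩)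

/-- quotients by normal subgroups which meet all finitely generated subgroups in virtually solvable
groups -/
theorem QC.quot_loc (hC : Closed C) {G Q : Type} [Group G] [Group Q] (f : G →* Q)
    (hf : Function.Surjective f)
    (hk : ∀ L : Subgroup G, L.FG → VS (f.ker ⊓ L : Subgroup G)) (h : QC C G) : QC C Q := by
  classical
  refine QC.union hC (Finset G) (fun s t => ?_)
    (fun s => (Subgroup.closure (s : Set G)).map f)
    (fun s t h => Subgroup.map_mono (Subgroup.closure_mono (by exact_mod_cast h))) (fun x => ?_)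
    (fun s => ?_)
  · exact ⟨s ∪ t, Finset.subset_union_left, Finset.subset_union_right⟩
  · obtain ⟨g, rfl⟩ := hf x
    exact ⟨{g}, Subgroup.mem_map_of_mem f (Subgroup.subset_closure (by simp))⟩
  · refine QC.quot (f.subgroupMap (Subgroup.closure (s : Set G))) (f.subgroupMap_surjective _) ?_
      (QC.of_injective (Subgroup.subtype _) (Subgroup.subtype_injective _) h)
    refine VS.of_injective (G := (f.subgroupMap (Subgroup.closure (s : Set G))).ker)
      (H := (f.ker ⊓ Subgroup.closure (s : Set G) : Subgroup G))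
      (((Subgroup.subtype _).comp (Subgroup.subtype _)).codRestrict _ (fun x => ?_)) ?_
      (hk _ ⟨s, rfl⟩)
    · refine ⟨?_, x.1.2⟩
      have h3 := x.2
      rw [MonoidHom.mem_ker] at h3
      exact congrArg Subtype.val h3
    · intro x y hxy
      have h3 := congrArg Subtype.val hxy
      exact Subtype.ext (Subtype.ext h3)

end main

end Pool.Agent.Helper84.FJ
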