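import Pool.Agent.Helper84.FJ.E

/-!
# Automorphism groups
-/

set_option autoImplicit false

open scoped commutatorElement TensorProduct

namespace Pool.Agent.Helper84.FJ

section lin

variable {P : ∀ (K : Type) [Field K], Prop}

/-- groups which act on torsion-free modules of finite rank -/
theorem lin_rep {R : Type} [CommRing R] [IsDomain R] (K : Type) [Field K] [Algebra R K]
    [IsFractionRing R K] (hK : P K) {X : Type} [AddCommGroup X] [Module R X]
    (htf : ∀ (r : R) (x : X), r • x = 0 → r = 0 ∨ x = 0) (s : Finset X)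
    (hs : ∀ x : X, ∃ r : R, r ≠ 0 ∧ r • x ∈ Submodule.span R (s : Set X)) {Γ : Type} [Group Γ]
    (θ : Γ →* (Module.End R X)ˣ) : LK P θ.ker := by
  classical
  have hfin : Module.Finite K (K ⊗[R] X) := by
    refine ⟨⟨s.image (fun x => (1 : K) ⊗ₜ[R] x), ?_⟩⟩
    rw [eq_top_iff]
    have h1 : ∀ x ∈ Submodule.span R (s : Set X), (1 : K) ⊗ₜ[R] x ∈
        Submodule.span K ((s.image (fun x => (1 : K) ⊗ₜ[R] x) : Finset (K ⊗[R] X)) :
          Set (K ⊗[R] X)) := by
      intro x hx
      induction hx using Submodule.span_induction with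
      | mem x hx =>
        exact Submodule.subset_span (by
          rw [Finset.coe_image]
          exact ⟨x, hx, rfl⟩)
      | zero => rw [TensorProduct.tmul_zero]; exact zero_mem _
      | add x y _ _ hx hy => rw [TensorProduct.tmul_add]; exact add_mem hx hy
      | smul r x _ hx =>
        have h2 : (1 : K) ⊗ₜ[R] (r • x) = (algebraMap R K r) • ((1 : K) ⊗ₜ[R] x) := by
          rw [TensorProduct.tmul_smul, algebraMap_smul]
        rw [h2]
        exact Submodule.smul_mem _ _ hx
    rintro z -
    induction z using TensorProduct.induction_on with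
    | zero => exact zero_mem _
    | add x y hx hy => exact add_mem hx hy
    | tmul k x =>
      obtain ⟨r, hr, hrx⟩ := hs x
      have hr' : algebraMap R K r ≠ 0 := by
        intro h0
        exact hr ((IsFractionRing.injective R K) (by rw [h0, map_zero]))
      have h2 : k ⊗ₜ[R] x = (k * (algebraMap R K r)⁻¹) • ((1 : K) ⊗ₜ[R] (r • x)) := by
        rw [TensorProduct.tmul_smul, ← algebraMap_smul K r ((1 : K) ⊗ₜ[R] x), smul_smul,
          mul_assoc, inv_mul_cancel₀ hr', mul_one, TensorProduct.smul_tmul', smul_eq_mul, mul_one]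
      rw [h2]
      exact Submodule.smul_mem _ _ (h1 _ hrx)
  let ρ : Γ →* (Module.End K (K ⊗[R] X))ˣ :=
    (Units.map ((Module.End.baseChangeHom R K X : Module.End R X →ₐ[R] Module.End K (K ⊗[R] X)) :
      Module.End R X →* Module.End K (K ⊗[R] X))).comp θ
  have hρ : ∀ γ x, ((ρ γ : (Module.End K (K ⊗[R] X))ˣ) : Module.End K (K ⊗[R] X))
      ((1 : K) ⊗ₜ[R] x) = (1 : K) ⊗ₜ[R] (((θ γ : (Module.End R X)ˣ) : Module.End R X) x) :=
    fun _ _ => rfl
  have hker : θ.ker = ρ.ker := by
    ext γ
    rw [MonoidHom.mem_ker, MonoidHom.mem_ker]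
    constructor
    · intro h
      change (Units.map _) (θ γ) = 1
      rw [h, map_one]
    · intro h
      apply Units.ext
      ext x
      have h1 := hρ γ x
      rw [h] at h1
      have h2 : (TensorProduct.mk R K X 1) x =
          (TensorProduct.mk R K X 1) (((θ γ : (Module.End R X)ˣ) : Module.End R X) x) := h1
      obtain ⟨c, hc⟩ := (IsLocalizedModule.eq_iff_exists (nonZeroDivisors R)
        (TensorProduct.mk R K X 1)).1 h2
      have h3 : (c : R) • (x - ((θ γ : (Module.End R X)ˣ) : Module.End R X) x) = 0 := by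
        rw [smul_sub, sub_eq_zero]
        exact hc
      rcases htf _ _ h3 with h4 | h4
      · exact absurd h4 (nonZeroDivisors.ne_zero c.2)
      · exact (sub_eq_zero.1 h4).symm
  rw [hker]
  exact LK.rep K hK (Module.End K (K ⊗[R] X)) ρ

end lin

section aut

variable {P : ∀ (K : Type) [Field K], Prop} {G : Type} [Group G]

theorem char_map (N : Subgroup G) [hN : N.Characteristic] (u : MulAut G) :
    N.map (u : G ≃* G).toMonoidHom = N := Subgroup.characteristic_iff_map_eq.1 hN u

theorem char_mem (N : Subgroup G) [hN : N.Characteristic] (u : MulAut G) {x : G} (hx : x ∈ N) :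
    u x ∈ N := by
  have h1 := Subgroup.mem_map_of_mem (u : G ≃* G).toMonoidHom hx
  rw [char_map] at h1
  exact h1

/-- the induced automorphism of the quotient by a characteristic subgroup -/
noncomputable def quoA (N : Subgroup G) [N.Characteristic] : MulAut G →* MulAut (G ⧸ N) where
  toFun u := QuotientGroup.congr N N u (char_map N u)
  map_one' := by
    ext x
    obtain ⟨g, rfl⟩ := QuotientGroup.mk_surjective x
    rfl
  map_mul' a b := by
    ext x
    obtain ⟨g, rfl⟩ := QuotientGroup.mk_surjective x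
    rfl

theorem quoA_mk (N : Subgroup G) [N.Characteristic] (u : MulAut G) (g : G) :
    quoA N u (QuotientGroup.mk g) = QuotientGroup.mk (u g) := rfl

theorem mem_ker_quoA {N : Subgroup G} [N.Characteristic] {u : MulAut G} :
    u ∈ (quoA N).ker ↔ ∀ g, g⁻¹ * u g ∈ N := by
  rw [MonoidHom.mem_ker]
  constructor
  · intro h g
    have h1 := quoA_mk N u g
    rw [h] at h1
    exact QuotientGroup.eq.1 h1
  · intro h
    ext x
    obtain ⟨g, rfl⟩ := QuotientGroup.mk_surjective x
    rw [quoA_mk]
    exact (QuotientGroup.eq.2 (h g)).symm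

/-- the restriction to a characteristic subgroup -/
def subA (N : Subgroup G) [N.Characteristic] : MulAut G →* MulAut N where
  toFun u :=
    { toFun := fun x => ⟨u x, char_mem N u x.2⟩
      invFun := fun x => ⟨u⁻¹ x, char_mem N u⁻¹ x.2⟩
      left_inv := fun x => Subtype.ext (MulAut.inv_apply_self G u x)
      right_inv := fun x => Subtype.ext (MulAut.apply_inv_self G u x)
      map_mul' := fun x y => Subtype.ext (map_mul u (x : G) y) }
  map_one' := by
    ext x
    rfl
  map_mul' a b := by
    ext x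
    rfl

theorem subA_apply (N : Subgroup G) [N.Characteristic] (u : MulAut G) (x : N) :
    ((subA N u x : N) : G) = u x := rfl

theorem mem_ker_subA {N : Subgroup G} [N.Characteristic] {u : MulAut G} :
    u ∈ (subA N).ker ↔ ∀ x ∈ N, u x = x := by
  rw [MonoidHom.mem_ker]
  constructor
  · intro h x hx
    have h1 := subA_apply N u ⟨x, hx⟩
    rw [h] at h1
    exact h1.symm
  · intro h
    ext x
    rw [subA_apply]
    exact h x x.2

/-- the automorphisms which are trivial on `N` and on `G / N` commute -/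
theorem stab_comm (N : Subgroup G) [N.Characteristic] :
    ⁅(quoA N).ker ⊓ (subA N).ker, (quoA N).ker ⊓ (subA N).ker⁆ = ⊥ := by
  rw [eq_bot_iff, Subgroup.commutator_le]
  intro u hu v hv
  rw [Subgroup.mem_inf, mem_ker_quoA, mem_ker_subA] at hu hv
  obtain ⟨hu1, hu2⟩ := hu
  obtain ⟨hv1, hv2⟩ := hv
  rw [Subgroup.mem_bot, commutatorElement_eq_one_iff_mul_comm]
  ext g
  change u (v g) = v (u g)
  obtain ⟨m, hm, hum⟩ : ∃ m ∈ N, u g = g * m := ⟨_, hu1 g, by group⟩
  obtain ⟨n, hn, hvn⟩ : ∃ n ∈ N, v g = g * n := ⟨_, hv1 g, by group⟩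
  have hc : m * n = n * m := by
    have h1 : g * n * g⁻¹ ∈ N := (inferInstance : N.Normal).conj_mem n hn g
    have h2 := hu2 _ h1
    rw [map_mul, map_mul, map_inv, hu2 n hn, hum] at h2
    have h3 : g * m * n * (g * m)⁻¹ = g * n * g⁻¹ := h2
    have h4 : m * n * m⁻¹ = n := by
      have h5 := congrArg (fun z => g⁻¹ * z * g) h3
      simpa [mul_assoc] using h5
    rw [mul_inv_eq_iff_eq_mul] at h4
    exact h4
  rw [hvn, hum, map_mul, map_mul, hum, hvn, hu2 n hn, hv2 m hm, mul_assoc, mul_assoc, hc]

theorem VS.of_SM_ker {H : Type} [Group H] (f : G →* H) (h : SM f.ker ⊥) : VS f.ker :=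
  VS.of_solvable ((solvable_iff _).2 h)

/-- a characteristic subgroup with a good action -/
theorem vsl_step (N : Subgroup G) [N.Characteristic] (h1 : VSL P (MulAut (G ⧸ N)))
    (h2 : VSL P (MulAut N)) : VSL P (MulAut G) := by
  refine VSL.ext ((quoA N).prod (subA N)) (VS.of_SM_ker _ ⟨1, ?_⟩) (h1.prod h2)
  have h3 : ((quoA N).prod (subA N)).ker = (quoA N).ker ⊓ (subA N).ker := MonoidHom.ker_prod _ _
  rw [h3]
  exact (stab_comm N).le

/-- finite characteristic subgroups -/
theorem vsl_finite (N : Subgroup G) [N.Characteristic] (h1 : VSL P (MulAut (G ⧸ N)))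
    (hN : Finite N) : VSL P (MulAut G) := by
  refine vsl_step N h1 (VSL.of_vs ?_)
  have h2 : Finite (MulAut N) := Finite.of_injective (fun f : MulAut N => (f : N → N))
    (fun a b h => DFunLike.coe_injective h)
  exact ⟨⊥, inferInstance, SM.of_le le_rfl⟩

/-- torsion-free abelian of finite rank -/
def TFR (A : Type) [Group A] : Prop :=
  (∀ a b : A, a * b = b * a) ∧ (∀ (a : A) (n : ℕ), 0 < n → a ^ n = 1 → a = 1) ∧
    ∃ s : Finset A, ∀ a : A, ∃ n : ℕ, 0 < n ∧ a ^ n ∈ Subgroup.closure (s : Set A)

theorem vsl_tfr (A : Type) [iA : Group A] (hA : TFR A) (hQ : P ℚ) : VSL P (MulAut A) := by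
  classical
  obtain ⟨hcomm, htf, s, hs⟩ := hA
  let _ : CommGroup A := { iA with mul_comm := hcomm }
  let θ : MulAut A →* (Module.End ℤ (Additive A))ˣ :=
    MonoidHom.toHomUnits
      { toFun := fun u => (MonoidHom.toAdditive u.toMonoidHom).toIntLinearMap
        map_one' := rfl
        map_mul' := fun _ _ => rfl }
  have hθ : ∀ (u : MulAut A) (a : A), ((θ u : (Module.End ℤ (Additive A))ˣ) :
      Module.End ℤ (Additive A)) (Additive.ofMul a) = Additive.ofMul (u a) := fun _ _ => rfl
  have h1 : LK P θ.ker := by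
    refine lin_rep (R := ℤ) ℚ hQ (X := Additive A) ?_ (s.image Additive.ofMul) ?_ θ
    · intro r x hx
      by_cases hr : r = 0
      · exact Or.inl hr
      · right
        have h2 : (Additive.toMul x) ^ r = 1 := hx
        have h3 : (Additive.toMul x) ^ r.natAbs = 1 := by
          rcases Int.natAbs_eq r with h | h
          · rw [h, zpow_natCast] at h2
            exact h2
          · rw [h, zpow_neg, zpow_natCast, inv_eq_one] at h2
            exact h2
        exact htf _ _ (Int.natAbs_pos.2 hr) h3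
    · intro x
      obtain ⟨n, hn, h2⟩ := hs (Additive.toMul x)
      refine ⟨n, by exact_mod_cast hn.ne', ?_⟩
      have h3 : ∀ y : A, y ∈ Subgroup.closure (s : Set A) → Additive.ofMul y ∈
          Submodule.span ℤ ((s.image Additive.ofMul : Finset (Additive A)) :
            Set (Additive A)) := by
        intro y hy
        induction hy using Subgroup.closure_induction with
        | mem y hy => exact Submodule.subset_span (by
            rw [Finset.coe_image]
            exact ⟨y, hy, rfl⟩)
        | one => exact zero_mem _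
        | mul a b _ _ ha hb => exact add_mem ha hb
        | inv a _ ha => exact neg_mem ha
      have h4 := h3 _ h2
      have h5 : ((n : ℤ) • x : Additive A) = Additive.ofMul ((Additive.toMul x) ^ n) := by
        rw [natCast_zsmul]
        rfl
      rw [h5]
      exact h4
  refine SL.vsl ⟨θ.ker, h1, SM.of_le ?_⟩
  intro u hu
  rw [Subgroup.mem_bot]
  ext a
  have h2 := hθ u a
  rw [MonoidHom.mem_ker] at hu
  rw [hu] at h2
  exact h2.symm

/-- the actions of `G` by conjugation on an abelian normal subgroup -/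
theorem cyc_comm (N : Subgroup G) [N.Characteristic] (hab : ∀ a ∈ N, ∀ b ∈ N, a * b = b * a)
    (hc : ∀ g h : G, ∀ n ∈ N, ⁅g, h⁆ * n = n * ⁅g, h⁆) (x : G) (hx : N = Subgroup.normalClosure {x})
    {u v : MulAut G} (hu : u ∈ (quoA N).ker) (hv : v ∈ (quoA N).ker) :
    ∀ n ∈ N, u (v n) = v (u n) := by
  classical
  let _ : CommGroup N := { (inferInstance : Group N) with
    mul_comm := fun a b => Subtype.ext (hab a a.2 b b.2) }
  have hxN : x ∈ N := by
    rw [hx]
    exact Subgroup.subset_normalClosure rfl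
  -- conjugations as endomorphisms
  let c : G →* AddMonoid.End (Additive N) :=
    { toFun := fun g => MonoidHom.toAdditive ((MulAut.conjNormal g : MulAut N).toMonoidHom)
      map_one' := by
        ext n
        change (1 : G) * (Additive.toMul n : N) * (1 : G)⁻¹ = (Additive.toMul n : N)
        simp
      map_mul' := fun g h => by
        ext n
        change (g * h) * ((Additive.toMul n : N) : G) * (g * h)⁻¹ =
          g * (h * ((Additive.toMul n : N) : G) * h⁻¹) * g⁻¹
        group }
  have hcv : ∀ (g : G) (n : N), ((Additive.toMul (c g (Additive.ofMul n)) : N) : G) =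
      g * n * g⁻¹ := fun _ _ => rfl
  have hcc : ∀ a ∈ Set.range c, ∀ b ∈ Set.range c, a * b = b * a := by
    rintro _ ⟨g, rfl⟩ _ ⟨h, rfl⟩
    rw [← map_mul, ← map_mul]
    ext n
    change (g * h) * ((Additive.toMul n : N) : G) * (g * h)⁻¹ =
      (h * g) * ((Additive.toMul n : N) : G) * (h * g)⁻¹
    have h1 := hc h⁻¹ g⁻¹ (h * g * ((Additive.toMul n : N) : G) * (h * g)⁻¹)
      ((inferInstance : N.Normal).conj_mem _ (Additive.toMul n).2 (h * g))
    have h2 := hc g h (h * g * ((Additive.toMul n : N) : G) * (h * g)⁻¹)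
      ((inferInstance : N.Normal).conj_mem _ (Additive.toMul n).2 (h * g))
    have h3 : g * h = ⁅g, h⁆ * (h * g) := by
      rw [commutatorElement_def]
      group
    calc (g * h) * ((Additive.toMul n : N) : G) * (g * h)⁻¹
        = ⁅g, h⁆ * (h * g * ((Additive.toMul n : N) : G) * (h * g)⁻¹) * ⁅g, h⁆⁻¹ := by
          rw [h3]
          group
      _ = (h * g) * ((Additive.toMul n : N) : G) * (h * g)⁻¹ := by
          rw [h2, mul_inv_cancel_right]
  let R : Subring (AddMonoid.End (Additive N)) := Subring.closure (Set.range c)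
  have hRc : ∀ a ∈ R, ∀ b ∈ R, a * b = b * a := by
    intro a ha b hb
    have hcm := Subring.isMulCommutative_closure hcc
    have h1 : (⟨a, ha⟩ * ⟨b, hb⟩ : Subring.closure (Set.range c)) = ⟨b, hb⟩ * ⟨a, ha⟩ :=
      hcm.is_comm.comm _ _
    exact congrArg Subtype.val h1
  -- the module is cyclic
  let Y : Subgroup G :=
    { carrier := {n | ∃ r ∈ R, ((Additive.toMul (r (Additive.ofMul ⟨x, hxN⟩)) : N) : G) = n}
      mul_mem' := by
        rintro _ _ ⟨r, hr, rfl⟩ ⟨s, hs, rfl⟩
        exact ⟨r + s, add_mem hr hs, rfl⟩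
      one_mem' := ⟨0, zero_mem _, rfl⟩
      inv_mem' := by
        rintro _ ⟨r, hr, rfl⟩
        exact ⟨-r, neg_mem hr, rfl⟩ }
  have hYn : Y.Normal := by
    refine ⟨?_⟩
    rintro _ ⟨r, hr, rfl⟩ g
    exact ⟨c g * r, mul_mem (Subring.subset_closure ⟨g, rfl⟩) hr, rfl⟩
  have hY : N ≤ Y := by
    rw [hx]
    refine Subgroup.normalClosure_le_normal ?_
    rintro _ rfl
    exact ⟨1, one_mem _, rfl⟩
  -- automorphisms which are trivial on the quotient are linear
  let toE : MulAut G → AddMonoid.End (Additive N) := fun w =>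
    MonoidHom.toAdditive ((subA N w).toMonoidHom)
  have hlin : ∀ w : MulAut G, w ∈ (quoA N).ker → ∀ r ∈ R, toE w * r = r * toE w := by
    intro w hw r hr
    rw [mem_ker_quoA] at hw
    induction hr using Subring.closure_induction with
    | mem r hr =>
      obtain ⟨g, rfl⟩ := hr
      ext n
      change w (g * ((Additive.toMul n : N) : G) * g⁻¹) = g * w ((Additive.toMul n : N) : G) * g⁻¹
      obtain ⟨m, hm, hwm⟩ : ∃ m ∈ N, w g = g * m := ⟨_, hw g, by group⟩
      rw [map_mul, map_mul, map_inv, hwm]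
      have h1 := hab m hm _ (char_mem N w (Additive.toMul n).2)
      calc g * m * w ((Additive.toMul n : N) : G) * (g * m)⁻¹
          = g * (m * w ((Additive.toMul n : N) : G)) * m⁻¹ * g⁻¹ := by group
        _ = g * w ((Additive.toMul n : N) : G) * g⁻¹ := by
          rw [h1]
          group
    | zero => rw [mul_zero, zero_mul]
    | one => rw [mul_one, one_mul]
    | add a b _ _ ha hb => rw [mul_add, add_mul, ha, hb]
    | neg a _ ha => exact (Commute.neg_right (show Commute (toE w) a from ha)).eq
    | mul a b _ _ ha hb => rw [← mul_assoc, ha, mul_assoc, hb, mul_assoc]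
  have hex : ∀ n ∈ N, ∃ r ∈ R, ((Additive.toMul (r (Additive.ofMul ⟨x, hxN⟩)) : N) : G) = n :=
    fun n hn => hY hn
  let U : AddMonoid.End (Additive N) := toE u
  let W : AddMonoid.End (Additive N) := toE v
  let X : Additive N := Additive.ofMul ⟨x, hxN⟩
  obtain ⟨r, hr, hrx⟩ := hex (u x) (char_mem N u hxN)
  obtain ⟨s, hs, hsx⟩ := hex (v x) (char_mem N v hxN)
  have hU : U X = r X := by
    apply Additive.toMul.injective
    exact Subtype.ext hrx.symm
  have hW : W X = s X := by
    apply Additive.toMul.injective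
    exact Subtype.ext hsx.symm
  intro n hn
  obtain ⟨t, ht, rfl⟩ := hex n hn
  have hUr : ∀ a ∈ R, ∀ z, U (a z) = a (U z) := fun a ha z =>
    DFunLike.congr_fun (hlin u hu a ha) z
  have hWr : ∀ a ∈ R, ∀ z, W (a z) = a (W z) := fun a ha z =>
    DFunLike.congr_fun (hlin v hv a ha) z
  have hrs : ∀ a ∈ R, ∀ b ∈ R, ∀ z, a (b z) = b (a z) := fun a ha b hb z =>
    DFunLike.congr_fun (hRc a ha b hb) z
  have key : U (W (t X)) = W (U (t X)) := by
    rw [hWr t ht, hUr t ht, hW, hUr s hs, hU, hUr t ht, hWr t ht, hU, hWr r hr, hW,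
      hrs r hr s hs]
  exact congrArg (fun z => ((Additive.toMul z : N) : G)) key

/-- characteristic subgroups which are cyclic modules -/
theorem vsl_cyclic (N : Subgroup G) [N.Characteristic] (h1 : VSL P (MulAut (G ⧸ N)))
    (hab : ∀ a ∈ N, ∀ b ∈ N, a * b = b * a)
    (hc : ∀ g h : G, ∀ n ∈ N, ⁅g, h⁆ * n = n * ⁅g, h⁆) (x : G)
    (hx : N = Subgroup.normalClosure {x}) : VSL P (MulAut G) := by
  refine VSL.ext (quoA N) (VS.of_SM_ker _ ?_) h1
  refine SM.trans (T := (quoA N).ker ⊓ (subA N).ker) (SM.of_comm ?_) ⟨1, (stab_comm N).le⟩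
  refine le_inf (comm_le_self _) ?_
  rw [Subgroup.commutator_le]
  intro u hu v hv
  rw [MonoidHom.mem_ker, map_commutatorElement, commutatorElement_eq_one_iff_mul_comm]
  ext n
  exact cyc_comm N hab hc x hx hu hv n n.2

/-- characteristic subgroups in the commutator subgroup of a subgroup which they centralize -/
theorem vsl_central (N : Subgroup G) [N.Characteristic] (h1 : VSL P (MulAut (G ⧸ N)))
    (M : Subgroup G) (hNM : N ≤ ⁅M, M⁆) (hc : ∀ n ∈ N, ∀ m ∈ M, n * m = m * n) :
    VSL P (MulAut G) := by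
  have hMM : ⁅M, M⁆ ≤ M := comm_le_self M
  have hfix : ∀ u ∈ (quoA N).ker, ∀ x ∈ ⁅M, M⁆, u x = x := by
    intro u hu x hx
    rw [mem_ker_quoA] at hu
    rw [Subgroup.commutator_def] at hx
    induction hx using Subgroup.closure_induction with
    | mem x hx =>
      obtain ⟨a, ha, b, hb, rfl⟩ := hx
      obtain ⟨l, hl, hla⟩ : ∃ l ∈ N, u a = a * l := ⟨_, hu a, by group⟩
      obtain ⟨m, hm, hmb⟩ : ∃ m ∈ N, u b = b * m := ⟨_, hu b, by group⟩
      rw [map_commutatorElement, hla, hmb, commutatorElement_def, commutatorElement_def]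
      have h1 : l * b = b * l := hc l hl b hb
      have h2 : m * a = a * m := hc m hm a ha
      have h3 : l * m = m * l := hc l hl m (hMM (hNM hm))
      have e1 : a * l * (b * m) = a * b * (l * m) := by
        rw [mul_assoc a, ← mul_assoc l, h1]; group
      have e2 : b * m * (a * l) = b * a * (l * m) := by
        rw [mul_assoc b, ← mul_assoc m, h2, h3]; group
      calc a * l * (b * m) * (a * l)⁻¹ * (b * m)⁻¹
          = (a * l * (b * m)) * (b * m * (a * l))⁻¹ := by group
        _ = a * b * a⁻¹ * b⁻¹ := by rw [e1, e2]; group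
    | one => exact map_one u
    | mul x y _ _ hx hy => rw [map_mul, hx, hy]
    | inv x _ hx => rw [map_inv, hx]
  refine VSL.ext (quoA N) (VS.of_SM_ker _ ?_) h1
  have h2 : (quoA N).ker ≤ (quoA N).ker ⊓ (subA N).ker :=
    le_inf le_rfl (fun u hu => mem_ker_subA.2 (fun x hx => hfix u hu x (hNM hx)))
  exact ⟨1, (Subgroup.commutator_mono h2 h2).trans (stab_comm N).le⟩

end aut

end Pool.Agent.Helper84.FJ
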