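import Pool.Agent.Helper84.FJ.F

/-!
# Groups acting semilinearly on modules
-/

set_option autoImplicit false

open scoped commutatorElement TensorProduct

namespace Pool.Agent.Helper84.FJ

section assoc

variable {R A : Type} [CommRing R] [AddCommGroup A] [Module R A]

/-- the primes which are annihilators of elements of `A / L` -/
def AssRel (L : Submodule R A) : Set (Ideal R) :=
  {P | P.IsPrime ∧ ∃ x : A, ∀ r : R, r ∈ P ↔ r • x ∈ L}

/-- the associated primes of `A` -/
def AssP (R A : Type) [CommRing R] [AddCommGroup A] [Module R A] : Set (Ideal R) :=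
  {P | P.IsPrime ∧ ∃ x : A, ∀ r : R, r ∈ P ↔ r • x = 0}

theorem assRel_bot : AssRel (⊥ : Submodule R A) = AssP R A := by
  ext P
  simp [AssRel, AssP]

theorem assP_finite [IsNoetherianRing R] [Module.Finite R A] : (AssP R A).Finite := by
  refine (associatedPrimes.finite R A).subset ?_
  rintro P ⟨hP, x, hx⟩
  refine isAssociatedPrime_iff.2 ⟨hP, x, ?_⟩
  ext r
  rw [hx, Submodule.mem_colon_singleton, Submodule.mem_bot]

theorem exists_assRel [IsNoetherianRing R] (L : Submodule R A) {x : A} (hx : x ∉ L) :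
    ∃ P ∈ AssRel L, ∀ r : R, r • x ∈ L → r ∈ P := by
  have hx' : L.mkQ x ≠ 0 := by
    intro h
    exact hx ((Submodule.Quotient.mk_eq_zero L).1 h)
  obtain ⟨P, hP, hle⟩ := exists_le_isAssociatedPrime_of_isNoetherianRing R (L.mkQ x) hx'
  obtain ⟨h1, y, rfl⟩ := isAssociatedPrime_iff.1 hP
  obtain ⟨y, rfl⟩ := L.mkQ_surjective y
  refine ⟨_, ⟨h1, y, fun r => ?_⟩, fun r hr => hle ?_⟩
  · rw [Submodule.mem_colon_singleton, Submodule.mem_bot, ← map_smul]
    exact Submodule.Quotient.mk_eq_zero L
  · rw [Submodule.mem_colon_singleton, Submodule.mem_bot, ← map_smul]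
    exact (Submodule.Quotient.mk_eq_zero L).2 hr

/-- the elements of `A` whose multiples by `P` are in `L` -/
def tor (L : Submodule R A) (P : Ideal R) : Submodule R A where
  carrier := {x | ∀ p ∈ P, p • x ∈ L}
  add_mem' := by
    intro a b ha hb p hp
    rw [smul_add]
    exact add_mem (ha p hp) (hb p hp)
  zero_mem' := by
    intro p _
    rw [smul_zero]
    exact zero_mem _
  smul_mem' := by
    intro c x hx p hp
    rw [smul_comm]
    exact L.smul_mem c (hx p hp)

theorem mem_tor {L : Submodule R A} {P : Ideal R} {x : A} :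
    x ∈ tor L P ↔ ∀ p ∈ P, p • x ∈ L := Iff.rfl

theorem le_tor (L : Submodule R A) (P : Ideal R) : L ≤ tor L P :=
  fun _ hx p _ => L.smul_mem p hx

theorem assRel_tor [IsNoetherianRing R] (L : Submodule R A) (P : Ideal R) :
    AssRel (tor L P) ⊆ AssRel L := by
  classical
  rintro Q ⟨hQ, x, hx⟩
  obtain ⟨s, hs⟩ := (isNoetherianRing_iff_ideal_fg R).1 inferInstance P
  let f : R → Ideal R := fun p =>
    { carrier := {r | r • (p • x) ∈ L}
      add_mem' := by
        intro a b ha hb
        change (a + b) • (p • x) ∈ L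
        rw [add_smul]
        exact add_mem ha hb
      zero_mem' := by
        change (0 : R) • (p • x) ∈ L
        rw [zero_smul]
        exact zero_mem _
      smul_mem' := by
        intro c r hr
        change (c • r) • (p • x) ∈ L
        rw [smul_assoc]
        exact L.smul_mem c hr }
  have hf : ∀ p r, r ∈ f p ↔ r • (p • x) ∈ L := fun _ _ => Iff.rfl
  have h1 : s.inf f ≤ Q := by
    intro r hr
    rw [hx, mem_tor]
    intro p hp
    rw [← hs] at hp
    rw [smul_comm]
    induction hp using Submodule.span_induction with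
    | mem p hp =>
      have h2 : s.inf f ≤ f p := Finset.inf_le hp
      exact (hf p r).1 (h2 hr)
    | zero =>
      rw [zero_smul, smul_zero]
      exact zero_mem _
    | add a b _ _ ha hb =>
      rw [add_smul, smul_add]
      exact add_mem ha hb
    | smul a b _ hb =>
      rw [smul_assoc, smul_comm]
      exact L.smul_mem a hb
  obtain ⟨p, hp, hle⟩ := hQ.inf_le'.1 h1
  refine ⟨hQ, p • x, fun r => ⟨fun hr => ?_, fun hr => hle ((hf p r).2 hr)⟩⟩
  rw [hx, mem_tor] at hr
  have h2 : p ∈ P := by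
    rw [← hs]
    exact Submodule.subset_span hp
  rw [smul_comm]
  exact hr p h2

end assoc

section action

variable {𝒦 : ∀ (K : Type) [Field K], Prop}
variable {R A Γ : Type} [CommRing R] [AddCommGroup A] [Module R A] [Group Γ]

theorem θ_mul (θ : Γ →* AddMonoid.End A) (γ δ : Γ) (a : A) : θ (γ * δ) a = θ γ (θ δ a) := by
  rw [map_mul]
  rfl

theorem θ_one (θ : Γ →* AddMonoid.End A) (a : A) : θ 1 a = a := by
  rw [map_one]
  rfl

/-- the elements which act trivially on `A / L` -/
def ker' (θ : Γ →* AddMonoid.End A) (L : Submodule R A) (hL : ∀ γ, ∀ a ∈ L, θ γ a ∈ L) : Subgroup Γ where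
  carrier := {γ | ∀ a, θ γ a - a ∈ L}
  mul_mem' := by
    intro γ δ hγ hδ a
    have h1 := hL γ _ (hδ a)
    have h2 := hγ a
    rw [θ_mul]
    rw [map_sub] at h1
    have h3 := add_mem h1 h2
    rwa [sub_add_sub_cancel] at h3
  one_mem' := by
    intro a
    rw [θ_one, sub_self]
    exact zero_mem _
  inv_mem' := by
    intro γ hγ a
    have h1 := hγ (θ γ⁻¹ a)
    have h2 : θ γ (θ γ⁻¹ a) = a := by
      rw [← θ_mul, mul_inv_cancel, θ_one]
    rw [h2] at h1
    have h3 := neg_mem h1
    rwa [neg_sub] at h3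

theorem mem_ker' {θ : Γ →* AddMonoid.End A} {L : Submodule R A} {hL : ∀ γ, ∀ a ∈ L, θ γ a ∈ L} {γ : Γ} :
    γ ∈ ker' θ L hL ↔ ∀ a, θ γ a - a ∈ L := Iff.rfl

/-- **the main induction** -/
theorem mod_ind [IsNoetherianRing R] [Module.Finite R A] (θ : Γ →* AddMonoid.End A)
    (σ : Γ → R ≃+* R) (hσ : ∀ γ r a, θ γ (r • a) = σ γ r • θ γ a)
    (hass : ∀ P ∈ AssP R A, ∀ γ r, σ γ r - r ∈ P)
    (h𝒦 : ∀ (P : Ideal R) [P.IsPrime], P ∈ AssP R A → 𝒦 (FractionRing (R ⧸ P)))
    (L : Submodule R A) : ∀ (hL : ∀ γ, ∀ a ∈ L, θ γ a ∈ L), AssRel L ⊆ AssP R A →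
      ∃ N : Subgroup Γ, LK 𝒦 N ∧ SM N (ker' θ L hL) := by
  classical
  have hN : IsNoetherian R A := isNoetherian_of_isNoetherianRing_of_finite R A
  have hwf : WellFoundedGT (Submodule R A) := inferInstance
  induction L using hwf.induction with
  | _ L ih =>
    intro hL hLA
    by_cases htop : L = ⊤
    · refine ⟨⊤, LK.top, SM.of_le (fun γ _ => ?_)⟩
      rw [mem_ker']
      intro a
      rw [htop]
      trivial
    -- a maximal associated prime
    obtain ⟨x₀, hx₀⟩ : ∃ x, x ∉ L := by
      by_contra hcon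
      push Not at hcon
      exact htop (eq_top_iff.2 fun x _ => hcon x)
    obtain ⟨P₀, hP₀, -⟩ := exists_assRel L hx₀
    obtain ⟨P, hP, hmax⟩ : ∃ P ∈ AssRel L, ∀ Q ∈ AssRel L, ¬ P < Q :=
      set_has_maximal_iff_noetherian.2 (inferInstance : IsNoetherian R R) (AssRel L) ⟨P₀, hP₀⟩
    have hPp : P.IsPrime := hP.1
    obtain ⟨y, hy⟩ := hP.2
    have hyL : y ∉ L := by
      intro h
      apply hPp.ne_top
      rw [Ideal.eq_top_iff_one, hy, one_smul]
      exact h
    have hlt : L < tor L P := by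
      refine lt_of_le_of_ne (le_tor L P) (fun h => hyL ?_)
      rw [h, mem_tor]
      intro p hp
      exact (hy p).1 hp
    have hann : ∀ x : A, x ∈ tor L P → x ∉ L → ∀ r : R, r • x ∈ L → r ∈ P := by
      intro x hx hxL r hr
      obtain ⟨Q, hQ, hle⟩ := exists_assRel L hxL
      have h1 : P ≤ Q := fun p hp => hle p (hx p hp)
      have h2 : P = Q := by
        by_contra hne
        exact hmax Q hQ (lt_of_le_of_ne h1 hne)
      rw [h2]
      exact hle r hr
    have hσP : ∀ γ r, σ γ r - r ∈ P := hass P (hLA hP)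
    have hL' : ∀ γ, ∀ a ∈ tor L P, θ γ a ∈ tor L P := by
      intro γ a ha
      rw [mem_tor]
      intro p hp
      have h1 : (σ γ).symm p ∈ P := by
        have h2 := hσP γ ((σ γ).symm p)
        rw [RingEquiv.apply_symm_apply] at h2
        have h3 := sub_mem hp h2
        rwa [sub_sub_cancel] at h3
      have h2 := hL γ _ (ha _ h1)
      rw [hσ, RingEquiv.apply_symm_apply] at h2
      exact h2
    obtain ⟨N₁, hN₁, hSM⟩ := ih (tor L P) hlt hL' ((assRel_tor L P).trans hLA)
    -- the factor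
    let L₀ : Submodule R (tor L P) := L.comap (tor L P).subtype
    have hmem₀ : ∀ a : tor L P, a ∈ L₀ ↔ (a : A) ∈ L := fun _ => Iff.rfl
    let res : ∀ γ, (tor L P) →ₛₗ[(σ γ : R →+* R)] (tor L P) := fun γ =>
      { toFun := fun a => ⟨θ γ a, hL' γ a a.2⟩
        map_add' := fun a b => Subtype.ext (map_add (θ γ) (a : A) b)
        map_smul' := fun r a => Subtype.ext (hσ γ r a) }
    have hres : ∀ γ, L₀ ≤ L₀.comap (res γ) := fun γ a ha => hL γ a ha
    let X := (tor L P) ⧸ L₀
    have htors : Module.IsTorsionBySet R X P := by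
      rintro ⟨a⟩ ⟨p, hp⟩
      change p • (Submodule.Quotient.mk a : X) = 0
      rw [← Submodule.Quotient.mk_smul, Submodule.Quotient.mk_eq_zero, hmem₀]
      exact a.2 p hp
    let _ : Module (R ⧸ P) X := htors.module
    have hsmul : ∀ (r : R) (x : X), (Ideal.Quotient.mk P r) • x = r • x := fun _ _ => rfl
    let F : Γ → Module.End (R ⧸ P) X := fun γ =>
      { toFun := fun x => Submodule.mapQ L₀ L₀ (res γ) (hres γ) x
        map_add' := fun x y => map_add _ x y
        map_smul' := by
          intro c x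
          obtain ⟨r, rfl⟩ := Ideal.Quotient.mk_surjective c
          obtain ⟨a, rfl⟩ := Submodule.Quotient.mk_surjective L₀ x
          rw [RingHom.id_apply, hsmul, hsmul, ← Submodule.Quotient.mk_smul,
            Submodule.mapQ_apply, Submodule.mapQ_apply, ← Submodule.Quotient.mk_smul,
            Submodule.Quotient.eq, hmem₀]
          change θ γ (r • (a : A)) - r • θ γ a ∈ L
          rw [hσ, ← sub_smul]
          exact (hL' γ a a.2) _ (hσP γ r) }
    have hF : ∀ γ (a : tor L P), F γ (Submodule.Quotient.mk a) = Submodule.Quotient.mk (res γ a) :=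
      fun _ _ => rfl
    have hres1 : ∀ a, res 1 a = a := fun a => Subtype.ext (θ_one θ a)
    have hresm : ∀ γ δ a, res (γ * δ) a = res γ (res δ a) :=
      fun γ δ a => Subtype.ext (θ_mul θ γ δ a)
    have hF1 : F 1 = 1 := by
      apply LinearMap.ext
      intro x
      obtain ⟨a, rfl⟩ := Submodule.Quotient.mk_surjective L₀ x
      rw [hF, hres1]
      rfl
    have hFm : ∀ γ δ, F (γ * δ) = F γ * F δ := by
      intro γ δ
      apply LinearMap.ext
      intro x
      obtain ⟨a, rfl⟩ := Submodule.Quotient.mk_surjective L₀ x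
      rw [Module.End.mul_apply, hF, hF, hF, hresm]
    let θX : Γ →* (Module.End (R ⧸ P) X)ˣ := MonoidHom.toHomUnits
      { toFun := F
        map_one' := hF1
        map_mul' := hFm }
    have hθX : ∀ γ (a : tor L P), ((θX γ : (Module.End (R ⧸ P) X)ˣ) : Module.End (R ⧸ P) X)
        (Submodule.Quotient.mk a) = Submodule.Quotient.mk (res γ a) := fun _ _ => rfl
    -- linearity
    have hfinX : Module.Finite R X := inferInstance
    obtain ⟨s, hs⟩ := hfinX.fg_top
    have hspan : ∀ x : X, x ∈ Submodule.span (R ⧸ P) (s : Set X) := by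
      intro x
      have h1 : x ∈ Submodule.span R (s : Set X) := by
        rw [hs]
        trivial
      induction h1 using Submodule.span_induction with
      | mem x hx => exact Submodule.subset_span hx
      | zero => exact zero_mem _
      | add a b _ _ ha hb => exact add_mem ha hb
      | smul r a _ ha =>
        rw [← hsmul]
        exact Submodule.smul_mem _ _ ha
    have hlk : LK 𝒦 θX.ker := by
      refine lin_rep (R := R ⧸ P) (FractionRing (R ⧸ P)) (h𝒦 P (hLA hP)) ?_ s
        (fun x => ⟨1, one_ne_zero, by rw [one_smul]; exact hspan x⟩) θX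
      intro c x hcx
      obtain ⟨r, rfl⟩ := Ideal.Quotient.mk_surjective c
      obtain ⟨a, rfl⟩ := Submodule.Quotient.mk_surjective L₀ x
      rw [hsmul, ← Submodule.Quotient.mk_smul, Submodule.Quotient.mk_eq_zero, hmem₀] at hcx
      by_cases ha : (a : A) ∈ L
      · exact Or.inr ((Submodule.Quotient.mk_eq_zero L₀).2 ha)
      · exact Or.inl (Ideal.Quotient.eq_zero_iff_mem.2 (hann a a.2 ha r hcx))
    refine ⟨N₁ ⊓ θX.ker, LK.inf _ _ hN₁ hlk, ?_⟩
    have h1 : SM (N₁ ⊓ θX.ker) (ker' θ (tor L P) hL' ⊓ θX.ker) :=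
      SM.inf hSM (SM.of_le le_rfl)
    refine h1.trans (SM.of_comm ?_)
    rw [Subgroup.commutator_le]
    intro u hu v hv
    rw [Subgroup.mem_inf, mem_ker'] at hu hv
    have hker : ∀ w, w ∈ θX.ker → ∀ l ∈ tor L P, θ w l - l ∈ L := by
      intro w hw l hl
      have h2 := hθX w ⟨l, hl⟩
      rw [MonoidHom.mem_ker] at hw
      rw [hw] at h2
      have h3 : (Submodule.Quotient.mk ⟨l, hl⟩ : X) = Submodule.Quotient.mk (res w ⟨l, hl⟩) := h2
      exact (hmem₀ _).1 ((Submodule.Quotient.eq L₀).1 h3.symm)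
    -- the commutator
    rw [mem_ker']
    intro a
    obtain ⟨b, rfl⟩ : ∃ b, θ (v * u) b = a :=
      ⟨θ (v * u)⁻¹ a, by rw [← θ_mul, mul_inv_cancel, θ_one]⟩
    have h2 : θ ⁅u, v⁆ (θ (v * u) b) = θ u (θ v b) := by
      rw [← θ_mul, ← θ_mul]
      congr 2
      rw [commutatorElement_def]
      group
    have h3 : θ (v * u) b = θ v (θ u b) := θ_mul θ v u b
    rw [h2, h3]
    have e1 := hker u hu.2 _ (hv.1 b)
    have e2 := hker v hv.2 _ (hu.1 b)
    rw [map_sub] at e1 e2
    have e3 := sub_mem e1 e2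
    have e4 : θ u (θ v b) - θ v (θ u b) =
        (θ u (θ v b) - θ u b - (θ v b - b)) - (θ v (θ u b) - θ v b - (θ u b - b)) := by
      abel
    rw [e4]
    exact e3

end action

end Pool.Agent.Helper84.FJ
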