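import Pool.Agent.Helper84.FJ.G

/-!
# Automorphism groups of groups with an abelian characteristic subgroup which is a Noetherian module
-/

set_option autoImplicit false

open scoped commutatorElement TensorProduct

namespace Pool.Agent.Helper84.FJ

section semi

variable {R A Γ : Type} [CommRing R] [AddCommGroup A] [Module R A] [Group Γ]

theorem θ_inv (θ : Γ →* AddMonoid.End A) (γ : Γ) (a : A) : θ γ (θ γ⁻¹ a) = a := by
  rw [← θ_mul, mul_inv_cancel, θ_one]

theorem θ_inv' (θ : Γ →* AddMonoid.End A) (γ : Γ) (a : A) : θ γ⁻¹ (θ γ a) = a := by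
  rw [← θ_mul, inv_mul_cancel, θ_one]

theorem exists_sigma (θ : Γ →* AddMonoid.End A) (hfaith : ∀ r : R, (∀ a : A, r • a = 0) → r = 0)
    (hex : ∀ γ (r : R), ∃ r' : R, ∀ a, θ γ (r • a) = r' • θ γ a) :
    ∃ σ : Γ → R ≃+* R, (∀ γ r a, θ γ (r • a) = σ γ r • θ γ a) ∧
      ∀ γ δ r, σ (γ * δ) r = σ γ (σ δ r) := by
  choose s hs using hex
  have huniq : ∀ γ (r r' : R), (∀ a, r • θ γ a = r' • θ γ a) → r = r' := by
    intro γ r r' h
    rw [← sub_eq_zero]
    apply hfaith
    intro b
    have h1 := h (θ γ⁻¹ b)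
    rw [θ_inv] at h1
    rw [sub_smul, h1, sub_self]
  refine ⟨fun γ =>
    { toFun := s γ
      invFun := s γ⁻¹
      left_inv := ?_
      right_inv := ?_
      map_mul' := ?_
      map_add' := ?_ }, ?_, ?_⟩
  · intro r
    apply huniq 1
    intro a
    rw [θ_one]
    have h1 := hs γ⁻¹ (s γ r) (θ γ a)
    rw [← hs γ r a, θ_inv', θ_inv'] at h1
    exact h1.symm
  · intro r
    apply huniq 1
    intro a
    rw [θ_one]
    have h1 := hs γ (s γ⁻¹ r) (θ γ⁻¹ a)
    rw [← hs γ⁻¹ r a, θ_inv, θ_inv] at h1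
    exact h1.symm
  · intro r r'
    apply huniq γ
    intro a
    rw [← hs, mul_smul, hs, hs, mul_smul]
  · intro r r'
    apply huniq γ
    intro a
    rw [← hs, add_smul, map_add, hs, hs, add_smul]
  · intro γ r a
    exact hs γ r a
  · intro γ δ r
    apply huniq (γ * δ)
    intro a
    change s (γ * δ) r • θ (γ * δ) a = s γ (s δ r) • θ (γ * δ) a
    rw [← hs, θ_mul, θ_mul, hs, hs]

theorem exists_fin_act [IsNoetherianRing R] [Module.Finite R A] (θ : Γ →* AddMonoid.End A)
    (σ : Γ → R ≃+* R) (hσ : ∀ γ r a, θ γ (r • a) = σ γ r • θ γ a)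
    (hσm : ∀ γ δ r, σ (γ * δ) r = σ γ (σ δ r))
    (hfin : ∀ P ∈ AssP R A, Finite (R ⧸ P ≃+* R ⧸ P)) :
    ∃ Γ₂ : Subgroup Γ, Γ₂.FiniteIndex ∧ ∀ P ∈ AssP R A, ∀ γ ∈ Γ₂, ∀ r, σ γ r - r ∈ P := by
  classical
  have hσ1 : ∀ r, σ 1 r = r := by
    intro r
    have h1 := hσm 1 1 r
    rw [one_mul] at h1
    exact ((σ 1).injective h1).symm
  have hσi : ∀ γ r, σ γ (σ γ⁻¹ r) = r := by
    intro γ r
    rw [← hσm, mul_inv_cancel, hσ1]
  have hσi' : ∀ γ r, σ γ⁻¹ (σ γ r) = r := by
    intro γ r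
    rw [← hσm, inv_mul_cancel, hσ1]
  let S : Ideal R → Subgroup Γ := fun P =>
    { carrier := {γ | ∀ r, σ γ r - r ∈ P}
      mul_mem' := by
        intro γ δ hγ hδ r
        rw [hσm]
        have h1 := add_mem (hγ (σ δ r)) (hδ r)
        rwa [sub_add_sub_cancel] at h1
      one_mem' := by
        intro r
        rw [hσ1, sub_self]
        exact zero_mem _
      inv_mem' := by
        intro γ hγ r
        have h1 := neg_mem (hγ (σ γ⁻¹ r))
        rwa [hσi, neg_sub] at h1 }
  have hS : ∀ P γ, γ ∈ S P ↔ ∀ r, σ γ r - r ∈ P := fun _ _ => Iff.rfl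
  have hSfin : ∀ P ∈ AssP R A, (S P).FiniteIndex := by
    intro P hP
    have hPfin := hfin P hP
    let code : Γ → Set (R × R) := fun γ => {z | σ γ⁻¹ z.2 - z.1 ∈ P}
    let T : Ideal R → Set (Set (R × R)) := fun Q =>
      Set.range (fun e : R ⧸ P ≃+* R ⧸ Q =>
        {z : R × R | Ideal.Quotient.mk Q z.2 = e (Ideal.Quotient.mk P z.1)})
    have hT : ∀ Q, (T Q).Finite := by
      intro Q
      have : Finite (R ⧸ P ≃+* R ⧸ Q) := by
        by_cases hne : Nonempty (R ⧸ P ≃+* R ⧸ Q)
        · obtain ⟨e₀⟩ := hne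
          refine Finite.of_injective (fun e : R ⧸ P ≃+* R ⧸ Q => e.trans e₀.symm) ?_
          intro e e' h
          ext x
          have h1 := RingEquiv.congr_fun h x
          exact e₀.symm.injective h1
        · rw [not_nonempty_iff] at hne
          infer_instance
      exact Set.finite_range _
    have hcode : ∀ γ, code γ ∈ ⋃ Q ∈ AssP R A, T Q := by
      intro γ
      obtain ⟨hPp, x, hx⟩ := hP
      let Q : Ideal R := P.comap (σ γ⁻¹ : R →+* R)
      have hQmem : ∀ s, s ∈ Q ↔ σ γ⁻¹ s ∈ P := fun _ => Iff.rfl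
      have hQ : Q ∈ AssP R A := by
        refine ⟨Ideal.IsPrime.comap (σ γ⁻¹ : R →+* R), θ γ x, fun s => ?_⟩
        rw [hQmem, hx]
        have h1 := hσ γ (σ γ⁻¹ s) x
        rw [hσi] at h1
        rw [← h1]
        constructor
        · intro h2
          rw [h2, map_zero]
        · intro h2
          have h3 := θ_inv' θ γ (σ γ⁻¹ s • x)
          rw [h2, map_zero] at h3
          exact h3.symm
      have hmap : Q = P.map (σ γ : R →+* R) := by
        apply le_antisymm
        · intro s hs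
          have h1 := Ideal.mem_map_of_mem (σ γ : R →+* R) ((hQmem s).1 hs)
          have h2 : (σ γ : R →+* R) (σ γ⁻¹ s) = s := hσi γ s
          rw [h2] at h1
          exact h1
        · rw [Ideal.map_le_iff_le_comap]
          intro r hr
          rw [Ideal.mem_comap, hQmem]
          have h2 : σ γ⁻¹ ((σ γ : R →+* R) r) = r := hσi' γ r
          rw [h2]
          exact hr
      refine Set.mem_iUnion₂.2 ⟨Q, hQ, Ideal.quotientEquiv P Q (σ γ) hmap, ?_⟩
      ext ⟨r, s⟩
      change Ideal.Quotient.mk Q s = Ideal.quotientEquiv P Q (σ γ) hmap (Ideal.Quotient.mk P r) ↔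
        σ γ⁻¹ s - r ∈ P
      rw [Ideal.quotientEquiv_mk, Ideal.Quotient.eq, hQmem, map_sub, hσi']
    have hfinR : (Set.range code).Finite := by
      refine Set.Finite.subset (Set.Finite.biUnion (assP_finite (R := R) (A := A))
        (fun Q _ => hT Q)) ?_
      rintro _ ⟨γ, rfl⟩
      exact hcode γ
    have hq : Finite (Γ ⧸ S P) := by
      have : Finite (Set.range code) := hfinR
      choose rep hrep using (QuotientGroup.mk_surjective : Function.Surjective
        (QuotientGroup.mk : Γ → Γ ⧸ S P))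
      refine Finite.of_injective (fun y : Γ ⧸ S P => (⟨code (rep y), ⟨_, rfl⟩⟩ : Set.range code)) ?_
      intro y y' h
      have h1 : code (rep y) = code (rep y') := congrArg Subtype.val h
      rw [← hrep y, ← hrep y']
      refine QuotientGroup.eq.2 ?_
      rw [hS]
      intro r
      have h2 : (r, σ (rep y') r) ∈ code (rep y') := by
        change σ (rep y')⁻¹ (σ (rep y') r) - r ∈ P
        rw [hσi', sub_self]
        exact zero_mem _
      rw [← h1] at h2
      have h3 : σ (rep y)⁻¹ (σ (rep y') r) - r ∈ P := h2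
      rw [hσm]
      exact h3
    exact Subgroup.finiteIndex_of_finite_quotient
  have hfinA : Finite (AssP R A) := assP_finite
  refine ⟨⨅ P : AssP R A, S P.1, Subgroup.finiteIndex_iInf (fun P => hSfin P.1 P.2), ?_⟩
  intro P hP γ hγ
  exact (Subgroup.mem_iInf.1 hγ) ⟨P, hP⟩

end semi

section aut

variable {𝒦 : ∀ (K : Type) [Field K], Prop}

theorem vsl_of_lk {Γ H : Type} [Group Γ] [Group H] (f : Γ →* H) (hH : VSL 𝒦 H) (N : Subgroup Γ)
    (hN : LK 𝒦 N) (h : SM (f.ker ⊓ N) ⊥) : VSL 𝒦 Γ := by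
  have hn := hN.normal
  have h1 : SL 𝒦 (Γ ⧸ N) := by
    refine ⟨N.map (QuotientGroup.mk' N), hN.descend _ (QuotientGroup.mk'_surjective N) (by
      rw [QuotientGroup.ker_mk']), SM.of_le ?_⟩
    rintro _ ⟨x, hx, rfl⟩
    exact (QuotientGroup.eq_one_iff x).2 hx
  refine VSL.ext (f.prod (QuotientGroup.mk' N)) (VS.of_SM_ker _ ?_) (hH.prod h1.vsl)
  rw [MonoidHom.ker_prod, QuotientGroup.ker_mk']
  exact h

variable {G : Type} [Group G]

/-- **abelian characteristic subgroups which are Noetherian modules** -/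
theorem vsl_module (N : Subgroup G) [N.Characteristic] (h1 : VSL 𝒦 (MulAut (G ⧸ N)))
    {R A : Type} [CommRing R] [IsNoetherianRing R] [AddCommGroup A] [Module R A]
    [Module.Finite R A] (e : N ≃* Multiplicative A) (π : G → R)
    (hconj : ∀ (g : G) (x y : N), (y : G) = g * x * g⁻¹ →
      (e y).toAdd = π g • (e x).toAdd)
    (hgen : Subring.closure (Set.range π) = ⊤)
    (hfaith : ∀ r : R, (∀ a : A, r • a = 0) → r = 0)
    (hass : ∀ (P : Ideal R) [P.IsPrime], P ∈ AssP R A → 𝒦 (FractionRing (R ⧸ P)) ∧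
      Finite (R ⧸ P ≃+* R ⧸ P)) : VSL 𝒦 (MulAut G) := by
  classical
  let θ : MulAut G →* AddMonoid.End A :=
    { toFun := fun u =>
        { toFun := fun a => (e (subA N u (e.symm (Multiplicative.ofAdd a)))).toAdd
          map_zero' := by
            rw [ofAdd_zero, map_one, map_one, map_one, toAdd_one]
          map_add' := fun a b => by
            rw [ofAdd_add, map_mul, map_mul, map_mul, toAdd_mul] }
      map_one' := by
        ext a
        change (e ((1 : MulAut N) (e.symm (Multiplicative.ofAdd a)))).toAdd = a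
        simp
      map_mul' := fun u v => by
        ext a
        change (e (subA N (u * v) (e.symm (Multiplicative.ofAdd a)))).toAdd =
          (e (subA N u (e.symm (Multiplicative.ofAdd ((e (subA N v
            (e.symm (Multiplicative.ofAdd a)))).toAdd))))).toAdd
        rw [ofAdd_toAdd, MulEquiv.symm_apply_apply, map_mul]
        rfl }
  have hθ : ∀ u (x : N), θ u (e x).toAdd = (e (subA N u x)).toAdd := by
    intro u x
    change (e (subA N u (e.symm (Multiplicative.ofAdd (e x).toAdd)))).toAdd = _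
    rw [ofAdd_toAdd, MulEquiv.symm_apply_apply]
  have hsurj : ∀ a : A, ∃ x : N, (e x).toAdd = a := fun a =>
    ⟨e.symm (Multiplicative.ofAdd a), by rw [MulEquiv.apply_symm_apply]; rfl⟩
  have hex : ∀ (u : MulAut G) (r : R), ∃ r' : R, ∀ a, θ u (r • a) = r' • θ u a := by
    intro u r
    have hr : r ∈ Subring.closure (Set.range π) := by
      rw [hgen]
      trivial
    induction hr using Subring.closure_induction with
    | mem r hr =>
      obtain ⟨g, rfl⟩ := hr
      refine ⟨π (u g), fun a => ?_⟩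
      obtain ⟨x, rfl⟩ := hsurj a
      let y : N := ⟨g * x * g⁻¹, (inferInstance : N.Normal).conj_mem x x.2 g⟩
      rw [← hconj g x y rfl, hθ, hθ]
      refine hconj (u g) (subA N u x) (subA N u y) ?_
      rw [subA_apply, subA_apply]
      change u (g * x * g⁻¹) = _
      rw [map_mul, map_mul, map_inv]
    | zero => exact ⟨0, fun a => by rw [zero_smul, map_zero, zero_smul]⟩
    | one => exact ⟨1, fun a => by rw [one_smul, one_smul]⟩
    | add a b _ _ ha hb =>
      obtain ⟨a', ha'⟩ := ha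
      obtain ⟨b', hb'⟩ := hb
      exact ⟨a' + b', fun c => by rw [add_smul, map_add, ha', hb', add_smul]⟩
    | neg a _ ha =>
      obtain ⟨a', ha'⟩ := ha
      exact ⟨-a', fun c => by rw [neg_smul, map_neg, ha', neg_smul]⟩
    | mul a b _ _ ha hb =>
      obtain ⟨a', ha'⟩ := ha
      obtain ⟨b', hb'⟩ := hb
      exact ⟨a' * b', fun c => by rw [mul_smul, ha', hb', mul_smul]⟩
  obtain ⟨σ, hσ, hσm⟩ := exists_sigma θ hfaith hex
  obtain ⟨Γ₂, hfi, hΓ₂⟩ := exists_fin_act θ σ hσ hσm (fun P hP => by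
    have := hP.1
    exact (hass P hP).2)
  refine VSL.of_finiteIndex Γ₂ hfi ?_
  obtain ⟨N', hN', hSM⟩ := mod_ind (𝒦 := 𝒦) (θ.comp Γ₂.subtype) (fun γ => σ γ)
    (fun γ r a => hσ γ r a) (fun P hP γ r => hΓ₂ P hP γ γ.2 r)
    (fun P _ hP => (hass P hP).1) ⊥ (fun γ a ha => by
      rw [Submodule.mem_bot] at ha
      rw [ha, map_zero]
      exact zero_mem _) (by rw [assRel_bot])
  refine vsl_of_lk ((quoA N).comp Γ₂.subtype) h1 N' hN' ?_
  have h2 : SM (((quoA N).comp Γ₂.subtype).ker ⊓ N')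
      (((quoA N).ker ⊓ (subA N).ker).comap Γ₂.subtype) := by
    refine (SM.inf (SM.of_le (le_refl ((quoA N).comp Γ₂.subtype).ker)) hSM).mono le_rfl ?_
    intro γ hγ
    rw [Subgroup.mem_inf, mem_ker'] at hγ
    refine ⟨hγ.1, mem_ker_subA.2 ?_⟩
    intro x hx
    have h3 := hγ.2 (e ⟨x, hx⟩).toAdd
    rw [Submodule.mem_bot, sub_eq_zero] at h3
    have h4 : θ (γ : MulAut G) (e ⟨x, hx⟩).toAdd = (e ⟨x, hx⟩).toAdd := h3
    rw [hθ] at h4
    have h5 := e.injective (Multiplicative.toAdd.injective h4)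
    exact congrArg Subtype.val h5
  refine h2.trans ⟨1, ?_⟩
  rw [D_succ, D_zero, Subgroup.commutator_le]
  intro u hu v hv
  have h3 := Subgroup.commutator_mem_commutator
    (show (u : MulAut G) ∈ (quoA N).ker ⊓ (subA N).ker from hu)
    (show (v : MulAut G) ∈ (quoA N).ker ⊓ (subA N).ker from hv)
  rw [stab_comm N, Subgroup.mem_bot] at h3
  rw [Subgroup.mem_bot]
  exact Subtype.ext h3

end aut

end Pool.Agent.Helper84.FJ
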