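import Pool.Agent.Helper84.FJ.H

/-!
# Automorphism groups of finitely generated nilpotent-by-abelian groups
-/

set_option autoImplicit false

open scoped commutatorElement

namespace Pool.Agent.Helper84.FJ

section

variable {P : ∀ (K : Type) [Field K], Prop}

theorem vsl_equiv {G H : Type} [Group G] [Group H] (e : G ≃* H) (h : VSL P (MulAut G)) :
    VSL P (MulAut H) :=
  VSL.of_injective (MulAut.congr e.symm).toMonoidHom (MulAut.congr e.symm).injective h

/-- finitely generated abelian groups -/
theorem vsl_fg_comm (hQ : P ℚ) (Q : Type) [CommGroup Q] [hfg : Group.FG Q] :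
    VSL P (MulAut Q) := by
  classical
  have hch : (CommGroup.torsion Q).Characteristic :=
    Subgroup.characteristic_iff_map_eq.2 (fun e => e.map_torsion)
  have h1 : Group.FG (CommGroup.torsion Q) := by
    have h2 : Module.Finite ℤ (Additive Q) := Module.Finite.iff_addGroup_fg.mpr
      (GroupFG.iff_add_fg.1 hfg)
    rw [Group.fg_iff_subgroup_fg, Subgroup.fg_iff_add_fg,
      ← AddSubgroup.toIntSubmodule_toAddSubgroup (Subgroup.toAddSubgroup (CommGroup.torsion Q)),
      ← Submodule.fg_iff_addSubgroup_fg]
    exact IsNoetherian.noetherian _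
  have h3 : Finite (CommGroup.torsion Q) :=
    CommGroup.finite_of_fg_isMulTorsion _ CommMonoid.torsion.isMulTorsion
  refine vsl_finite (CommGroup.torsion Q) (vsl_tfr _ ⟨fun a b => mul_comm a b, ?_, ?_⟩ hQ) h3
  · intro a n hn ha
    obtain ⟨g, rfl⟩ := QuotientGroup.mk_surjective a
    rw [← QuotientGroup.mk_pow, QuotientGroup.eq_one_iff] at ha
    rw [QuotientGroup.eq_one_iff]
    rw [CommGroup.mem_torsion, isOfFinOrder_iff_pow_eq_one] at ha ⊢
    obtain ⟨m, hm, h⟩ := ha
    exact ⟨n * m, Nat.mul_pos hn hm, by rw [pow_mul, h]⟩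
  · have h4 : Group.FG (Q ⧸ CommGroup.torsion Q) := QuotientGroup.fg _
    obtain ⟨s, hs, hsf⟩ := Group.fg_iff.1 h4
    refine ⟨hsf.toFinset, fun a => ⟨1, one_pos, ?_⟩⟩
    rw [Set.Finite.coe_toFinset, hs]
    trivial

theorem vsl_fg_comm' (hQ : P ℚ) (Q : Type) [iQ : Group Q] [hfg : Group.FG Q]
    (hcomm : ∀ a b : Q, a * b = b * a) : VSL P (MulAut Q) := by
  let _ : CommGroup Q := { iQ with mul_comm := hcomm }
  exact vsl_fg_comm hQ Q

variable {G : Type} [Group G]

theorem map_comm_eq (L : Subgroup G) [L.Normal] :
    (commutator G).map (QuotientGroup.mk' L) = commutator (G ⧸ L) := by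
  rw [commutator_def, commutator_def, Subgroup.map_commutator,
    Subgroup.map_top_of_surjective _ (QuotientGroup.mk'_surjective L)]

theorem map_lcs_eq (L : Subgroup G) [L.Normal] (n : ℕ) :
    ((commutator G).lowerCentralSeries n).map (QuotientGroup.mk' L) =
      (commutator (G ⧸ L)).lowerCentralSeries n := by
  rw [Subgroup.map_lowerCentralSeries, map_comm_eq]

theorem vsl_lcs_quot (h : VSL P (MulAut (G ⧸ (commutator G).lowerCentralSeries 1))) (n : ℕ) :
    VSL P (MulAut (G ⧸ (commutator G).lowerCentralSeries (n + 1))) := by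
  induction n with
  | zero => exact h
  | succ n ih =>
    have hle : (commutator G).lowerCentralSeries (n + 1 + 1) ≤
        (commutator G).lowerCentralSeries (n + 1) :=
      Subgroup.lowerCentralSeries_antitone _ (Nat.le_succ _)
    have hN := map_lcs_eq (G := G) ((commutator G).lowerCentralSeries (n + 1 + 1)) (n + 1)
    have hch : (((commutator G).lowerCentralSeries (n + 1)).map (QuotientGroup.mk'
        ((commutator G).lowerCentralSeries (n + 1 + 1)))).Characteristic := by
      rw [hN]
      infer_instance
    refine vsl_central (((commutator G).lowerCentralSeries (n + 1)).map (QuotientGroup.mk'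
      ((commutator G).lowerCentralSeries (n + 1 + 1))))
      (vsl_equiv (QuotientGroup.quotientQuotientEquivQuotient _ _ hle).symm ih)
      (commutator _) ?_ ?_
    · rw [hN]
      exact Subgroup.lowerCentralSeries_antitone _ (Nat.succ_le_succ (Nat.zero_le n))
    · have h1 : ⁅((commutator G).lowerCentralSeries (n + 1)).map (QuotientGroup.mk'
          ((commutator G).lowerCentralSeries (n + 1 + 1))),
          commutator (G ⧸ (commutator G).lowerCentralSeries (n + 1 + 1))⁆ = ⊥ := by
        rw [← map_comm_eq, ← Subgroup.map_commutator, ← Subgroup.lowerCentralSeries_succ,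
          eq_bot_iff]
        rintro _ ⟨x, hx, rfl⟩
        exact (QuotientGroup.eq_one_iff x).2 hx
      rw [Subgroup.commutator_eq_bot_iff_le_centralizer] at h1
      intro a ha m hm
      exact (Subgroup.mem_centralizer_iff.1 (h1 ha) m hm).symm

/-- **the automorphism group of a group with nilpotent commutator subgroup** -/
theorem vsl_of_nilpotent (hnil : Group.IsNilpotent (commutator G))
    (h : VSL P (MulAut (G ⧸ ⁅commutator G, commutator G⁆))) : VSL P (MulAut G) := by
  obtain ⟨n, hn⟩ := (Subgroup.isNilpotent_iff_lowerCentralSeries _).1 hnil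
  have h1 : (commutator G).lowerCentralSeries (n + 1) = ⊥ := by
    rw [eq_bot_iff, ← hn]
    exact Subgroup.lowerCentralSeries_antitone _ (Nat.le_succ _)
  have h2 := vsl_lcs_quot (G := G) h n
  exact vsl_equiv ((QuotientGroup.quotientMulEquivOfEq h1).trans QuotientGroup.quotientBot) h2

/-- commutators of elements of a set which generates -/
theorem comm_eq_normalClosure (s : Set G) (hs : Subgroup.closure s = ⊤) :
    commutator G = Subgroup.normalClosure {x | ∃ a ∈ s, ∃ b ∈ s, ⁅a, b⁆ = x} := by
  apply le_antisymm
  · rw [commutator_def, Subgroup.commutator_le]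
    set K := Subgroup.normalClosure {x | ∃ a ∈ s, ∃ b ∈ s, ⁅a, b⁆ = x} with hK
    intro g _ h _
    rw [← QuotientGroup.ker_mk' K, MonoidHom.mem_ker, map_commutatorElement,
      commutatorElement_eq_one_iff_mul_comm]
    have h1 : ∀ g : G, (∀ b ∈ s, QuotientGroup.mk' K g * QuotientGroup.mk' K b =
        QuotientGroup.mk' K b * QuotientGroup.mk' K g) → ∀ h : G,
        QuotientGroup.mk' K g * QuotientGroup.mk' K h =
        QuotientGroup.mk' K h * QuotientGroup.mk' K g := by
      intro g hg h
      have hh : h ∈ Subgroup.closure s := by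
        rw [hs]
        trivial
      induction hh using Subgroup.closure_induction with
      | mem x hx => exact hg x hx
      | one => rw [map_one, mul_one, one_mul]
      | mul x y _ _ hx hy => rw [map_mul, ← mul_assoc, hx, mul_assoc, hy, mul_assoc]
      | inv x _ hx =>
        rw [map_inv]
        exact (Commute.inv_right (show Commute _ _ from hx)).eq
    refine h1 g ?_ h
    intro b hb
    refine (h1 b ?_ g).symm
    intro a ha
    rw [← commutatorElement_eq_one_iff_mul_comm, ← map_commutatorElement, ← MonoidHom.mem_ker,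
      QuotientGroup.ker_mk']
    exact Subgroup.subset_normalClosure ⟨b, hb, a, ha, rfl⟩
  · refine Subgroup.normalClosure_le_normal ?_
    rintro _ ⟨a, -, b, -, rfl⟩
    exact Subgroup.commutator_mem_commutator (Subgroup.mem_top a) (Subgroup.mem_top b)

theorem comm_two_gen (a b : G) (hs : Subgroup.closure {a, b} = (⊤ : Subgroup G)) :
    commutator G = Subgroup.normalClosure {⁅a, b⁆} := by
  rw [comm_eq_normalClosure {a, b} hs]
  apply le_antisymm
  · refine Subgroup.normalClosure_le_normal ?_
    have h1 : ⁅a, b⁆ ∈ Subgroup.normalClosure {⁅a, b⁆} := Subgroup.subset_normalClosure rfl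
    rintro _ ⟨x, hx, y, hy, rfl⟩
    rcases hx with rfl | rfl <;> rcases hy with rfl | rfl
    · rw [commutatorElement_self]
      exact one_mem _
    · exact h1
    · have h2 := inv_mem h1
      rwa [commutatorElement_inv] at h2
    · rw [commutatorElement_self]
      exact one_mem _
  · refine Subgroup.normalClosure_mono ?_
    rintro _ rfl
    exact ⟨a, Or.inl rfl, b, Or.inr rfl, rfl⟩

theorem comm_ab (G : Type) [Group G] (x y : G ⧸ commutator G) : x * y = y * x :=
  mul_comm (G := Abelianization G) x y

/-- metabelian groups with two generators -/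
theorem vsl_two_gen (hQ : P ℚ) (a b : G) (hs : Subgroup.closure {a, b} = (⊤ : Subgroup G))
    (hm : ⁅commutator G, commutator G⁆ = ⊥) : VSL P (MulAut G) := by
  have hfg : Group.FG G := Group.fg_iff.2 ⟨{a, b}, hs, by simp⟩
  have hab : ∀ x ∈ commutator G, ∀ y ∈ commutator G, x * y = y * x := by
    rw [Subgroup.commutator_eq_bot_iff_le_centralizer] at hm
    intro x hx y hy
    exact (Subgroup.mem_centralizer_iff.1 (hm hx) y hy).symm
  refine vsl_cyclic (commutator G) (vsl_fg_comm' hQ _ (comm_ab G)) hab ?_ ⁅a, b⁆
    (comm_two_gen a b hs)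
  intro g h n hn
  exact hab _ (Subgroup.commutator_mem_commutator (Subgroup.mem_top g) (Subgroup.mem_top h)) n hn

theorem closure_image_top {H : Type} [Group H] (f : G →* H) (hf : Function.Surjective f)
    (s : Set G) (hs : Subgroup.closure s = ⊤) : Subgroup.closure (f '' s) = ⊤ := by
  rw [← MonoidHom.map_closure, hs, Subgroup.map_top_of_surjective _ hf]

/-- **the automorphism group of a two-generator group with nilpotent commutator subgroup** -/
theorem vsl_two_gen_nil (hQ : P ℚ) (a b : G) (hs : Subgroup.closure {a, b} = (⊤ : Subgroup G))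
    (hnil : Group.IsNilpotent (commutator G)) : VSL P (MulAut G) := by
  refine vsl_of_nilpotent hnil ?_
  have h1 := closure_image_top (QuotientGroup.mk' ⁅commutator G, commutator G⁆)
    (QuotientGroup.mk'_surjective _) {a, b} hs
  rw [Set.image_pair] at h1
  refine vsl_two_gen hQ _ _ h1 ?_
  rw [← map_comm_eq, ← Subgroup.map_commutator, eq_bot_iff]
  rintro _ ⟨x, hx, rfl⟩
  exact (QuotientGroup.eq_one_iff x).2 hx

end

end Pool.Agent.Helper84.FJ
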