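import Pool.Agent.Helper84.FJ.I

/-!
# Automorphism groups of finitely generated nilpotent-by-abelian groups, II
-/

set_option autoImplicit false

open scoped commutatorElement

namespace Pool.Agent.Helper84.FJ

section

variable {P : ∀ (K : Type) [Field K], Prop}

/-- finitely generated metabelian groups -/
theorem vsl_metab {H : Type} [Group H] [hfg : Group.FG H] (hQ : P ℚ)
    {R A : Type} [CommRing R] [AddCommGroup A] [Module R A]
    (e : commutator H ≃* Multiplicative A) (π : H → R)
    (hconj : ∀ (g : H) (x y : commutator H), (y : H) = g * x * g⁻¹ →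
      (e y).toAdd = π g • (e x).toAdd)
    (hgen : Subring.closure (Set.range π) = ⊤)
    (hfaith : ∀ r : R, (∀ a : A, r • a = 0) → r = 0)
    (hass : ∀ (P' : Ideal R) [P'.IsPrime], P' ∈ AssP R A → P (FractionRing (R ⧸ P')) ∧
      Finite (R ⧸ P' ≃+* R ⧸ P')) : VSL P (MulAut H) := by
  classical
  obtain ⟨s, hs, hsf⟩ := Group.fg_iff.1 hfg
  have hsurj : ∀ a : A, ∃ x : commutator H, (e x).toAdd = a := fun a =>
    ⟨e.symm (Multiplicative.ofAdd a), by rw [MulEquiv.apply_symm_apply]; rfl⟩
  have hcn : ∀ (g : H) (x : commutator H), g * (x : H) * g⁻¹ ∈ commutator H := fun g x =>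
    (inferInstance : (commutator H).Normal).conj_mem x x.2 g
  have hmul : ∀ g h, π (g * h) = π g * π h := by
    intro g h
    rw [← sub_eq_zero]
    apply hfaith
    intro a
    obtain ⟨x, rfl⟩ := hsurj a
    rw [sub_smul, mul_smul, ← hconj h x ⟨_, hcn h x⟩ rfl, ← hconj g _ ⟨_, hcn g ⟨_, hcn h x⟩⟩ rfl,
      ← hconj (g * h) x ⟨_, hcn g ⟨_, hcn h x⟩⟩ (by simp only; group), sub_self]
  have hone : π 1 = 1 := by
    rw [← sub_eq_zero]
    apply hfaith
    intro a
    obtain ⟨x, rfl⟩ := hsurj a
    rw [sub_smul, one_smul, ← hconj 1 x x (by group), sub_self]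
  -- the ring is Noetherian
  have hft : Algebra.FiniteType ℤ R := by
    let T : Set R := π '' s ∪ (fun g => π g⁻¹) '' s
    have hT : T.Finite := (hsf.image _).union (hsf.image _)
    let Y : Subgroup H :=
      { carrier := {g | π g ∈ Subring.closure T ∧ π g⁻¹ ∈ Subring.closure T}
        mul_mem' := by
          rintro g h ⟨hg1, hg2⟩ ⟨hh1, hh2⟩
          refine ⟨?_, ?_⟩
          · rw [hmul]
            exact mul_mem hg1 hh1
          · rw [mul_inv_rev, hmul]
            exact mul_mem hh2 hg2
        one_mem' := by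
          refine ⟨?_, ?_⟩
          · rw [hone]
            exact one_mem _
          · rw [inv_one, hone]
            exact one_mem _
        inv_mem' := by
          rintro g ⟨hg1, hg2⟩
          refine ⟨hg2, ?_⟩
          rw [inv_inv]
          exact hg1 }
    have hY : Y = ⊤ := by
      rw [eq_top_iff, ← hs, Subgroup.closure_le]
      intro g hg
      exact ⟨Subring.subset_closure (Or.inl ⟨g, hg, rfl⟩),
        Subring.subset_closure (Or.inr ⟨g, hg, rfl⟩)⟩
    refine ⟨⟨hT.toFinset, ?_⟩⟩
    rw [Set.Finite.coe_toFinset, Algebra.adjoin_int, eq_top_iff]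
    rintro r -
    have hr : r ∈ Subring.closure (Set.range π) := by
      rw [hgen]
      trivial
    have h1 : Subring.closure (Set.range π) ≤ Subring.closure T := by
      rw [Subring.closure_le]
      rintro _ ⟨g, rfl⟩
      have hg : g ∈ Y := by
        rw [hY]
        trivial
      exact hg.1
    exact h1 hr
  have hnoeth : IsNoetherianRing R := Algebra.FiniteType.isNoetherianRing ℤ R
  -- the module is finitely generated
  have hfin : Module.Finite R A := by
    let C : Set H := {x | ∃ a ∈ s, ∃ b ∈ s, ⁅a, b⁆ = x}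
    have hC : C.Finite := by
      refine ((hsf.prod hsf).image (fun z : H × H => ⁅z.1, z.2⁆)).subset ?_
      rintro _ ⟨a, ha, b, hb, rfl⟩
      exact ⟨(a, b), ⟨ha, hb⟩, rfl⟩
    let T : Set A := (fun x : commutator H => (e x).toAdd) '' ((fun x : commutator H => (x : H)) ⁻¹' C)
    have hT : T.Finite := (hC.preimage (Subtype.val_injective.injOn)).image _
    let Y : Subgroup H :=
      { carrier := {g | ∃ hg : g ∈ commutator H, (e ⟨g, hg⟩).toAdd ∈ Submodule.span R T}
        mul_mem' := by
          rintro g h ⟨hg1, hg2⟩ ⟨hh1, hh2⟩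
          refine ⟨mul_mem hg1 hh1, ?_⟩
          have h1 := add_mem hg2 hh2
          rw [← toAdd_mul, ← map_mul] at h1
          exact h1
        one_mem' := by
          refine ⟨one_mem _, ?_⟩
          have h1 : (⟨1, one_mem _⟩ : commutator H) = 1 := rfl
          rw [h1, map_one, toAdd_one]
          exact zero_mem _
        inv_mem' := by
          rintro g ⟨hg1, hg2⟩
          refine ⟨inv_mem hg1, ?_⟩
          have h1 := neg_mem hg2
          rw [← toAdd_inv, ← map_inv] at h1
          exact h1 }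
    have hYn : Y.Normal := by
      refine ⟨?_⟩
      rintro x ⟨hx, hx2⟩ g
      refine ⟨hcn g ⟨x, hx⟩, ?_⟩
      rw [hconj g ⟨x, hx⟩ ⟨_, hcn g ⟨x, hx⟩⟩ rfl]
      exact Submodule.smul_mem _ _ hx2
    have hY : commutator H ≤ Y := by
      rw [comm_eq_normalClosure s hs]
      refine Subgroup.normalClosure_le_normal ?_
      rintro _ ⟨a, ha, b, hb, rfl⟩
      have h1 : ⁅a, b⁆ ∈ commutator H :=
        Subgroup.commutator_mem_commutator (Subgroup.mem_top a) (Subgroup.mem_top b)
      exact ⟨h1, Submodule.subset_span ⟨⟨⁅a, b⁆, h1⟩, ⟨a, ha, b, hb, rfl⟩, rfl⟩⟩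
    refine ⟨⟨hT.toFinset, ?_⟩⟩
    rw [Set.Finite.coe_toFinset, eq_top_iff]
    rintro a -
    obtain ⟨x, rfl⟩ := hsurj a
    obtain ⟨_, h2⟩ := hY x.2
    exact h2
  exact vsl_module (commutator H) (vsl_fg_comm' hQ _ (comm_ab H)) e π hconj hgen hfaith hass

/-- **finitely generated nilpotent-by-abelian groups** -/
theorem vsl_nilp_ab {G : Type} [Group G] [hfg : Group.FG G] (hQ : P ℚ)
    (hnil : Group.IsNilpotent (commutator G))
    {R A : Type} [CommRing R] [AddCommGroup A] [Module R A]
    (e : commutator (G ⧸ ⁅commutator G, commutator G⁆) ≃* Multiplicative A)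
    (π : G ⧸ ⁅commutator G, commutator G⁆ → R)
    (hconj : ∀ (g : G ⧸ ⁅commutator G, commutator G⁆)
      (x y : commutator (G ⧸ ⁅commutator G, commutator G⁆)),
      (y : G ⧸ ⁅commutator G, commutator G⁆) = g * x * g⁻¹ → (e y).toAdd = π g • (e x).toAdd)
    (hgen : Subring.closure (Set.range π) = ⊤)
    (hfaith : ∀ r : R, (∀ a : A, r • a = 0) → r = 0)
    (hass : ∀ (P' : Ideal R) [P'.IsPrime], P' ∈ AssP R A → P (FractionRing (R ⧸ P')) ∧
      Finite (R ⧸ P' ≃+* R ⧸ P')) : VSL P (MulAut G) := by
  have h1 : Group.FG (G ⧸ ⁅commutator G, commutator G⁆) := QuotientGroup.fg _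
  exact vsl_of_nilpotent hnil (vsl_metab hQ e π hconj hgen hfaith hass)

end

end Pool.Agent.Helper84.FJ
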