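import Pool.Agent.Helper84.FJ.J

/-!
# Automorphism groups of global fields are finite
-/

set_option autoImplicit false

open Polynomial Polynomial.Bivariate

namespace Pool.Agent.Helper84.FJ

section swap

variable {k : Type} [Field k]

theorem coeff_swap (G : k[X][Y]) (m n : ℕ) :
    ((Bivariate.swap G).coeff m).coeff n = (G.coeff n).coeff m := by
  induction G using Polynomial.induction_on' with
  | add p q hp hq => rw [map_add, coeff_add, coeff_add, hp, hq, coeff_add, coeff_add]
  | monomial i a =>
    induction a using Polynomial.induction_on' with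
    | add p q hp hq =>
      rw [map_add (monomial i), map_add, coeff_add, coeff_add, hp, hq, coeff_add, coeff_add]
    | monomial j c =>
      rw [Bivariate.swap_monomial_monomial, coeff_monomial, coeff_monomial]
      split_ifs with h1 h2 h2
      · rw [coeff_monomial, coeff_monomial, if_pos h1, if_pos h2]
      · rw [coeff_monomial, if_neg h2, coeff_zero]
      · rw [coeff_monomial, if_neg h1, coeff_zero]
      · rfl

theorem finite_bidegree [Finite k] (d : ℕ) :
    {G : k[X][Y] | G.natDegree ≤ d ∧ (Bivariate.swap G).natDegree ≤ d}.Finite := by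
  refine Set.Finite.of_finite_image (f := fun G (i j : Fin (d + 1)) => (G.coeff i).coeff j)
    (Set.toFinite _) ?_
  rintro G ⟨h1, h2⟩ G' ⟨h1', h2'⟩ h
  ext i j
  by_cases hi : i < d + 1
  · by_cases hj : j < d + 1
    · exact congrFun (congrFun h ⟨i, hi⟩) ⟨j, hj⟩
    · have e1 : (Bivariate.swap G).coeff j = 0 := coeff_eq_zero_of_natDegree_lt (by omega)
      have e2 : (Bivariate.swap G').coeff j = 0 := coeff_eq_zero_of_natDegree_lt (by omega)
      rw [← coeff_swap G j i, ← coeff_swap G' j i, e1, e2]
  · rw [coeff_eq_zero_of_natDegree_lt (show _ < i by omega),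
      coeff_eq_zero_of_natDegree_lt (show _ < i by omega)]

end swap

section fun_field

variable (k K : Type) [Field k] [Field K] [Algebra (RatFunc k) K] [Algebra k K]
  [IsScalarTower k (RatFunc k) K]

/-- the embedding of the polynomials -/
noncomputable def iot : k[X] →+* K :=
  (algebraMap (RatFunc k) K).comp (algebraMap k[X] (RatFunc k))

theorem iot_injective : Function.Injective (iot k K) :=
  (algebraMap (RatFunc k) K).injective.comp (IsFractionRing.injective k[X] (RatFunc k))

theorem aevalAeval_eq (f : K) (G : k[X][Y]) :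
    aevalAeval (iot k K X) f G = G.eval₂ (iot k K) f := by
  have h1 : ((aevalAeval (R := k) (iot k K X) f : k[X][Y] →ₐ[k] K) : k[X][Y] →+* K) =
      eval₂RingHom (iot k K) f := by
    refine Polynomial.ringHom_ext' (Polynomial.ringHom_ext' ?_ ?_) ?_
    · ext c
      have h2 : iot k K (C c) = algebraMap k K c := by
        rw [IsScalarTower.algebraMap_apply k (RatFunc k) K]
        rfl
      simp [h2]
    · simp
    · simp
  exact RingHom.congr_fun h1 G

theorem natDegree_le_of_irreducible [FiniteDimensional (RatFunc k) K] (f : K) (G : k[X][Y])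
    (hG : Irreducible G) (h : G.eval₂ (iot k K) f = 0) :
    G.natDegree ≤ Module.finrank (RatFunc k) K := by
  by_cases h0 : G.natDegree = 0
  · rw [h0]
    exact Nat.zero_le _
  have h1 : Irreducible (G.map (algebraMap k[X] (RatFunc k))) :=
    (IsPrimitive.irreducible_iff_irreducible_map_fraction_map
      (hG.isPrimitive h0)).1 hG
  have h2 : aeval f (G.map (algebraMap k[X] (RatFunc k))) = 0 := by
    rw [aeval_def, eval₂_map]
    exact h
  have h3 := minpoly.eq_of_irreducible h1 h2
  have h4 := minpoly.natDegree_le (A := RatFunc k) f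
  rw [← h3, natDegree_mul_C (inv_ne_zero (leadingCoeff_ne_zero.2 h1.ne_zero)),
    natDegree_map_eq_of_injective (IsFractionRing.injective k[X] (RatFunc k))] at h4
  exact h4

theorem exists_irreducible [FiniteDimensional (RatFunc k) K] (f : K) :
    ∃ G : k[X][Y], Irreducible G ∧ G.eval₂ (iot k K) f = 0 := by
  classical
  let _ : Algebra k[X] K := (iot k K).toAlgebra
  have : IsScalarTower k[X] (RatFunc k) K := IsScalarTower.of_algebraMap_eq (fun _ => rfl)
  have h1 : IsAlgebraic (RatFunc k) f := Algebra.IsAlgebraic.isAlgebraic f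
  have h2 : IsAlgebraic k[X] f := (IsFractionRing.isAlgebraic_iff k[X] (RatFunc k) K).2 h1
  obtain ⟨p, hp0, hp⟩ := h2
  have h3 : (RingHom.ker (eval₂RingHom (iot k K) f)).IsPrime := RingHom.ker_isPrime _
  have h4 : RingHom.ker (eval₂RingHom (iot k K) f) ≠ ⊥ := by
    intro h
    have h5 : p ∈ RingHom.ker (eval₂RingHom (iot k K) f) := hp
    rw [h] at h5
    exact hp0 h5
  obtain ⟨G, hG, hG'⟩ := Ideal.IsPrime.exists_mem_prime_of_ne_bot h3 h4
  exact ⟨G, hG'.irreducible, hG⟩

/-- elements with few relations -/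
def Few (d : ℕ) : Set K :=
  {f | ∃ G : k[X][Y], G ≠ 0 ∧ (G.natDegree ≤ d ∧ (Bivariate.swap G).natDegree ≤ d) ∧
    G.eval₂ (iot k K) f = 0}

theorem few_finite [Finite k] (d : ℕ) : (Few k K d).Finite := by
  classical
  refine ((finite_bidegree (k := k) d).biUnion (t := fun G => {f | f ∈ (G.map (iot k K)).roots})
    (fun G _ => (G.map (iot k K)).roots.toFinset.finite_toSet.subset
      (fun f hf => by simpa using hf))).subset ?_
  rintro f ⟨G, hG, h1, h2⟩
  refine Set.mem_iUnion₂.2 ⟨G, h1, ?_⟩
  rw [Set.mem_ofPred_eq, mem_roots ((Polynomial.map_ne_zero_iff (iot_injective k K)).2 hG),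
    IsRoot.def, eval_map]
  exact h2

theorem orbit_few [FiniteDimensional (RatFunc k) K] (σ : K ≃ₐ[k] K) :
    σ (iot k K X) ∈ Few k K (Module.finrank (RatFunc k) K) := by
  obtain ⟨G, hG, hG'⟩ := exists_irreducible k K (σ (iot k K X))
  refine ⟨G, hG.ne_zero, ⟨natDegree_le_of_irreducible k K _ G hG hG',
    natDegree_le_of_irreducible k K (σ.symm (iot k K X)) _ ?_ ?_⟩, hG'⟩
  · exact (MulEquiv.irreducible_iff (Bivariate.swap (R := k))).2 hG
  · rw [← aevalAeval_eq, Bivariate.aevalAeval_swap]
    rw [← aevalAeval_eq] at hG'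
    have h1 : ∀ G : k[X][Y], aevalAeval (σ.symm (iot k K X)) (iot k K X) G =
        σ.symm (aevalAeval (iot k K X) (σ (iot k K X)) G) := by
      intro G
      have h2 : aevalAeval (R := k) (σ.symm (iot k K X)) (iot k K X) =
          (σ.symm : K →ₐ[k] K).comp (aevalAeval (iot k K X) (σ (iot k K X))) := by
        ext <;> simp
      exact DFunLike.congr_fun h2 G
    rw [h1, hG', map_zero]

theorem finite_algEquiv [Finite k] [FiniteDimensional (RatFunc k) K] : Finite (K ≃ₐ[k] K) := by
  classical
  have hS : Finite (Few k K (Module.finrank (RatFunc k) K)) := few_finite k K _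
  let ev : (K ≃ₐ[k] K) → Few k K (Module.finrank (RatFunc k) K) :=
    fun σ => ⟨σ (iot k K X), orbit_few k K σ⟩
  have hfix : ∀ σ : K ≃ₐ[k] K, σ (iot k K X) = iot k K X → ∀ r : RatFunc k,
      σ (algebraMap (RatFunc k) K r) = algebraMap (RatFunc k) K r := by
    intro σ hσ
    have h1 : ((σ : K ≃+* K) : K →+* K).comp (algebraMap (RatFunc k) K) =
        algebraMap (RatFunc k) K := by
      refine IsLocalization.ringHom_ext (nonZeroDivisors k[X]) ?_
      refine Polynomial.ringHom_ext' ?_ hσ
      ext c
      have h2 : iot k K (C c) = algebraMap k K c := by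
        rw [IsScalarTower.algebraMap_apply k (RatFunc k) K]
        rfl
      change σ (iot k K (C c)) = iot k K (C c)
      rw [h2, AlgEquiv.commutes]
    exact fun r => RingHom.congr_fun h1 r
  let T : Set (K ≃ₐ[k] K) := {σ | σ (iot k K X) = iot k K X}
  have hT : Finite T := by
    refine Finite.of_injective (β := K →ₐ[RatFunc k] K) (fun σ =>
      { ((σ.1 : K ≃+* K) : K →+* K) with commutes' := fun r => hfix σ.1 σ.2 r }) ?_
    intro σ τ h
    apply Subtype.ext
    ext x
    exact DFunLike.congr_fun h x
  by_cases hne : Nonempty (K ≃ₐ[k] K)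
  swap
  · rw [not_nonempty_iff] at hne
    infer_instance
  let rep : Few k K (Module.finrank (RatFunc k) K) → (K ≃ₐ[k] K) := fun y =>
    if h : ∃ σ, ev σ = y then h.choose else 1
  have hrep : ∀ σ, ev (rep (ev σ)) = ev σ := by
    intro σ
    have h : ∃ τ, ev τ = ev σ := ⟨σ, rfl⟩
    simp only [rep, dif_pos h]
    exact h.choose_spec
  refine Finite.of_injective (β := Few k K (Module.finrank (RatFunc k) K) × T) (fun σ =>
    (ev σ, ⟨(rep (ev σ))⁻¹ * σ, ?_⟩)) ?_
  · have h1 : (rep (ev σ)) (iot k K X) = σ (iot k K X) := congrArg Subtype.val (hrep σ)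
    change (rep (ev σ))⁻¹ (σ (iot k K X)) = iot k K X
    rw [← h1]
    exact (rep (ev σ)).symm_apply_apply _
  · intro σ τ h
    rw [Prod.mk.injEq] at h
    obtain ⟨h1, h2⟩ := h
    have h3 := congrArg Subtype.val h2
    simp only at h3
    rw [h1] at h3
    exact mul_left_cancel h3

end fun_field

end Pool.Agent.Helper84.FJ
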