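import Pool.Agent.Helper84.FJ.K

/-!
# Linear groups over global fields
-/

set_option autoImplicit false

open Polynomial

namespace Pool.Agent.Helper84.FJ

open Pool.Agent.Y462.SS Pool.Agent.Q152.WP Pool.Agent.Q91.FJ

/-- finite fields, number fields and function fields of one variable over finite fields -/
def GlobalField (K : Type) [Field K] : Prop :=
  Finite K ∨ (∃ _ : Algebra ℚ K, FiniteDimensional ℚ K) ∨
    ∃ (p : ℕ) (_ : Fact p.Prime) (_ : Algebra (RatFunc (ZMod p)) K),
      FiniteDimensional (RatFunc (ZMod p)) K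

theorem finite_ringEquiv_of_global (K : Type) [Field K] (h : GlobalField K) :
    Finite (K ≃+* K) := by
  classical
  rcases h with h | ⟨_, h⟩ | ⟨p, _, _, h⟩
  · exact Finite.of_injective (fun f : K ≃+* K => (f : K → K))
      (fun a b h => DFunLike.coe_injective h)
  · refine Finite.of_injective (β := K →ₐ[ℚ] K) (fun σ =>
      { (σ : K →+* K) with commutes' := fun r => by simp }) ?_
    intro σ τ h
    ext x
    exact DFunLike.congr_fun h x
  · let _ : Algebra (ZMod p) K :=
      ((algebraMap (RatFunc (ZMod p)) K).comp (algebraMap (ZMod p) (RatFunc (ZMod p)))).toAlgebra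
    have : IsScalarTower (ZMod p) (RatFunc (ZMod p)) K :=
      IsScalarTower.of_algebraMap_eq (fun _ => rfl)
    have h1 := finite_algEquiv (ZMod p) K
    refine Finite.of_injective (β := K ≃ₐ[ZMod p] K) (fun σ =>
      AlgEquiv.ofRingEquiv (f := σ) (fun r => ?_)) ?_
    · exact RingHom.congr_fun (Subsingleton.elim ((σ : K →+* K).comp (algebraMap (ZMod p) K))
        (algebraMap (ZMod p) K)) r
    · intro σ τ h
      ext x
      exact DFunLike.congr_fun h x

theorem finite_ringEquiv_domain (D : Type) [CommRing D] [IsDomain D]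
    (h : Finite (FractionRing D ≃+* FractionRing D)) : Finite (D ≃+* D) := by
  refine Finite.of_injective (β := FractionRing D ≃+* FractionRing D)
    (fun σ => IsFractionRing.ringEquivOfRingEquiv σ) ?_
  intro σ τ h
  ext x
  apply IsFractionRing.injective D (FractionRing D)
  have h1 := RingEquiv.congr_fun h (algebraMap D (FractionRing D) x)
  simpa using h1

variable {C : ∀ (G : Type) [Group G], Prop}

theorem finite_mem (hC : Closed C) (G : Type) [Group G] [Finite G] : C G :=
  hC.finiteIndex G ⊥ inferInstance (Pool.Agent.Y812.SS.C_subsingleton hC _)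

theorem global_mem (hC : Closed C) (hQ : ∀ n : ℕ, C (Matrix.GeneralLinearGroup (Fin n) ℚ))
    (hF : ∀ (p : ℕ) [Fact p.Prime] (n : ℕ),
      C (Matrix.GeneralLinearGroup (Fin n) (RatFunc (ZMod p))))
    (K : Type) [Field K] (h : GlobalField K) (n : ℕ) :
    C (Matrix.GeneralLinearGroup (Fin n) K) := by
  classical
  rcases h with h | ⟨_, h⟩ | ⟨p, _, _, h⟩
  · have : Finite (Matrix.GeneralLinearGroup (Fin n) K) := by
      change Finite (Matrix (Fin n) (Fin n) K)ˣ
      infer_instance
    exact finite_mem hC _
  · exact units_mem (P := fun K _ => ∀ n : ℕ, C (Matrix.GeneralLinearGroup (Fin n) K)) hC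
      (fun _ _ h => h) ℚ hQ (Matrix (Fin n) (Fin n) K)
  · exact units_mem (P := fun K _ => ∀ n : ℕ, C (Matrix.GeneralLinearGroup (Fin n) K)) hC
      (fun _ _ h => h) (RatFunc (ZMod p)) (hF p) (Matrix (Fin n) (Fin n) K)

end Pool.Agent.Helper84.FJ
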