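import Pool.Agent.Helper84.FJ.L

/-!
# Finitely generated domains of dimension at most one
-/

set_option autoImplicit false

open Polynomial

namespace Pool.Agent.Helper84.FJ

theorem isJacobsonRing_int : IsJacobsonRing ℤ := by
  rw [isJacobsonRing_iff_prime_eq]
  intro P hP
  by_cases h : P = ⊥
  · subst h
    rw [eq_bot_iff]
    intro x hx
    rw [Ideal.mem_bot]
    by_contra hx0
    obtain ⟨p, hp1, hp2⟩ := Nat.exists_infinite_primes (x.natAbs + 1)
    have h1 : (Ideal.span {(p : ℤ)}).IsMaximal :=
      PrincipalIdealRing.isMaximal_of_irreducible (Nat.prime_iff_prime_int.1 hp2).irreducible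
    rw [Ideal.jacobson, Ideal.mem_sInf] at hx
    have h2 := hx ⟨bot_le, h1⟩
    rw [Ideal.mem_span_singleton] at h2
    have h3 := Nat.le_of_dvd (Int.natAbs_pos.2 hx0) (Int.natCast_dvd.1 h2)
    omega
  · have h1 : P.IsMaximal := Ideal.IsPrime.isMaximal hP h
    exact Ideal.jacobson_eq_self_of_isMaximal

/-- fraction fields of finitely generated domains of dimension at most one -/
theorem finite_fraction (B D L K : Type) [CommRing B] [IsDomain B] [IsJacobsonRing B] [CommRing D]
    [IsDomain D] [Algebra B D] [Algebra.FiniteType B D] (hinj : Function.Injective (algebraMap B D))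
    (hB : ¬ IsField B) (hD : ∀ I : Ideal D, I ≠ ⊥ → I.IsPrime → I.IsMaximal) [Field L]
    [Algebra B L] [IsFractionRing B L] [Field K] [Algebra D K] [IsFractionRing D K] [Algebra B K]
    [IsScalarTower B D K] [Algebra L K] [IsScalarTower B L K] : FiniteDimensional L K := by
  classical
  have hBK : ∀ b : B, algebraMap L K (algebraMap B L b) = algebraMap D K (algebraMap B D b) := by
    intro b
    rw [← IsScalarTower.algebraMap_apply, ← IsScalarTower.algebraMap_apply]
  have hinjK : ∀ b : B, algebraMap D K (algebraMap B D b) = 0 → b = 0 := by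
    intro b hb
    exact hinj (IsFractionRing.injective D K (by rw [hb, map_zero, map_zero]))
  obtain ⟨s, hs⟩ := (inferInstance : Algebra.FiniteType B D).out
  let T : Subalgebra L K := Algebra.adjoin L ((s.image (algebraMap D K) : Finset K) : Set K)
  have hTfg : Algebra.FiniteType L T :=
    (Subalgebra.fg_iff_finiteType _).1 (Subalgebra.fg_adjoin_finset _)
  have hDT : ∀ d : D, algebraMap D K d ∈ T := by
    intro d
    have hd : d ∈ Algebra.adjoin B (s : Set D) := by
      rw [hs]
      trivial
    induction hd using Algebra.adjoin_induction with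
    | mem x hx =>
      refine Algebra.subset_adjoin ?_
      rw [Finset.coe_image]
      exact ⟨x, hx, rfl⟩
    | algebraMap b =>
      rw [← hBK]
      exact T.algebraMap_mem _
    | add x y _ _ hx hy =>
      rw [map_add]
      exact add_mem hx hy
    | mul x y _ _ hx hy =>
      rw [map_mul]
      exact mul_mem hx hy
  have hTden : ∀ x ∈ T, ∃ b : B, b ≠ 0 ∧ ∃ d : D, algebraMap D K (algebraMap B D b) * x =
      algebraMap D K d := by
    intro x hx
    induction hx using Algebra.adjoin_induction with
    | mem x hx =>
      rw [Finset.coe_image] at hx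
      obtain ⟨y, -, rfl⟩ := hx
      exact ⟨1, one_ne_zero, y, by rw [map_one, map_one, one_mul]⟩
    | algebraMap l =>
      obtain ⟨a, b, hb, rfl⟩ := IsFractionRing.div_surjective (A := B) l
      refine ⟨b, nonZeroDivisors.ne_zero hb, algebraMap B D a, ?_⟩
      have h1 : algebraMap D K (algebraMap B D b) ≠ 0 := fun h =>
        nonZeroDivisors.ne_zero hb (hinjK b h)
      rw [map_div₀, hBK, hBK]
      field_simp
    | add x y _ _ hx hy =>
      obtain ⟨b, hb, d, hd⟩ := hx
      obtain ⟨b', hb', d', hd'⟩ := hy
      refine ⟨b * b', mul_ne_zero hb hb', algebraMap B D b' * d + algebraMap B D b * d', ?_⟩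
      rw [map_mul, map_mul, map_add, map_mul, map_mul, ← hd, ← hd']
      ring
    | mul x y _ _ hx hy =>
      obtain ⟨b, hb, d, hd⟩ := hx
      obtain ⟨b', hb', d', hd'⟩ := hy
      refine ⟨b * b', mul_ne_zero hb hb', d * d', ?_⟩
      rw [map_mul, map_mul, map_mul, ← hd, ← hd']
      ring
  let j : D →+* T := (algebraMap D K).codRestrict T.toSubring hDT
  have hj : ∀ d, ((j d : T) : K) = algebraMap D K d := fun _ => rfl
  have hT : IsField T := by
    by_contra hT
    obtain ⟨m, hm⟩ := Ideal.exists_maximal T
    have hm0 := Ring.ne_bot_of_isMaximal_of_not_isField hm hT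
    let P1 : Ideal D := m.comap j
    have hP1 : P1.IsPrime := Ideal.IsPrime.comap j (hK := hm.isPrime)
    have hBP : ∀ b : B, b ≠ 0 → algebraMap B D b ∉ P1 := by
      intro b hb h
      apply hm.ne_top
      rw [Ideal.eq_top_iff_one]
      have h1 : (1 : T) = ⟨algebraMap L K (algebraMap B L b)⁻¹, T.algebraMap_mem _⟩ *
          j (algebraMap B D b) := by
        apply Subtype.ext
        change (1 : K) = algebraMap L K (algebraMap B L b)⁻¹ * algebraMap D K (algebraMap B D b)
        rw [map_inv₀, hBK, inv_mul_cancel₀]
        exact fun h => hb (hinjK b h)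
      rw [h1]
      exact m.mul_mem_left _ h
    have hP1' : P1 ≠ ⊥ := by
      obtain ⟨x, hx, hx0⟩ := Submodule.exists_mem_ne_zero_of_ne_bot hm0
      obtain ⟨b, hb, d, hd⟩ := hTden x x.2
      intro h
      have h1 : d ∈ P1 := by
        change j d ∈ m
        have h2 : j d = j (algebraMap B D b) * x := Subtype.ext hd.symm
        rw [h2]
        exact m.mul_mem_left _ hx
      rw [h, Ideal.mem_bot] at h1
      rw [h1, map_zero] at hd
      rcases mul_eq_zero.1 hd with h2 | h2
      · exact hb (hinjK b h2)
      · exact hx0 (Subtype.ext h2)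
    have hP1m := hD P1 hP1' hP1
    let _ : Field (D ⧸ P1) := Ideal.Quotient.field P1
    have h1 : Module.Finite B (D ⧸ P1) := finite_of_finite_type_of_isJacobsonRing B (D ⧸ P1)
    have h2 : Function.Injective (algebraMap B (D ⧸ P1)) := by
      rw [injective_iff_map_eq_zero]
      intro b hb
      by_contra hb0
      have h3 : Ideal.Quotient.mk P1 (algebraMap B D b) = 0 := hb
      rw [Ideal.Quotient.eq_zero_iff_mem] at h3
      exact hBP b hb0 h3
    exact hB (isField_of_isIntegral_of_isField h2 (Field.toIsField (D ⧸ P1)))
  have hfin : Module.Finite L T := by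
    let _ : Field T := hT.toField
    exact finite_of_finite_type_of_isJacobsonRing L T
  refine Module.Finite.of_surjective T.val.toLinearMap ?_
  intro x
  obtain ⟨d, e, he, rfl⟩ := IsFractionRing.div_surjective (A := D) x
  have he0 : j e ≠ 0 := by
    intro h
    have h1 : algebraMap D K e = 0 := congrArg Subtype.val h
    exact nonZeroDivisors.ne_zero he (IsFractionRing.injective D K (by rw [h1, map_zero]))
  obtain ⟨y, hy⟩ := hT.mul_inv_cancel he0
  have hy' : algebraMap D K e * (y : K) = 1 := congrArg Subtype.val hy
  refine ⟨j d * y, ?_⟩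
  change algebraMap D K d * (y : K) = algebraMap D K d / algebraMap D K e
  rw [eq_div_iff (left_ne_zero_of_mul_eq_one hy'), mul_assoc, mul_comm (y : K), hy', mul_one]

/-- **fraction fields of finitely generated domains of dimension at most one are global fields** -/
theorem global_of_dim_le_one (D : Type) [CommRing D] [IsDomain D] [Algebra.FiniteType ℤ D]
    (hD : ∀ I : Ideal D, I ≠ ⊥ → I.IsPrime → I.IsMaximal) : GlobalField (FractionRing D) := by
  classical
  obtain ⟨p, hp⟩ := CharP.exists D
  rcases CharP.char_is_prime_or_zero D p with hpp | rfl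
  · have : Fact p.Prime := ⟨hpp⟩
    let _ : Algebra (ZMod p) D := ZMod.algebra D p
    have hft : Algebra.FiniteType (ZMod p) D := by
      obtain ⟨s, hs⟩ := (inferInstance : Algebra.FiniteType ℤ D).out
      refine ⟨⟨s, ?_⟩⟩
      rw [eq_top_iff]
      rintro x -
      have hx : x ∈ Algebra.adjoin ℤ (s : Set D) := by
        rw [hs]
        trivial
      induction hx using Algebra.adjoin_induction with
      | mem x hx => exact Algebra.subset_adjoin hx
      | algebraMap b =>
        rw [eq_intCast, ← map_intCast (algebraMap (ZMod p) D)]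
        exact Subalgebra.algebraMap_mem _ _
      | add x y _ _ hx hy => exact add_mem hx hy
      | mul x y _ _ hx hy => exact mul_mem hx hy
    by_cases halg : Algebra.IsAlgebraic (ZMod p) D
    · left
      have h1 : Algebra.IsIntegral (ZMod p) D := Algebra.isAlgebraic_iff_isIntegral.1 halg
      have h2 : Module.Finite (ZMod p) D := Algebra.IsIntegral.finite
      have h3 : Finite D := Module.finite_of_finite (ZMod p)
      refine Finite.of_surjective (fun z : D × nonZeroDivisors D =>
        IsLocalization.mk' (FractionRing D) z.1 z.2) ?_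
      intro x
      obtain ⟨a, b, rfl⟩ := IsLocalization.exists_mk'_eq (nonZeroDivisors D) x
      exact ⟨(a, b), rfl⟩
    · right; right
      rw [Algebra.isAlgebraic_def] at halg
      obtain ⟨x, hx⟩ := not_forall.1 halg
      have hx' : Function.Injective (aeval (R := ZMod p) x) :=
        transcendental_iff_injective.1 hx
      let _ : Algebra (ZMod p)[X] D := (aeval (R := ZMod p) x).toRingHom.toAlgebra
      have : IsScalarTower (ZMod p) (ZMod p)[X] D := IsScalarTower.of_algebraMap_eq (fun c => by
        change _ = aeval (R := ZMod p) x (C c)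
        rw [aeval_C])
      have hft' : Algebra.FiniteType (ZMod p)[X] D :=
        Algebra.FiniteType.of_restrictScalars_finiteType (ZMod p) (ZMod p)[X] D
      have hinj : Function.Injective (algebraMap (ZMod p)[X] (FractionRing D)) := by
        rw [IsScalarTower.algebraMap_eq (ZMod p)[X] D (FractionRing D)]
        exact (IsFractionRing.injective D (FractionRing D)).comp hx'
      let _ : Algebra (RatFunc (ZMod p)) (FractionRing D) := (IsFractionRing.lift hinj).toAlgebra
      have : IsScalarTower (ZMod p)[X] (RatFunc (ZMod p)) (FractionRing D) :=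
        IsScalarTower.of_algebraMap_eq (fun c => (IsFractionRing.lift_algebraMap hinj c).symm)
      exact ⟨p, inferInstance, inferInstance, finite_fraction (ZMod p)[X] D (RatFunc (ZMod p))
        (FractionRing D) hx' (Polynomial.not_isField _) hD⟩
  · right; left
    have : CharZero D := CharP.charP_to_charZero D
    have := isJacobsonRing_int
    let _ : Algebra ℚ (FractionRing D) := DivisionRing.toRatAlgebra
    refine ⟨inferInstance, ?_⟩
    refine @finite_fraction ℤ D ℚ (FractionRing D) _ _ _ _ _ _ _ (algebraMap ℤ D).injective_int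
      Int.not_isField hD _ _ _ _ _ _ inferInstance ?_ _ ?_
    · exact IsScalarTower.of_algebraMap_eq (fun n => by
        rw [eq_intCast, eq_intCast, map_intCast])
    · exact IsScalarTower.of_algebraMap_eq (fun n => by
        rw [eq_intCast, eq_intCast, map_intCast])

end Pool.Agent.Helper84.FJ
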